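import Pool.Agent.L0h67.HL.Smooth

/-! Bisectors and crossings of the middle level. -/

set_option autoImplicit false

namespace Pool.Agent.L0h67.HL

open Finset MeasureTheory Filter Pool.Agent.R117.KR Pool.Agent.H189R2.Lev
open scoped ENNReal Topology

variable {n : ℕ}

open Classical in
theorem bisector_finite (P : Finset (ℝ × ℝ)) : {L | IsBisector P L}.Finite := by
  refine (kline_finite P (P.card / 2 - 1)).subset ?_
  rintro L ⟨a, b, c, h1, h2, h3, -, h5⟩
  exact ⟨a, b, c, h1, h2, h3, h5⟩

/-- vertical lines -/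
def Vert : Set (Set (ℝ × ℝ)) := {L | ∃ a c : ℝ, a ≠ 0 ∧ L = Line a 0 c}

open Classical in
theorem vert_bis {P : Fin n → ℝ × ℝ} (hP : Function.Injective P) {L : Set (ℝ × ℝ)}
    (h1 : IsBisector (univ.image P) L) (h2 : L ∈ Vert) :
    ∃ u : ℝ, L = {p | p.1 = u} ∧ {l | xs P l < u}.ncard = n / 2 - 1 ∧
      ∃ i j, i ≠ j ∧ xs P i = u ∧ xs P j = u := by
  obtain ⟨a₀, c₀, ha₀, hL⟩ := h2
  obtain ⟨a, b, c, hab, hL', ⟨p, hp, q, hq, hpq, hpL, hqL⟩, h3, h4⟩ := h1
  rw [card_image_filter hP, card_image hP] at h3 h4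
  have hb : b = 0 := by
    have m1 : ((c₀ / a₀, (0 : ℝ)) : ℝ × ℝ) ∈ L := by
      rw [hL]
      show a₀ * (c₀ / a₀) + 0 * 0 = c₀
      field_simp
      ring
    have m2 : ((c₀ / a₀, (1 : ℝ)) : ℝ × ℝ) ∈ L := by
      rw [hL]
      show a₀ * (c₀ / a₀) + 0 * 1 = c₀
      field_simp
      ring
    rw [hL'] at m1 m2
    have e1 : a * (c₀ / a₀) + b * 0 = c := m1
    have e2 : a * (c₀ / a₀) + b * 1 = c := m2
    linarith
  subst hb
  have ha : a ≠ 0 := hab.resolve_right (by simp)
  have hLu : L = {p | p.1 = c / a} := by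
    rw [hL']
    ext z
    show a * z.1 + 0 * z.2 = c ↔ z.1 = c / a
    rw [eq_div_iff ha]
    constructor <;> intro h <;> linarith
  refine ⟨c / a, hLu, ?_, ?_⟩
  · rcases lt_or_gt_of_ne ha with h | h
    · rw [← h4]
      congr 1
      ext l
      show (P l).1 < c / a ↔ c < a * (P l).1 + 0 * (P l).2
      rw [lt_div_iff_of_neg h]
      constructor <;> intro h <;> linarith
    · rw [← h3]
      congr 1
      ext l
      show (P l).1 < c / a ↔ a * (P l).1 + 0 * (P l).2 < c
      rw [lt_div_iff₀ h]
      constructor <;> intro h <;> linarith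
  · rw [mem_image] at hp hq
    obtain ⟨i, -, rfl⟩ := hp
    obtain ⟨j, -, rfl⟩ := hq
    rw [hLu] at hpL hqL
    exact ⟨i, j, fun h => hpq (by rw [h]), hpL, hqL⟩

theorem vert_lt {P : Fin n → ℝ × ℝ} {u u' : ℝ} (h1 : {l | xs P l < u}.ncard = n / 2 - 1)
    (h2 : {l | xs P l < u'}.ncard = n / 2 - 1) (hij : ∃ i j, i ≠ j ∧ xs P i = u ∧ xs P j = u)
    (hlt : u < u') : False := by
  classical
  obtain ⟨i, j, hne, hi, hj⟩ := hij
  have hsub : {l | xs P l < u} ∪ {i, j} ⊆ {l | xs P l < u'} := by
    rintro l (h | h | h)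
    · exact lt_trans h hlt
    · show xs P l < u'
      rw [h, hi]; exact hlt
    · show xs P l < u'
      have : l = j := h
      rw [this, hj]; exact hlt
  have hd : Disjoint {l | xs P l < u} ({i, j} : Set (Fin n)) := by
    rw [Set.disjoint_left]
    rintro l h1 (h2 | h2)
    · have h3 : xs P l < u := h1
      rw [h2, hi] at h3
      exact lt_irrefl _ h3
    · have h3 : xs P l < u := h1
      have : l = j := h2
      rw [this, hj] at h3
      exact lt_irrefl _ h3
  have h3 := Set.ncard_le_ncard hsub (Set.toFinite _)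
  rw [Set.ncard_union_eq hd (Set.toFinite _) (Set.toFinite _), Set.ncard_pair hne] at h3
  omega

open Classical in
/-- the number of bisectors is at most one more than the number of crossings with `n / 2 - 1`
lines below -/
theorem bisectors_le_cross {P : Fin n → ℝ × ℝ} (hP : Function.Injective P) :
    {L | IsBisector (univ.image P) L}.ncard ≤ (cross (xs P) (ys P) (n / 2 - 1)).ncard + 1 := by
  set B : Set (Set (ℝ × ℝ)) := {L | IsBisector (univ.image P) L} with hB
  have hBf : B.Finite := bisector_finite _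
  have h0 := Set.ncard_inter_add_ncard_sdiff_eq_ncard B Vert hBf
  have h1 : (B ∩ Vert).ncard ≤ 1 := by
    rw [Set.ncard_le_one (hBf.inter_of_left _)]
    rintro L ⟨hL1, hL2⟩ L' ⟨hL1', hL2'⟩
    obtain ⟨u, e, h2, h3⟩ := vert_bis hP hL1 hL2
    obtain ⟨u', e', h2', h3'⟩ := vert_bis hP hL1' hL2'
    rcases lt_trichotomy u u' with h | h | h
    · exact (vert_lt h2 h2' h3 h).elim
    · rw [e, e', h]
    · exact (vert_lt h2' h2 h3' h).elim
  have h2 : (B \ Vert).ncard ≤ (cross (xs P) (ys P) (n / 2 - 1)).ncard := by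
    apply lines_le (P := P)
    · rintro L ⟨⟨a, b, c, hab, hL, -⟩, -⟩
      exact ⟨a, b, c, hab, hL⟩
    · rintro L ⟨⟨a, b, c, hab, rfl, ⟨p, hp, q, hq, hpq, hpL, hqL⟩, h1, h2⟩, hv⟩
      rw [card_image_filter hP, card_image hP] at h1 h2
      rw [mem_image] at hp hq
      obtain ⟨i, -, rfl⟩ := hp
      obtain ⟨j, -, rfl⟩ := hq
      have hb : b ≠ 0 := by
        rintro rfl
        exact hv ⟨a, c, hab.resolve_right (by simp), rfl⟩
      have main : ∀ i j : Fin n, P i ≠ P j → P i ∈ Line a b c → P j ∈ Line a b c → i < j →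
          (i, j) ∈ cross (xs P) (ys P) (n / 2 - 1) := by
        intro i j hij hi hj hlt
        have hne : (P i).1 ≠ (P j).1 := by
          intro he
          apply hij
          have e1 : a * (P i).1 + b * (P i).2 = c := hi
          have e2 : a * (P j).1 + b * (P j).2 = c := hj
          have e3 : b * ((P i).2 - (P j).2) = 0 := by
            rw [he] at e1
            linarith
          have e4 := (mul_eq_zero.mp e3).resolve_left hb
          exact Prod.ext he (by linarith)
        refine ⟨hlt, hne, ?_⟩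
        have hbel := below_eq hne
        have key : (if (P i).1 < (P j).1 then neg P i j else pos P i j).ncard = n / 2 - 1 := by
          rcases side_form hab hij hi hj with h | h
          · have e1 : pos P i j = {l | c < a * (P l).1 + b * (P l).2} := by
              ext l; exact (h (P l)).1
            have e2 : neg P i j = {l | a * (P l).1 + b * (P l).2 < c} := by
              ext l; exact (h (P l)).2
            split_ifs
            · rw [e2]; exact h1
            · rw [e1]; exact h2
          · have e1 : pos P i j = {l | a * (P l).1 + b * (P l).2 < c} := by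
              ext l; exact (h (P l)).1
            have e2 : neg P i j = {l | c < a * (P l).1 + b * (P l).2} := by
              ext l; exact (h (P l)).2
            split_ifs
            · rw [e2]; exact h2
            · rw [e1]; exact h1
        rw [← hbel] at key
        exact key
      have hij : i ≠ j := fun h => hpq (by rw [h])
      rcases lt_or_gt_of_ne hij with hlt | hlt
      · exact ⟨i, j, hlt, hpq, hpL, hqL, main i j hpq hpL hqL hlt⟩
      · exact ⟨j, i, hlt, hpq.symm, hqL, hpL, main j i hpq.symm hqL hpL hlt⟩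
  omega

/-- uniform laws on squares of side `2 σ` around arbitrary centres in the strip `|y| ≤ H` -/
theorem dom_square (c : Fin n → ℝ × ℝ) {H σ : ℝ} (hσ : 0 < σ) (hc : ∀ i, |(c i).2| ≤ H) :
    Dom (fun i => ProbabilityTheory.cond volume
        (Set.Icc ((c i).1 - σ) ((c i).1 + σ) ×ˢ Set.Icc ((c i).2 - σ) ((c i).2 + σ)))
      (fun i => (ENNReal.ofReal (4 * σ ^ 2))⁻¹ •
        (volume.restrict (Set.Icc ((c i).1 - σ) ((c i).1 + σ)))) (H + σ) (1 / (2 * σ)) := by
  have hI : ∀ u : ℝ, (volume (Set.Icc (u - σ) (u + σ)) : ℝ≥0∞) = ENNReal.ofReal (2 * σ) := by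
    intro u
    rw [Real.volume_Icc]
    congr 1
    ring
  have hS : ∀ u v : ℝ, (volume (Set.Icc (u - σ) (u + σ) ×ˢ Set.Icc (v - σ) (v + σ)) : ℝ≥0∞) =
      ENNReal.ofReal (4 * σ ^ 2) := by
    intro u v
    rw [Measure.volume_eq_prod, Measure.prod_prod, hI, hI, ← ENNReal.ofReal_mul (by linarith)]
    congr 1
    ring
  refine ⟨?_, ?_, ?_⟩
  · intro i
    rw [Measure.smul_apply, Measure.restrict_apply MeasurableSet.univ, Set.univ_inter, hI,
      smul_eq_mul, ← ENNReal.ofReal_inv_of_pos (by positivity), ← ENNReal.ofReal_mul (by positivity)]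
    apply ENNReal.ofReal_le_ofReal
    apply le_of_eq
    field_simp
    ring
  · intro i
    rw [ProbabilityTheory.cond, hS, Measure.volume_eq_prod, ← Measure.prod_restrict,
      Measure.prod_smul_left]
    intro s
    rw [Measure.smul_apply, Measure.smul_apply]
    apply mul_le_mul_right
    have : (volume.restrict (Set.Icc ((c i).1 - σ) ((c i).1 + σ))).prod
        (volume.restrict (Set.Icc ((c i).2 - σ) ((c i).2 + σ))) ≤
        (volume.restrict (Set.Icc ((c i).1 - σ) ((c i).1 + σ))).prod (volume : Measure ℝ) := by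
      have e : (volume.restrict (Set.Icc ((c i).1 - σ) ((c i).1 + σ))).prod
          (volume.restrict (Set.Icc ((c i).2 - σ) ((c i).2 + σ))) =
          ((volume.restrict (Set.Icc ((c i).1 - σ) ((c i).1 + σ))).prod
            (volume : Measure ℝ)).restrict (Set.univ ×ˢ Set.Icc ((c i).2 - σ) ((c i).2 + σ)) := by
        rw [← Measure.prod_restrict, Measure.restrict_univ]
      rw [e]
      exact Measure.restrict_le_self
    exact this s
  · intro i
    have hm : MeasurableSet (Set.Icc ((c i).1 - σ) ((c i).1 + σ) ×ˢ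
      Set.Icc ((c i).2 - σ) ((c i).2 + σ)) := measurableSet_Icc.prod measurableSet_Icc
    have h1 := ProbabilityTheory.ae_cond_mem (μ := (volume : Measure (ℝ × ℝ))) hm
    filter_upwards [h1] with p hp
    have h2 := hp.2
    rw [Set.mem_Icc] at h2
    have h3 := abs_le.mp (hc i)
    rw [abs_le]
    constructor <;> linarith [h2.1, h2.2, h3.1, h3.2]

end Pool.Agent.L0h67.HL
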