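import Pool.Agent.L0h67.HL.Sub

/-! Halving lines of the `n`-element subsets of an arbitrary set with more than `n` points. -/

set_option autoImplicit false

namespace Pool.Agent.L0h67.HL

open Finset MeasureTheory Filter Pool.Agent.R117.KR Pool.Agent.H189R2.Lev Pool.Agent.H189R2.Iid
open scoped ENNReal Topology

section binom

/-- `(A)_k (B)_k M^(2k) ≤ (A B)^k ∏ (M - 2 i)^2` for `A + B = M` -/
theorem desc_le (A B : ℕ) : ∀ k : ℕ, k ≤ A → k ≤ B →
    ((A.descFactorial k : ℝ) * (B.descFactorial k : ℝ)) * ((A + B : ℕ) : ℝ) ^ (2 * k) ≤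
      ((A : ℝ) * B) ^ k * ∏ i ∈ range k, (((A + B : ℕ) : ℝ) - 2 * i) ^ 2 := by
  intro k
  induction k with
  | zero => intro _ _; simp
  | succ k ih =>
    intro hA hB
    have ih' := ih (by omega) (by omega)
    rw [Nat.descFactorial_succ, Nat.descFactorial_succ, prod_range_succ]
    push_cast [Nat.cast_sub (show k ≤ A by omega), Nat.cast_sub (show k ≤ B by omega)] at ih' ⊢
    have hAk : (k : ℝ) + 1 ≤ A := by exact_mod_cast hA
    have hBk : (k : ℝ) + 1 ≤ B := by exact_mod_cast hB
    have hk0 : (0 : ℝ) ≤ k := by positivity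
    have h1 : ((A : ℝ) - k) * (B - k) * ((A : ℝ) + B) ^ 2 ≤
        (A * B) * ((A : ℝ) + B - 2 * k) ^ 2 := by
      have e : (A * B) * ((A : ℝ) + B - 2 * k) ^ 2 -
          ((A : ℝ) - k) * (B - k) * ((A : ℝ) + B) ^ 2 =
          k * ((A : ℝ) + B - k) * (A - B) ^ 2 := by ring
      have h2 : 0 ≤ k * ((A : ℝ) + B - k) * (A - B) ^ 2 := by
        have : 0 ≤ (A : ℝ) + B - k := by linarith
        positivity
      linarith
    have h3 : 0 ≤ ((A : ℝ) - k) * (B - k) * ((A : ℝ) + B) ^ 2 := by
      have ha : 0 ≤ (A : ℝ) - k := by linarith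
      have hb : 0 ≤ (B : ℝ) - k := by linarith
      positivity
    have h4 : 0 ≤ ((A : ℝ) * B) ^ k * ∏ i ∈ range k, ((A : ℝ) + B - 2 * i) ^ 2 := by
      apply mul_nonneg (by positivity)
      exact prod_nonneg fun i _ => sq_nonneg _
    calc _ = ((A.descFactorial k : ℝ) * (B.descFactorial k : ℝ) * ((A : ℝ) + B) ^ (2 * k)) *
          (((A : ℝ) - k) * (B - k) * ((A : ℝ) + B) ^ 2) := by ring
      _ ≤ (((A : ℝ) * B) ^ k * ∏ i ∈ range k, ((A : ℝ) + B - 2 * i) ^ 2) *
          ((A * B) * ((A : ℝ) + B - 2 * k) ^ 2) := mul_le_mul ih' h1 h3 h4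
      _ = _ := by ring

/-- `(∏ (M - 2 i)^2)^2 (M - 2 k) ≤ ((M)_(2k))^2 M` -/
theorem prod_sq_le (M : ℕ) : ∀ k : ℕ, 2 * k ≤ M →
    (∏ i ∈ range k, ((M : ℝ) - 2 * i) ^ 2) ^ 2 * ((M : ℝ) - 2 * k) ≤
      (M.descFactorial (2 * k) : ℝ) ^ 2 * M := by
  intro k
  induction k with
  | zero => intro _; simp
  | succ k ih =>
    intro hk
    have ih' := ih (by omega)
    rw [prod_range_succ, show 2 * (k + 1) = (2 * k + 1) + 1 by ring, Nat.descFactorial_succ,
      Nat.descFactorial_succ]
    push_cast [Nat.cast_sub (show 2 * k ≤ M by omega), Nat.cast_sub (show 2 * k + 1 ≤ M by omega)]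
    set x : ℝ := (M : ℝ) - 2 * k with hx
    have hx2 : 2 ≤ x := by
      have : ((2 * (k + 1) : ℕ) : ℝ) ≤ M := by exact_mod_cast hk
      push_cast at this
      rw [hx]; linarith
    set U : ℝ := ∏ i ∈ range k, ((M : ℝ) - 2 * i) ^ 2 with hU
    set W : ℝ := (M.descFactorial (2 * k) : ℝ) with hW
    have hM : (0 : ℝ) ≤ M := by positivity
    calc (U * x ^ 2) ^ 2 * ((M : ℝ) - 2 * (k + 1)) = (U ^ 2 * x) * (x ^ 3 * (x - 2)) := by
          rw [hx]; ring
      _ ≤ (W ^ 2 * M) * (x ^ 3 * (x - 2)) := by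
          apply mul_le_mul_of_nonneg_right ih'
          have : 0 ≤ x - 2 := by linarith
          have : 0 ≤ x := by linarith
          positivity
      _ ≤ (W ^ 2 * M) * (x ^ 2 * (x - 1) ^ 2) := by
          apply mul_le_mul_of_nonneg_left _ (by positivity)
          have : x ^ 3 * (x - 2) = x ^ 2 * (x * (x - 2)) := by ring
          rw [this]
          apply mul_le_mul_of_nonneg_left _ (by positivity)
          nlinarith
      _ = _ := by
          rw [hx]; ring

theorem choose_le (A B k : ℕ) (h : 2 * k < A + B) :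
    ((A.choose k : ℝ) * (B.choose k : ℝ)) * ((A + B : ℕ) : ℝ) ^ (2 * k) ≤
      ((A : ℝ) * B) ^ k * (((A + B).choose (2 * k) : ℝ) * ((2 * k).choose k : ℝ)) *
        Real.sqrt (((A + B : ℕ) : ℝ) / (((A + B : ℕ) : ℝ) - 2 * k)) := by
  by_cases hA : k ≤ A
  swap
  · rw [Nat.choose_eq_zero_of_lt (by omega : A < k)]
    simp
    positivity
  by_cases hB : k ≤ B
  swap
  · rw [Nat.choose_eq_zero_of_lt (by omega : B < k)]
    simp
    positivity
  set M := A + B with hM
  set r : ℝ := Real.sqrt ((M : ℝ) / ((M : ℝ) - 2 * k)) with hr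
  have hMk : (0 : ℝ) < (M : ℝ) - 2 * k := by
    have : ((2 * k : ℕ) : ℝ) < M := by exact_mod_cast h
    push_cast at this
    linarith
  have hU : ∏ i ∈ range k, ((M : ℝ) - 2 * i) ^ 2 ≤ (M.descFactorial (2 * k) : ℝ) * r := by
    have h1 := prod_sq_le M k (by omega)
    have h0 : 0 ≤ ∏ i ∈ range k, ((M : ℝ) - 2 * i) ^ 2 := prod_nonneg fun i _ => sq_nonneg _
    apply abs_le_of_sq_le_sq' _ (by positivity) |>.2
    rw [mul_pow, hr, Real.sq_sqrt (by positivity), ← mul_div_assoc, le_div_iff₀ hMk]
    exact h1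
  have h2 := desc_le A B k hA hB
  rw [Nat.descFactorial_eq_factorial_mul_choose, Nat.descFactorial_eq_factorial_mul_choose] at h2
  rw [Nat.descFactorial_eq_factorial_mul_choose] at hU
  have h3 : ((2 * k).factorial : ℝ) = ((2 * k).choose k : ℝ) * ((k.factorial : ℝ) * k.factorial) := by
    have := Nat.choose_mul_factorial_mul_factorial (show k ≤ 2 * k by omega)
    rw [show 2 * k - k = k by omega] at this
    rw [← this]
    push_cast
    ring
  have hfac : (0 : ℝ) < (k.factorial : ℝ) * k.factorial := by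
    have : (0 : ℝ) < k.factorial := by exact_mod_cast k.factorial_pos
    positivity
  have h4 : ((k.factorial : ℝ) * k.factorial) *
      (((A.choose k : ℝ) * (B.choose k : ℝ)) * (M : ℝ) ^ (2 * k)) ≤
      ((k.factorial : ℝ) * k.factorial) * (((A : ℝ) * B) ^ k * ((M.choose (2 * k) : ℝ) *
        ((2 * k).choose k : ℝ)) * r) := by
    calc _ = (((k.factorial * A.choose k : ℕ) : ℝ) * ((k.factorial * B.choose k : ℕ) : ℝ)) *
          (M : ℝ) ^ (2 * k) := by push_cast; ring
      _ ≤ ((A : ℝ) * B) ^ k * ∏ i ∈ range k, ((M : ℝ) - 2 * i) ^ 2 := h2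
      _ ≤ ((A : ℝ) * B) ^ k * ((((2 * k).factorial * M.choose (2 * k) : ℕ) : ℝ) * r) :=
          mul_le_mul_of_nonneg_left hU (by positivity)
      _ = _ := by
          push_cast
          rw [h3]
          ring
  exact le_of_mul_le_mul_left h4 hfac

end binom

variable {n N k : ℕ}

/-- indices on the positive side -/
noncomputable def PA (p : Fin N → ℝ × ℝ) (a b : Fin N) : Finset (Fin N) := by
  classical exact univ.filter (fun c => 0 < side (p a) (p b) (p c))

/-- indices on the negative side -/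
noncomputable def PB (p : Fin N → ℝ × ℝ) (a b : Fin N) : Finset (Fin N) := by
  classical exact univ.filter (fun c => side (p a) (p b) (p c) < 0)

theorem mem_PA {p : Fin N → ℝ × ℝ} {a b c : Fin N} :
    c ∈ PA p a b ↔ 0 < side (p a) (p b) (p c) := by
  unfold PA; simp

theorem mem_PB {p : Fin N → ℝ × ℝ} {a b c : Fin N} :
    c ∈ PB p a b ↔ side (p a) (p b) (p c) < 0 := by
  unfold PB; simp

theorem side_swap (p q r : ℝ × ℝ) : side q p r = - side p q r := by unfold side; ring

theorem PA_swap (p : Fin N → ℝ × ℝ) (a b : Fin N) : PA p b a = PB p a b := by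
  ext c
  rw [mem_PA, mem_PB, side_swap]
  exact neg_pos

theorem PB_swap (p : Fin N → ℝ × ℝ) (a b : Fin N) : PB p b a = PA p a b := by
  ext c
  rw [mem_PA, mem_PB, side_swap]
  exact neg_neg_iff_pos

theorem card_PA_PB {p : Fin N → ℝ × ℝ} (hp : General p) {a b : Fin N} (hab : a ≠ b) :
    (PA p a b).card + (PB p a b).card + 2 = N := by
  have h := count_side hp hab
  have e1 : pos p a b = (PA p a b : Set (Fin N)) := by
    ext c; rw [mem_coe, mem_PA]; rfl
  have e2 : neg p a b = (PB p a b : Set (Fin N)) := by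
    ext c; rw [mem_coe, mem_PB]; rfl
  rw [e1, e2, Set.ncard_coe_finset, Set.ncard_coe_finset] at h
  exact h

/-- index pairs that are halving pairs for a (not necessarily injective) map `σ` -/
def Cond (p : Fin N → ℝ × ℝ) (k : ℕ) (i i' : Fin n) (σ : Fin n → Fin N) : Prop :=
  σ i ≠ σ i' ∧ (∀ l, l ≠ i → l ≠ i' → σ l ≠ σ i ∧ σ l ≠ σ i') ∧
    {l | 0 < side (p (σ i)) (p (σ i')) (p (σ l))}.ncard = k ∧
    {l | side (p (σ i)) (p (σ i')) (p (σ l)) < 0}.ncard = k

open Classical in
/-- number of the maps with a given halving pair -/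
theorem count_maps {p : Fin N → ℝ × ℝ} (hp : General p) (hn : n = 2 * k + 2) {i i' : Fin n}
    (hii : i ≠ i') :
    (2 * k).choose k * ∑ x ∈ (univ : Finset (Fin N)).offDiag,
      ((PA p x.1 x.2).card * (PB p x.1 x.2).card) ^ k ≤
      ((univ : Finset (Fin n → Fin N)).filter (Cond p k i i')).card := by
  set R : Finset (Fin n) := (univ.erase i).erase i' with hR
  have hRc : R.card = 2 * k := by
    rw [hR, card_erase_of_mem (mem_erase.2 ⟨hii.symm, mem_univ _⟩), card_erase_of_mem (mem_univ _),
      card_univ, Fintype.card_fin]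
    omega
  have hRm : ∀ l, l ∈ R ↔ l ≠ i ∧ l ≠ i' := by
    intro l
    rw [hR, mem_erase, mem_erase]
    simp only [mem_univ, and_true]
    tauto
  set I := (univ : Finset (Fin N)).offDiag ×ˢ R.powersetCard k with hI
  let t : (Fin N × Fin N) × Finset (Fin n) → Fin n → Finset (Fin N) := fun x l =>
    if l = i then {x.1.1} else if l = i' then {x.1.2} else
      if l ∈ x.2 then PA p x.1.1 x.1.2 else PB p x.1.1 x.1.2
  have ti : ∀ x, t x i = {x.1.1} := fun x => if_pos rfl
  have ti' : ∀ x, t x i' = {x.1.2} := fun x => by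
    show (if i' = i then _ else _) = _
    rw [if_neg hii.symm, if_pos rfl]
  have tT : ∀ x l, l ≠ i → l ≠ i' → l ∈ x.2 → t x l = PA p x.1.1 x.1.2 := fun x l h1 h2 h3 => by
    show (if l = i then _ else _) = _
    rw [if_neg h1, if_neg h2, if_pos h3]
  have tR : ∀ x l, l ≠ i → l ≠ i' → l ∉ x.2 → t x l = PB p x.1.1 x.1.2 := fun x l h1 h2 h3 => by
    show (if l = i then _ else _) = _
    rw [if_neg h1, if_neg h2, if_neg h3]
  have hdis : ∀ a b c, c ∈ PA p a b → c ∈ PB p a b → False := by
    intro a b c h1 h2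
    rw [mem_PA] at h1
    rw [mem_PB] at h2
    exact lt_asymm h1 h2
  have hcard : ∀ x ∈ I, (Fintype.piFinset (t x)).card =
      ((PA p x.1.1 x.1.2).card * (PB p x.1.1 x.1.2).card) ^ k := by
    rintro ⟨⟨a, b⟩, T⟩ hx
    rw [hI, mem_product, mem_powersetCard] at hx
    obtain ⟨-, hT, hTc⟩ := hx
    rw [Fintype.card_piFinset]
    have e : ∀ l, (t ((a, b), T) l).card =
        (if l ∈ T then (PA p a b).card else 1) * (if l ∈ R \ T then (PB p a b).card else 1) := by
      intro l
      by_cases h1 : l = i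
      · subst h1
        rw [ti, card_singleton, if_neg (fun h => ((hRm _).1 (hT h)).1 rfl),
          if_neg (fun h => ((hRm _).1 (Finset.mem_sdiff.1 h).1).1 rfl)]
      by_cases h2 : l = i'
      · subst h2
        rw [ti', card_singleton, if_neg (fun h => ((hRm _).1 (hT h)).2 rfl),
          if_neg (fun h => ((hRm _).1 (Finset.mem_sdiff.1 h).1).2 rfl)]
      by_cases h3 : l ∈ T
      · rw [tT _ _ h1 h2 h3, if_pos h3, if_neg (fun h => (Finset.mem_sdiff.1 h).2 h3), mul_one]
      · rw [tR _ _ h1 h2 h3, if_neg h3, if_pos (Finset.mem_sdiff.2 ⟨(hRm l).2 ⟨h1, h2⟩, h3⟩), one_mul]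
    simp only [e]
    rw [prod_mul_distrib, prod_ite_mem, prod_ite_mem, univ_inter, univ_inter, prod_const,
      prod_const, hTc, card_sdiff_of_subset hT, hTc, hRc, show 2 * k - k = k by omega, mul_pow]
  have hIcount : ∑ x ∈ I, (Fintype.piFinset (t x)).card = (2 * k).choose k *
      ∑ x ∈ (univ : Finset (Fin N)).offDiag,
        ((PA p x.1 x.2).card * (PB p x.1 x.2).card) ^ k := by
    rw [sum_congr rfl hcard, hI, sum_product]
    simp only [sum_const, smul_eq_mul, card_powersetCard, hRc]
    rw [mul_sum]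
  rw [← hIcount, ← card_biUnion]
  · apply card_le_card
    intro σ hσ
    rw [mem_biUnion] at hσ
    obtain ⟨⟨⟨a, b⟩, T⟩, hx, hσ⟩ := hσ
    rw [hI, mem_product, mem_powersetCard, mem_offDiag] at hx
    obtain ⟨⟨-, -, hab⟩, hT, hTc⟩ := hx
    simp only at hab
    rw [Fintype.mem_piFinset] at hσ
    have e1 : σ i = a := by
      have := hσ i
      rw [ti, mem_singleton] at this
      exact this
    have e2 : σ i' = b := by
      have := hσ i'
      rw [ti', mem_singleton] at this
      exact this
    have e3 : ∀ l ∈ T, σ l ∈ PA p a b := by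
      intro l hl
      have h1 := (hRm l).1 (hT hl)
      have := hσ l
      rw [tT _ _ h1.1 h1.2 hl] at this
      exact this
    have e4 : ∀ l, l ≠ i → l ≠ i' → l ∉ T → σ l ∈ PB p a b := by
      intro l h1 h2 hl
      have := hσ l
      rw [tR _ _ h1 h2 hl] at this
      exact this
    rw [mem_filter]
    refine ⟨mem_univ _, ?_, ?_, ?_, ?_⟩
    · rw [e1, e2]; exact hab
    · intro l h1 h2
      rw [e1, e2]
      by_cases hl : l ∈ T
      · have h3 := mem_PA.1 (e3 l hl)
        constructor
        · intro h; rw [h, side_self_left] at h3; exact lt_irrefl _ h3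
        · intro h; rw [h, side_self_right] at h3; exact lt_irrefl _ h3
      · have h3 := mem_PB.1 (e4 l h1 h2 hl)
        constructor
        · intro h; rw [h, side_self_left] at h3; exact lt_irrefl _ h3
        · intro h; rw [h, side_self_right] at h3; exact lt_irrefl _ h3
    · have : {l | 0 < side (p (σ i)) (p (σ i')) (p (σ l))} = (T : Set (Fin n)) := by
        ext l
        rw [Set.mem_ofPred_eq, mem_coe, e1, e2]
        constructor
        · intro h
          by_contra hl
          by_cases h1 : l = i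
          · rw [h1, e1, side_self_left] at h; exact lt_irrefl _ h
          by_cases h2 : l = i'
          · rw [h2, e2, side_self_right] at h; exact lt_irrefl _ h
          exact lt_asymm h (mem_PB.1 (e4 l h1 h2 hl))
        · intro hl
          exact mem_PA.1 (e3 l hl)
      rw [this, Set.ncard_coe_finset, hTc]
    · have : {l | side (p (σ i)) (p (σ i')) (p (σ l)) < 0} = ((R \ T : Finset _) : Set (Fin n)) := by
        ext l
        rw [Set.mem_ofPred_eq, mem_coe, e1, e2, Finset.mem_sdiff, hRm]
        constructor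
        · intro h
          refine ⟨⟨?_, ?_⟩, ?_⟩
          · rintro rfl
            rw [e1, side_self_left] at h; exact lt_irrefl _ h
          · rintro rfl
            rw [e2, side_self_right] at h; exact lt_irrefl _ h
          · intro hl
            exact lt_asymm h (mem_PA.1 (e3 l hl))
        · rintro ⟨⟨h1, h2⟩, hl⟩
          exact mem_PB.1 (e4 l h1 h2 hl)
      rw [this, Set.ncard_coe_finset, card_sdiff_of_subset hT, hTc, hRc]
      omega
  · rintro ⟨⟨a, b⟩, T⟩ hx ⟨⟨a', b'⟩, T'⟩ hx' hne
    rw [Function.onFun, Finset.disjoint_left]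
    intro σ h1 h2
    apply hne
    rw [mem_coe, hI, mem_product, mem_powersetCard] at hx hx'
    rw [Fintype.mem_piFinset] at h1 h2
    have ea : a = a' := by
      have u := h1 i
      have v := h2 i
      rw [ti, mem_singleton] at u v
      exact u.symm.trans v
    have eb : b = b' := by
      have u := h1 i'
      have v := h2 i'
      rw [ti', mem_singleton] at u v
      exact u.symm.trans v
    subst ea
    subst eb
    have eT : T = T' := by
      ext l
      constructor
      · intro hl
        by_contra hl'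
        have h3 := (hRm l).1 (hx.2.1 hl)
        have u := h1 l
        have v := h2 l
        rw [tT _ _ h3.1 h3.2 hl] at u
        rw [tR _ _ h3.1 h3.2 hl'] at v
        exact hdis _ _ _ u v
      · intro hl'
        by_contra hl
        have h3 := (hRm l).1 (hx'.2.1 hl')
        have u := h1 l
        have v := h2 l
        rw [tR _ _ h3.1 h3.2 hl] at u
        rw [tT _ _ h3.1 h3.2 hl'] at v
        exact hdis _ _ _ v u
    rw [eT]

end Pool.Agent.L0h67.HL
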