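import Pool.Agent.L0h67.HL.Del2

/-! Lines with `k` points on one side and `k'` on the other side for the subsets with `k + k' + 2`
elements of a set of more points: counting maps. -/

set_option autoImplicit false

namespace Pool.Agent.L0h67.HL

open Finset MeasureTheory Filter Pool.Agent.R117.KR Pool.Agent.H189R2.Lev Pool.Agent.H189R2.Iid
open scoped ENNReal Topology

variable {n N k k' : ℕ}

/-- index pairs with `k` points on one side and `k'` on the other side for a (not necessarily
injective) map `σ` -/
def CondG (p : Fin N → ℝ × ℝ) (k k' : ℕ) (i i' : Fin n) (σ : Fin n → Fin N) : Prop :=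
  σ i ≠ σ i' ∧ (∀ l, l ≠ i → l ≠ i' → σ l ≠ σ i ∧ σ l ≠ σ i') ∧
    {l | 0 < side (p (σ i)) (p (σ i')) (p (σ l))}.ncard = k ∧
    {l | side (p (σ i)) (p (σ i')) (p (σ l)) < 0}.ncard = k'

open Classical in
/-- number of the maps with a given pair -/
theorem count_mapsG {p : Fin N → ℝ × ℝ} (hn : n = k + k' + 2) {i i' : Fin n}
    (hii : i ≠ i') :
    (k + k').choose k * ∑ x ∈ (univ : Finset (Fin N)).offDiag,
      (PA p x.1 x.2).card ^ k * (PB p x.1 x.2).card ^ k' ≤
      ((univ : Finset (Fin n → Fin N)).filter (CondG p k k' i i')).card := by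
  set R : Finset (Fin n) := (univ.erase i).erase i' with hR
  have hRc : R.card = k + k' := by
    rw [hR, card_erase_of_mem (mem_erase.2 ⟨hii.symm, mem_univ _⟩), card_erase_of_mem (mem_univ _),
      card_univ, Fintype.card_fin]
    omega
  have hRm : ∀ l, l ∈ R ↔ l ≠ i ∧ l ≠ i' := by
    intro l
    rw [hR, mem_erase, mem_erase]
    simp only [mem_univ, and_true]
    tauto
  set I := (univ : Finset (Fin N)).offDiag ×ˢ R.powersetCard k with hI
  let t : (Fin N × Fin N) × Finset (Fin n) → Fin n → Finset (Fin N) := fun x l =>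
    if l = i then {x.1.1} else if l = i' then {x.1.2} else
      if l ∈ x.2 then PA p x.1.1 x.1.2 else PB p x.1.1 x.1.2
  have ti : ∀ x, t x i = {x.1.1} := fun x => if_pos rfl
  have ti' : ∀ x, t x i' = {x.1.2} := fun x => by
    show (if i' = i then _ else _) = _
    rw [if_neg hii.symm, if_pos rfl]
  have tT : ∀ x l, l ≠ i → l ≠ i' → l ∈ x.2 → t x l = PA p x.1.1 x.1.2 := fun x l h1 h2 h3 => by
    show (if l = i then _ else _) = _
    rw [if_neg h1, if_neg h2, if_pos h3]
  have tR : ∀ x l, l ≠ i → l ≠ i' → l ∉ x.2 → t x l = PB p x.1.1 x.1.2 := fun x l h1 h2 h3 => by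
    show (if l = i then _ else _) = _
    rw [if_neg h1, if_neg h2, if_neg h3]
  have hdis : ∀ a b c, c ∈ PA p a b → c ∈ PB p a b → False := by
    intro a b c h1 h2
    rw [mem_PA] at h1
    rw [mem_PB] at h2
    exact lt_asymm h1 h2
  have hcard : ∀ x ∈ I, (Fintype.piFinset (t x)).card =
      (PA p x.1.1 x.1.2).card ^ k * (PB p x.1.1 x.1.2).card ^ k' := by
    rintro ⟨⟨a, b⟩, T⟩ hx
    rw [hI, mem_product, mem_powersetCard] at hx
    obtain ⟨-, hT, hTc⟩ := hx
    rw [Fintype.card_piFinset]
    have e : ∀ l, (t ((a, b), T) l).card =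
        (if l ∈ T then (PA p a b).card else 1) * (if l ∈ R \ T then (PB p a b).card else 1) := by
      intro l
      by_cases h1 : l = i
      · subst h1
        rw [ti, card_singleton, if_neg (fun h => ((hRm _).1 (hT h)).1 rfl),
          if_neg (fun h => ((hRm _).1 (Finset.mem_sdiff.1 h).1).1 rfl)]
      by_cases h2 : l = i'
      · subst h2
        rw [ti', card_singleton, if_neg (fun h => ((hRm _).1 (hT h)).2 rfl),
          if_neg (fun h => ((hRm _).1 (Finset.mem_sdiff.1 h).1).2 rfl)]
      by_cases h3 : l ∈ T
      · rw [tT _ _ h1 h2 h3, if_pos h3, if_neg (fun h => (Finset.mem_sdiff.1 h).2 h3), mul_one]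
      · rw [tR _ _ h1 h2 h3, if_neg h3, if_pos (Finset.mem_sdiff.2 ⟨(hRm l).2 ⟨h1, h2⟩, h3⟩), one_mul]
    simp only [e]
    rw [prod_mul_distrib, prod_ite_mem, prod_ite_mem, univ_inter, univ_inter, prod_const,
      prod_const, hTc, card_sdiff_of_subset hT, hTc, hRc, show k + k' - k = k' by omega]
  have hIcount : ∑ x ∈ I, (Fintype.piFinset (t x)).card = (k + k').choose k *
      ∑ x ∈ (univ : Finset (Fin N)).offDiag,
        (PA p x.1 x.2).card ^ k * (PB p x.1 x.2).card ^ k' := by
    rw [sum_congr rfl hcard, hI, sum_product]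
    simp only [sum_const, smul_eq_mul, card_powersetCard, hRc]
    rw [mul_sum]
  rw [← hIcount, ← card_biUnion]
  · apply card_le_card
    intro σ hσ
    rw [mem_biUnion] at hσ
    obtain ⟨⟨⟨a, b⟩, T⟩, hx, hσ⟩ := hσ
    rw [hI, mem_product, mem_powersetCard, mem_offDiag] at hx
    obtain ⟨⟨-, -, hab⟩, hT, hTc⟩ := hx
    simp only at hab
    rw [Fintype.mem_piFinset] at hσ
    have e1 : σ i = a := by
      have := hσ i
      rw [ti, mem_singleton] at this
      exact this
    have e2 : σ i' = b := by
      have := hσ i'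
      rw [ti', mem_singleton] at this
      exact this
    have e3 : ∀ l ∈ T, σ l ∈ PA p a b := by
      intro l hl
      have h1 := (hRm l).1 (hT hl)
      have := hσ l
      rw [tT _ _ h1.1 h1.2 hl] at this
      exact this
    have e4 : ∀ l, l ≠ i → l ≠ i' → l ∉ T → σ l ∈ PB p a b := by
      intro l h1 h2 hl
      have := hσ l
      rw [tR _ _ h1 h2 hl] at this
      exact this
    rw [mem_filter]
    refine ⟨mem_univ _, ?_, ?_, ?_, ?_⟩
    · rw [e1, e2]; exact hab
    · intro l h1 h2
      rw [e1, e2]
      by_cases hl : l ∈ T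
      · have h3 := mem_PA.1 (e3 l hl)
        constructor
        · intro h; rw [h, side_self_left] at h3; exact lt_irrefl _ h3
        · intro h; rw [h, side_self_right] at h3; exact lt_irrefl _ h3
      · have h3 := mem_PB.1 (e4 l h1 h2 hl)
        constructor
        · intro h; rw [h, side_self_left] at h3; exact lt_irrefl _ h3
        · intro h; rw [h, side_self_right] at h3; exact lt_irrefl _ h3
    · have : {l | 0 < side (p (σ i)) (p (σ i')) (p (σ l))} = (T : Set (Fin n)) := by
        ext l
        rw [Set.mem_ofPred_eq, mem_coe, e1, e2]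
        constructor
        · intro h
          by_contra hl
          by_cases h1 : l = i
          · rw [h1, e1, side_self_left] at h; exact lt_irrefl _ h
          by_cases h2 : l = i'
          · rw [h2, e2, side_self_right] at h; exact lt_irrefl _ h
          exact lt_asymm h (mem_PB.1 (e4 l h1 h2 hl))
        · intro hl
          exact mem_PA.1 (e3 l hl)
      rw [this, Set.ncard_coe_finset, hTc]
    · have : {l | side (p (σ i)) (p (σ i')) (p (σ l)) < 0} = ((R \ T : Finset _) : Set (Fin n)) := by
        ext l
        rw [Set.mem_ofPred_eq, mem_coe, e1, e2, Finset.mem_sdiff, hRm]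
        constructor
        · intro h
          refine ⟨⟨?_, ?_⟩, ?_⟩
          · rintro rfl
            rw [e1, side_self_left] at h; exact lt_irrefl _ h
          · rintro rfl
            rw [e2, side_self_right] at h; exact lt_irrefl _ h
          · intro hl
            exact lt_asymm h (mem_PA.1 (e3 l hl))
        · rintro ⟨⟨h1, h2⟩, hl⟩
          exact mem_PB.1 (e4 l h1 h2 hl)
      rw [this, Set.ncard_coe_finset, card_sdiff_of_subset hT, hTc, hRc]
      omega
  · rintro ⟨⟨a, b⟩, T⟩ hx ⟨⟨a', b'⟩, T'⟩ hx' hne
    rw [Function.onFun, Finset.disjoint_left]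
    intro σ h1 h2
    apply hne
    rw [mem_coe, hI, mem_product, mem_powersetCard] at hx hx'
    rw [Fintype.mem_piFinset] at h1 h2
    have ea : a = a' := by
      have u := h1 i
      have v := h2 i
      rw [ti, mem_singleton] at u v
      exact u.symm.trans v
    have eb : b = b' := by
      have u := h1 i'
      have v := h2 i'
      rw [ti', mem_singleton] at u v
      exact u.symm.trans v
    subst ea
    subst eb
    have eT : T = T' := by
      ext l
      constructor
      · intro hl
        by_contra hl'
        have h3 := (hRm l).1 (hx.2.1 hl)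
        have u := h1 l
        have v := h2 l
        rw [tT _ _ h3.1 h3.2 hl] at u
        rw [tR _ _ h3.1 h3.2 hl'] at v
        exact hdis _ _ _ u v
      · intro hl'
        by_contra hl
        have h3 := (hRm l).1 (hx'.2.1 hl')
        have u := h1 l
        have v := h2 l
        rw [tR _ _ h3.1 h3.2 hl] at u
        rw [tT _ _ h3.1 h3.2 hl'] at v
        exact hdis _ _ _ v u
    rw [eT]

end Pool.Agent.L0h67.HL
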