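import Mathlib

/-! Comparison of the hypergeometric and the binomial distribution. -/

set_option autoImplicit false

namespace Pool.Agent.L0h67.HL

open Finset

/-- `n! e^n / n^n` -/
noncomputable def phi (n : ℕ) : ℝ := n.factorial * Real.exp n / (n : ℝ) ^ n

theorem pow_self_pos (n : ℕ) : (0 : ℝ) < (n : ℝ) ^ n := by
  rcases Nat.eq_zero_or_pos n with h | h
  · subst h; simp
  · have : (0 : ℝ) < n := by exact_mod_cast h
    positivity

theorem phi_pos (n : ℕ) : 0 < phi n := by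
  have h1 := pow_self_pos n
  have h2 : (0 : ℝ) < n.factorial := by exact_mod_cast n.factorial_pos
  unfold phi
  positivity

theorem fact_eq (n : ℕ) : (n.factorial : ℝ) = phi n * ((n : ℝ) ^ n * Real.exp (-n)) := by
  have h1 := (pow_self_pos n).ne'
  have h2 : Real.exp n * Real.exp (-n) = 1 := by rw [← Real.exp_add]; simp
  unfold phi
  rw [div_mul_eq_mul_div, eq_div_iff h1]
  linear_combination (-(n.factorial : ℝ) * (n : ℝ) ^ n) * h2

theorem phi_eq {n : ℕ} (hn : 1 ≤ n) : phi n = Stirling.stirlingSeq n * √(2 * n) := by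
  have h0 : (0 : ℝ) < n := by exact_mod_cast hn
  have h1 : (0 : ℝ) < √(2 * (n : ℝ)) := Real.sqrt_pos.mpr (by positivity)
  have h2 : Real.exp n = Real.exp 1 ^ n := by rw [← Real.exp_nat_mul]; simp
  unfold phi Stirling.stirlingSeq
  rw [div_pow, h2]
  field_simp

theorem phi_sq_ge (n : ℕ) : (n : ℝ) + 1 ≤ phi n ^ 2 := by
  rcases Nat.eq_zero_or_pos n with h | h
  · subst h; unfold phi; simp
  · have h0 : (1 : ℝ) ≤ n := by exact_mod_cast h
    rw [phi_eq h, mul_pow, Real.sq_sqrt (by positivity)]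
    have h1 := Stirling.sqrt_pi_le_stirlingSeq (n := n) (by omega)
    have h2 : Real.pi ≤ Stirling.stirlingSeq n ^ 2 := by
      have h3 : √Real.pi ^ 2 = Real.pi := Real.sq_sqrt Real.pi_pos.le
      rw [← h3]
      exact pow_le_pow_left₀ (Real.sqrt_nonneg _) h1 2
    have h3 := Real.pi_gt_three
    nlinarith

theorem phi_sq_le (n : ℕ) : phi n ^ 2 ≤ 8 * ((n : ℝ) + 1) := by
  rcases Nat.eq_zero_or_pos n with h | h
  · subst h; unfold phi; simp
  · have h0 : (1 : ℝ) ≤ n := by exact_mod_cast h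
    rw [phi_eq h, mul_pow, Real.sq_sqrt (by positivity)]
    have h1 : Stirling.stirlingSeq n ≤ Stirling.stirlingSeq 1 := by
      obtain ⟨m, rfl⟩ : ∃ m, n = m + 1 := ⟨n - 1, by omega⟩
      exact Stirling.stirlingSeq'_antitone (Nat.zero_le m)
    have h4 : 0 ≤ Stirling.stirlingSeq n := by
      have := Stirling.sqrt_pi_le_stirlingSeq (n := n) (by omega)
      exact (Real.sqrt_nonneg _).trans this
    have h2 : Stirling.stirlingSeq n ^ 2 ≤ 4 := by
      calc Stirling.stirlingSeq n ^ 2 ≤ Stirling.stirlingSeq 1 ^ 2 :=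
            pow_le_pow_left₀ h4 h1 2
        _ = Real.exp 1 ^ 2 / 2 := by
            rw [Stirling.stirlingSeq_one, div_pow, Real.sq_sqrt (by norm_num)]
        _ ≤ 4 := by
            have h8 := Real.exp_one_lt_d9
            have h10 := Real.exp_pos 1
            nlinarith
    nlinarith

theorem lemK (z : ℕ) {d : ℝ} (hd : 0 ≤ d) :
    ((z : ℝ) + d) ^ (2 * z) * Real.exp (-(2 * d)) * (z + d + 1) ≤
      27 / 8 * ((z : ℝ) ^ (2 * z) * (z + 1)) := by
  rcases Nat.eq_zero_or_pos z with h | h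
  · subst h
    have h1 : d + 1 ≤ Real.exp d := Real.add_one_le_exp d
    have h2 : Real.exp (-(2 * d)) * Real.exp d ≤ 1 := by
      rw [← Real.exp_add]
      exact Real.exp_le_one_iff.mpr (by linarith)
    have h3 := Real.exp_pos (-(2 * d))
    simp only [Nat.cast_zero, mul_zero, pow_zero, one_mul, zero_add, mul_one]
    nlinarith
  · have hz : (0 : ℝ) < z := by exact_mod_cast h
    obtain ⟨r, hr⟩ : ∃ r : ℝ, d = z * r := ⟨d / z, by field_simp⟩
    subst hr
    have hr0 : 0 ≤ r := by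
      by_contra hcon
      push Not at hcon
      nlinarith
    have e1 : ((z : ℝ) + z * r) ^ (2 * z) = (z : ℝ) ^ (2 * z) * (1 + r) ^ (2 * z) := by
      rw [← mul_pow]; congr 1; ring
    have e2 : Real.exp (-(2 * (z * r))) = Real.exp (-(2 * r)) ^ z := by
      rw [← Real.exp_nat_mul]; congr 1; ring
    have hb0 : 0 ≤ (1 + r) ^ 2 * Real.exp (-(2 * r)) := by positivity
    have hb1 : (1 + r) ^ 2 * Real.exp (-(2 * r)) ≤ 1 := by
      have h1 : 1 + r ≤ Real.exp r := by linarith [Real.add_one_le_exp r]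
      calc (1 + r) ^ 2 * Real.exp (-(2 * r)) ≤ Real.exp r ^ 2 * Real.exp (-(2 * r)) := by
            gcongr
        _ = 1 := by
            rw [← Real.exp_nat_mul, ← Real.exp_add]
            simp
    have e3 : (1 + r) ^ (2 * z) * Real.exp (-(2 * r)) ^ z ≤
        (1 + r) ^ 2 * Real.exp (-(2 * r)) := by
      rw [pow_mul, ← mul_pow]
      exact pow_le_of_le_one hb0 hb1 (by omega)
    have e4 : (z : ℝ) + z * r + 1 ≤ (1 + r) * (z + 1) := by nlinarith
    have e5 : (1 + r) ^ 2 * Real.exp (-(2 * r)) * (1 + r) ≤ 27 / 8 := by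
      have h1 : 1 + r ≤ 3 / 2 * Real.exp (2 / 3 * r) := by
        have := Real.add_one_le_exp (2 / 3 * r)
        linarith
      calc (1 + r) ^ 2 * Real.exp (-(2 * r)) * (1 + r) = (1 + r) ^ 3 * Real.exp (-(2 * r)) := by
            ring
        _ ≤ (3 / 2 * Real.exp (2 / 3 * r)) ^ 3 * Real.exp (-(2 * r)) := by
            gcongr
        _ = 27 / 8 * (Real.exp (2 / 3 * r) ^ 3 * Real.exp (-(2 * r))) := by ring
        _ = 27 / 8 := by
            rw [← Real.exp_nat_mul, ← Real.exp_add]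
            have : ((3 : ℕ) : ℝ) * (2 / 3 * r) + -(2 * r) = 0 := by push_cast; ring
            rw [this, Real.exp_zero, mul_one]
    rw [e1, e2]
    calc (z : ℝ) ^ (2 * z) * (1 + r) ^ (2 * z) * Real.exp (-(2 * r)) ^ z * (z + z * r + 1)
        = (z : ℝ) ^ (2 * z) * ((1 + r) ^ (2 * z) * Real.exp (-(2 * r)) ^ z) *
          (z + z * r + 1) := by ring
      _ ≤ (z : ℝ) ^ (2 * z) * ((1 + r) ^ 2 * Real.exp (-(2 * r))) * ((1 + r) * (z + 1)) := by
          gcongr
      _ = ((1 + r) ^ 2 * Real.exp (-(2 * r)) * (1 + r)) * ((z : ℝ) ^ (2 * z) * (z + 1)) := by ring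
      _ ≤ _ := mul_le_mul_of_nonneg_right e5 (by positivity)

theorem lemG {A B y z : ℕ} (hy : y ≤ A) (hz : z ≤ B) (hw : 1 ≤ y + z)
    (h : z * (A + B) ≤ B * (y + z)) :
    ((A : ℝ) ^ y * (B : ℝ) ^ z * ((y : ℝ) + z) ^ (y + z)) ^ 2 *
        ((A + 1) * (B + 1) * ((y : ℝ) + z + 1) ^ 2) ≤
      27 / 2 * (((y : ℝ) ^ y * (z : ℝ) ^ z * ((A : ℝ) + B) ^ (y + z)) ^ 2 *
        ((y + 1) * (z + 1) * ((A : ℝ) + B + 1) ^ 2)) := by
  set M : ℝ := (A : ℝ) + B with hM
  set w : ℝ := (y : ℝ) + z with hwd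
  have hyr : (y : ℝ) ≤ A := by exact_mod_cast hy
  have hzr : (z : ℝ) ≤ B := by exact_mod_cast hz
  have hA0 : (0 : ℝ) ≤ A := by positivity
  have hB0 : (0 : ℝ) ≤ B := by positivity
  have hy0 : (0 : ℝ) ≤ y := by positivity
  have hz0 : (0 : ℝ) ≤ z := by positivity
  have hw1 : 1 ≤ w := by rw [hwd]; exact_mod_cast hw
  have hwM : w ≤ M := by linarith
  have hM0 : 0 < M := by linarith
  have hr : (z : ℝ) * M ≤ B * w := by rw [hM, hwd]; exact_mod_cast h
  set x : ℝ := A * w / M with hx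
  set x' : ℝ := B * w / M with hx'
  have hxM : x * M = A * w := by rw [hx]; field_simp
  have hx'M : x' * M = B * w := by rw [hx']; field_simp
  have hxx : x + x' = w := by
    rw [hx, hx', ← add_div, ← add_mul, ← hM]
    field_simp
  obtain ⟨d, hd⟩ : ∃ d : ℝ, x' = z + d := ⟨x' - z, by ring⟩
  have hd0 : 0 ≤ d := by
    have : z * M ≤ x' * M := by rw [hx'M]; exact hr
    have := le_of_mul_le_mul_right this hM0
    linarith
  have hxd : x = y - d := by linarith
  have hx0 : 0 ≤ x := by rw [hx]; positivity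
  have e1 : (A : ℝ) ^ y * (B : ℝ) ^ z * w ^ (y + z) = M ^ (y + z) * (x ^ y * x' ^ z) := by
    calc (A : ℝ) ^ y * (B : ℝ) ^ z * w ^ (y + z) = (A * w) ^ y * (B * w) ^ z := by
          rw [mul_pow, mul_pow, pow_add]; ring
      _ = (x * M) ^ y * (x' * M) ^ z := by rw [hxM, hx'M]
      _ = _ := by rw [mul_pow, mul_pow, pow_add]; ring
  have e2 : x ^ y ≤ (y : ℝ) ^ y * Real.exp (-d) := by
    rcases Nat.eq_zero_or_pos y with h0 | h0
    · subst h0
      have : d = 0 := by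
        have : (((0 : ℕ) : ℝ)) = 0 := by norm_num
        linarith
      rw [this]
      simp
    · have hyp : (0 : ℝ) < y := by exact_mod_cast h0
      have h1 : x ≤ y * Real.exp (-(d / y)) := by
        have h2 := Real.add_one_le_exp (-(d / y))
        have h3 : (y : ℝ) * (-(d / y) + 1) = x := by
          rw [hxd]; field_simp; ring
        rw [← h3]
        exact mul_le_mul_of_nonneg_left h2 hyp.le
      calc x ^ y ≤ (y * Real.exp (-(d / y))) ^ y := pow_le_pow_left₀ hx0 h1 _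
        _ = (y : ℝ) ^ y * Real.exp (-d) := by
          rw [mul_pow, ← Real.exp_nat_mul]
          congr 2
          field_simp
  have e3 : (A + 1 : ℝ) * (w + 1) ≤ 2 * (y + 1) * (M + 1) := by
    have h1 : (A + 1 : ℝ) * (w + 1) ≤ 2 * (x + 1) * (M + 1) := by nlinarith
    have h2 : 2 * (x + 1) * (M + 1) ≤ 2 * (y + 1) * (M + 1) := by
      apply mul_le_mul_of_nonneg_right _ (by linarith)
      linarith
    linarith
  have e4 : (B + 1 : ℝ) * (w + 1) ≤ 2 * (z + d + 1) * (M + 1) := by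
    have h1 : (B + 1 : ℝ) * (w + 1) ≤ 2 * (x' + 1) * (M + 1) := by
      have : 0 ≤ x' := by linarith
      nlinarith
    rw [hd] at h1
    linarith
  have e5 := lemK z hd0
  have hexp : Real.exp (-d) ^ 2 = Real.exp (-(2 * d)) := by
    rw [← Real.exp_nat_mul]; congr 1; push_cast; ring
  rw [e1]
  calc (M ^ (y + z) * (x ^ y * x' ^ z)) ^ 2 * ((A + 1) * (B + 1) * (w + 1) ^ 2)
      = (M ^ (y + z) * (x ^ y * x' ^ z)) ^ 2 * (((A + 1) * (w + 1)) * ((B + 1) * (w + 1))) := by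
        ring
    _ ≤ (M ^ (y + z) * (((y : ℝ) ^ y * Real.exp (-d)) * x' ^ z)) ^ 2 *
        ((2 * (y + 1) * (M + 1)) * (2 * (z + d + 1) * (M + 1))) := by
        have : 0 ≤ x' := by linarith
        have hz1 : 0 ≤ (z : ℝ) + d + 1 := by linarith
        gcongr
    _ = (M ^ (y + z) * (y : ℝ) ^ y) ^ 2 * (4 * (y + 1) * (M + 1) ^ 2) *
        ((x' ^ z) ^ 2 * Real.exp (-d) ^ 2 * (z + d + 1)) := by ring
    _ = (M ^ (y + z) * (y : ℝ) ^ y) ^ 2 * (4 * (y + 1) * (M + 1) ^ 2) *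
        (((z : ℝ) + d) ^ (2 * z) * Real.exp (-(2 * d)) * (z + d + 1)) := by
        rw [hexp, hd, ← pow_mul, mul_comm z 2]
    _ ≤ (M ^ (y + z) * (y : ℝ) ^ y) ^ 2 * (4 * (y + 1) * (M + 1) ^ 2) *
        (27 / 8 * ((z : ℝ) ^ (2 * z) * (z + 1))) :=
        mul_le_mul_of_nonneg_left e5 (by positivity)
    _ = _ := by
        have : (z : ℝ) ^ (2 * z) = ((z : ℝ) ^ z) ^ 2 := by rw [← pow_mul, mul_comm z 2]
        rw [this]
        ring

theorem lemF_aux {A B y z : ℕ} (hy : y ≤ A) (hz : z ≤ B) (hw : 1 ≤ y + z)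
    (h : z * (A + B) ≤ B * (y + z)) :
    (phi A * phi B * phi (y + z) * ((A : ℝ) ^ y * (B : ℝ) ^ z * ((y : ℝ) + z) ^ (y + z))) ^ 2 *
        ((y : ℝ) + z + 1) ≤
      6912 * ((A : ℝ) + B + 1) *
      (phi y * phi z * phi (A + B) *
        ((y : ℝ) ^ y * (z : ℝ) ^ z * ((A : ℝ) + B) ^ (y + z))) ^ 2 := by
  have g := lemG hy hz hw h
  set P : ℝ := (A : ℝ) ^ y * (B : ℝ) ^ z * ((y : ℝ) + z) ^ (y + z) with hP
  set Q : ℝ := (y : ℝ) ^ y * (z : ℝ) ^ z * ((A : ℝ) + B) ^ (y + z) with hQ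
  have a1 := phi_sq_le A
  have a2 := phi_sq_le B
  have a3 := phi_sq_le (y + z)
  have b1 := phi_sq_ge y
  have b2 := phi_sq_ge z
  have b3 := phi_sq_ge (A + B)
  push_cast at a3 b3
  calc (phi A * phi B * phi (y + z) * P) ^ 2 * ((y : ℝ) + z + 1)
      = (phi A ^ 2 * phi B ^ 2 * phi (y + z) ^ 2) * (P ^ 2 * ((y : ℝ) + z + 1)) := by ring
    _ ≤ ((8 * ((A : ℝ) + 1)) * (8 * ((B : ℝ) + 1)) * (8 * ((y : ℝ) + z + 1))) *
        (P ^ 2 * ((y : ℝ) + z + 1)) := by gcongr
    _ = 512 * (P ^ 2 * ((A + 1) * (B + 1) * ((y : ℝ) + z + 1) ^ 2)) := by ring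
    _ ≤ 512 * (27 / 2 * (Q ^ 2 * ((y + 1) * (z + 1) * ((A : ℝ) + B + 1) ^ 2))) :=
        mul_le_mul_of_nonneg_left g (by norm_num)
    _ = (6912 * ((A : ℝ) + B + 1) * Q ^ 2) * ((y + 1) * (z + 1) * ((A : ℝ) + B + 1)) := by ring
    _ ≤ (6912 * ((A : ℝ) + B + 1) * Q ^ 2) * (phi y ^ 2 * phi z ^ 2 * phi (A + B) ^ 2) := by
        gcongr
    _ = _ := by ring

theorem lemF {A B y z : ℕ} (hy : y ≤ A) (hz : z ≤ B) (hw : 1 ≤ y + z) :
    phi A * phi B * phi (y + z) * ((A : ℝ) ^ y * (B : ℝ) ^ z * ((y : ℝ) + z) ^ (y + z)) ≤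
      84 * √(((A : ℝ) + B) / ((y : ℝ) + z)) *
      (phi y * phi z * phi (A + B) *
        ((y : ℝ) ^ y * (z : ℝ) ^ z * ((A : ℝ) + B) ^ (y + z))) := by
  have key : (phi A * phi B * phi (y + z) *
      ((A : ℝ) ^ y * (B : ℝ) ^ z * ((y : ℝ) + z) ^ (y + z))) ^ 2 * ((y : ℝ) + z + 1) ≤
      6912 * ((A : ℝ) + B + 1) *
      (phi y * phi z * phi (A + B) *
        ((y : ℝ) ^ y * (z : ℝ) ^ z * ((A : ℝ) + B) ^ (y + z))) ^ 2 := by
    by_cases h : z * (A + B) ≤ B * (y + z)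
    · exact lemF_aux hy hz hw h
    · have h' : y * (B + A) ≤ A * (z + y) := by
        push Not at h
        nlinarith
      have h1 := lemF_aux hz hy (by omega) h'
      have e1 : z + y = y + z := add_comm _ _
      have e2 : B + A = A + B := add_comm _ _
      rw [e1, e2, add_comm (z : ℝ) y, add_comm (B : ℝ) A] at h1
      calc _ = (phi B * phi A * phi (y + z) *
            ((B : ℝ) ^ z * (A : ℝ) ^ y * ((y : ℝ) + z) ^ (y + z))) ^ 2 * ((y : ℝ) + z + 1) := by
              ring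
        _ ≤ _ := h1
        _ = _ := by ring
  set F : ℝ := phi A * phi B * phi (y + z) *
      ((A : ℝ) ^ y * (B : ℝ) ^ z * ((y : ℝ) + z) ^ (y + z)) with hF
  set H : ℝ := phi y * phi z * phi (A + B) *
        ((y : ℝ) ^ y * (z : ℝ) ^ z * ((A : ℝ) + B) ^ (y + z)) with hH
  have hH0 : 0 ≤ H := by
    have p1 := phi_pos y
    have p2 := phi_pos z
    have p3 := phi_pos (A + B)
    rw [hH]; positivity
  have hw1 : (1 : ℝ) ≤ (y : ℝ) + z := by exact_mod_cast hw
  have hwM : (y : ℝ) + z ≤ (A : ℝ) + B := by exact_mod_cast add_le_add hy hz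
  have hr0 : 0 ≤ √(((A : ℝ) + B) / ((y : ℝ) + z)) := Real.sqrt_nonneg _
  have hF0 : 0 ≤ F := by
    have p1 := phi_pos A
    have p2 := phi_pos B
    have p3 := phi_pos (y + z)
    rw [hF]; positivity
  apply (pow_le_pow_iff_left₀ hF0 (by positivity) two_ne_zero).1
  have e0 : (84 * √(((A : ℝ) + B) / ((y : ℝ) + z)) * H) ^ 2 =
      84 ^ 2 * (((A : ℝ) + B) / ((y : ℝ) + z)) * H ^ 2 := by
    rw [mul_pow, mul_pow, Real.sq_sqrt (by positivity)]
  rw [e0]
  have h2 : ((A : ℝ) + B + 1) ≤ ((A : ℝ) + B) / ((y : ℝ) + z) * ((y : ℝ) + z + 1) := by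
    rw [div_mul_eq_mul_div, le_div_iff₀ (by linarith)]
    nlinarith
  have h3 : F ^ 2 * ((y : ℝ) + z + 1) ≤
      (84 ^ 2 * (((A : ℝ) + B) / ((y : ℝ) + z)) * H ^ 2) * ((y : ℝ) + z + 1) := by
    calc _ ≤ _ := key
      _ ≤ 7056 * (((A : ℝ) + B) / ((y : ℝ) + z) * ((y : ℝ) + z + 1)) * H ^ 2 := by
          have : 6912 * ((A : ℝ) + B + 1) ≤
            7056 * (((A : ℝ) + B) / ((y : ℝ) + z) * ((y : ℝ) + z + 1)) := by
            have : 0 ≤ (A : ℝ) + B + 1 := by positivity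
            nlinarith
          exact mul_le_mul_of_nonneg_right this (by positivity)
      _ = _ := by ring
  exact le_of_mul_le_mul_right h3 (by positivity)

theorem desc_eq {A k : ℕ} (hk : k ≤ A) :
    (A.descFactorial k : ℝ) * (phi (A - k) * ((A - k : ℕ) : ℝ) ^ (A - k)) =
      phi A * ((A : ℝ) ^ k * (A : ℝ) ^ (A - k)) * Real.exp (-k) := by
  have h1 : ((A - k).factorial : ℝ) * (A.descFactorial k : ℝ) = A.factorial := by
    exact_mod_cast Nat.factorial_mul_descFactorial hk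
  rw [fact_eq (A - k), fact_eq A] at h1
  have h2 : (A : ℝ) ^ A = (A : ℝ) ^ k * (A : ℝ) ^ (A - k) := by
    rw [← pow_add]; congr 1; omega
  have h3 : Real.exp (-((A - k : ℕ) : ℝ)) = Real.exp (-A) * Real.exp k := by
    rw [← Real.exp_add]
    congr 1
    push_cast [Nat.cast_sub hk]
    ring
  have h4 : Real.exp (-(k : ℝ)) * Real.exp k = 1 := by rw [← Real.exp_add]; simp
  rw [h2, h3] at h1
  have h5 : (Real.exp (-(A : ℝ)) * Real.exp k) ≠ 0 := by positivity
  apply mul_right_cancel₀ h5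
  calc _ = phi (A - k) * (((A - k : ℕ) : ℝ) ^ (A - k) * (Real.exp (-(A : ℝ)) * Real.exp k)) *
        (A.descFactorial k : ℝ) := by ring
    _ = phi A * ((A : ℝ) ^ k * (A : ℝ) ^ (A - k) * Real.exp (-A)) := h1
    _ = phi A * ((A : ℝ) ^ k * (A : ℝ) ^ (A - k) * Real.exp (-A)) *
        (Real.exp (-(k : ℝ)) * Real.exp k) := by rw [h4, mul_one]
    _ = _ := by ring

/-- `(A)_k (B)_k' / (M)_m ≤ 84 √(M / (M - m)) A^k B^k' / M^m` for `M = A + B`, `m = k + k'` -/
theorem descH {A B k k' : ℕ} (h : k + k' < A + B) :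
    ((A.descFactorial k : ℝ) * (B.descFactorial k' : ℝ)) * ((A : ℝ) + B) ^ (k + k') ≤
      84 * √(((A : ℝ) + B) / ((A : ℝ) + B - (k + k'))) *
        (((A : ℝ) ^ k * (B : ℝ) ^ k') * ((A + B).descFactorial (k + k') : ℝ)) := by
  by_cases hk : k ≤ A
  swap
  · rw [Nat.descFactorial_of_lt (by omega : A < k)]
    simp only [Nat.cast_zero, zero_mul]
    positivity
  by_cases hk' : k' ≤ B
  swap
  · rw [Nat.descFactorial_of_lt (by omega : B < k')]
    simp only [Nat.cast_zero, mul_zero, zero_mul]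
    positivity
  have e1 := desc_eq hk
  have e2 := desc_eq hk'
  have e3 := desc_eq h.le
  have hF := lemF (A := A) (B := B) (y := A - k) (z := B - k') (by omega) (by omega) (by omega)
  have hyz : A + B - (k + k') = (A - k) + (B - k') := by omega
  rw [hyz] at e3
  have hyzr : (((A - k : ℕ) : ℝ) + ((B - k' : ℕ) : ℝ)) = (A : ℝ) + B - (k + k') := by
    push_cast [Nat.cast_sub hk, Nat.cast_sub hk']
    ring
  push_cast at e3
  rw [← hyzr]
  set y := A - k with hy
  set z := B - k' with hz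
  set K : ℝ := 84 * √(((A : ℝ) + B) / ((y : ℝ) + z)) with hK
  have hK0 : 0 ≤ K := by positivity
  have p1 := phi_pos y
  have p2 := phi_pos z
  have p3 := phi_pos (y + z)
  have q1 := pow_self_pos y
  have q2 := pow_self_pos z
  have q3 := pow_self_pos (y + z)
  push_cast at q3
  have hexp : Real.exp (-(k : ℝ)) * Real.exp (-(k' : ℝ)) = Real.exp (-((k : ℝ) + k')) := by
    rw [← Real.exp_add]; congr 1; ring
  set D : ℝ := (phi y * (y : ℝ) ^ y) * (phi z * (z : ℝ) ^ z) *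
    (phi (y + z) * ((y : ℝ) + z) ^ (y + z)) with hD
  have hD0 : 0 < D := by rw [hD]; positivity
  apply le_of_mul_le_mul_right _ hD0
  have hC0 : 0 ≤ ((A : ℝ) ^ k * (B : ℝ) ^ k' * ((A : ℝ) + B) ^ (k + k')) *
      Real.exp (-((k : ℝ) + k')) := by positivity
  calc ((A.descFactorial k : ℝ) * (B.descFactorial k' : ℝ)) * ((A : ℝ) + B) ^ (k + k') * D
      = ((A.descFactorial k : ℝ) * (phi y * (y : ℝ) ^ y)) *
        ((B.descFactorial k' : ℝ) * (phi z * (z : ℝ) ^ z)) *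
        (((A : ℝ) + B) ^ (k + k') * (phi (y + z) * ((y : ℝ) + z) ^ (y + z))) := by
        rw [hD]; ring
    _ = (((A : ℝ) ^ k * (B : ℝ) ^ k' * ((A : ℝ) + B) ^ (k + k')) *
        (Real.exp (-(k : ℝ)) * Real.exp (-(k' : ℝ)))) *
        (phi A * phi B * phi (y + z) * ((A : ℝ) ^ y * (B : ℝ) ^ z * ((y : ℝ) + z) ^ (y + z))) := by
        rw [e1, e2]; ring
    _ ≤ (((A : ℝ) ^ k * (B : ℝ) ^ k' * ((A : ℝ) + B) ^ (k + k')) *
        Real.exp (-((k : ℝ) + k'))) * (K * (phi y * phi z * phi (A + B) *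
        ((y : ℝ) ^ y * (z : ℝ) ^ z * ((A : ℝ) + B) ^ (y + z)))) := by
        rw [hexp]
        exact mul_le_mul_of_nonneg_left hF hC0
    _ = K * (((A : ℝ) ^ k * (B : ℝ) ^ k') * (phi (A + B) * (((A : ℝ) + B) ^ (k + k') *
        ((A : ℝ) + B) ^ (y + z)) * Real.exp (-((k : ℝ) + k')))) *
        ((phi y * (y : ℝ) ^ y) * (phi z * (z : ℝ) ^ z)) := by ring
    _ = K * (((A : ℝ) ^ k * (B : ℝ) ^ k') * (((A + B).descFactorial (k + k') : ℝ) *
        (phi (y + z) * ((y : ℝ) + z) ^ (y + z)))) *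
        ((phi y * (y : ℝ) ^ y) * (phi z * (z : ℝ) ^ z)) := by rw [e3]
    _ = _ := by rw [hD]; ring

/-- comparison of the hypergeometric and the binomial distribution -/
theorem chooseH {A B k k' : ℕ} (h : k + k' < A + B) :
    ((A.choose k : ℝ) * (B.choose k' : ℝ)) * ((A : ℝ) + B) ^ (k + k') ≤
      84 * √(((A : ℝ) + B) / ((A : ℝ) + B - (k + k'))) *
        (((A : ℝ) ^ k * (B : ℝ) ^ k') *
          (((A + B).choose (k + k') : ℝ) * ((k + k').choose k : ℝ))) := by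
  have h2 := descH h
  rw [Nat.descFactorial_eq_factorial_mul_choose, Nat.descFactorial_eq_factorial_mul_choose,
    Nat.descFactorial_eq_factorial_mul_choose] at h2
  have h3 : ((k + k').factorial : ℝ) =
      ((k + k').choose k : ℝ) * ((k.factorial : ℝ) * k'.factorial) := by
    have := Nat.choose_mul_factorial_mul_factorial (show k ≤ k + k' by omega)
    rw [show k + k' - k = k' by omega] at this
    rw [← this]
    push_cast
    ring
  have hfac : (0 : ℝ) < (k.factorial : ℝ) * k'.factorial := by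
    have h1 : (0 : ℝ) < k.factorial := by exact_mod_cast k.factorial_pos
    have h2 : (0 : ℝ) < k'.factorial := by exact_mod_cast k'.factorial_pos
    positivity
  apply le_of_mul_le_mul_left _ hfac
  calc _ = (((k.factorial * A.choose k : ℕ) : ℝ) * ((k'.factorial * B.choose k' : ℕ) : ℝ)) *
        ((A : ℝ) + B) ^ (k + k') := by push_cast; ring
    _ ≤ _ := h2
    _ = _ := by
        push_cast
        rw [h3]
        ring

end Pool.Agent.L0h67.HL
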