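import Pool.Agent.L0h67.HL.Gen
import Pool.Agent.L0h67.HL.Stir

/-! Lines with `k` points on one side for the `n`-element subsets of an arbitrary set with more than
`n` points. -/

set_option autoImplicit false

namespace Pool.Agent.L0h67.HL

open Finset MeasureTheory Filter Pool.Agent.R117.KR Pool.Agent.H189R2.Lev Pool.Agent.H189R2.Iid
open scoped ENNReal Topology

variable {n N k k' : ℕ}

theorem pow_le_eightG {M m : ℕ} (h : m ≤ M) : ((M : ℝ) + 2) ^ m ≤ 8 * (M : ℝ) ^ m := by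
  rcases Nat.eq_zero_or_pos M with h0 | h0
  · obtain rfl : m = 0 := by omega
    simp
  have hM : (0 : ℝ) < M := by exact_mod_cast h0
  have h1 : ((M : ℝ) + 2) = M * (2 / M + 1) := by
    field_simp
    ring
  have h2 : (2 / M + 1 : ℝ) ^ m ≤ 8 := by
    have h3 : (2 / M + 1 : ℝ) ≤ Real.exp (2 / M) := Real.add_one_le_exp _
    have h4 : (2 / M + 1 : ℝ) ^ m ≤ Real.exp (2 / M) ^ m :=
      pow_le_pow_left₀ (by positivity) h3 _
    have h5 : Real.exp (2 / M) ^ m = Real.exp (m * (2 / M)) := by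
      rw [Real.exp_nat_mul]
    have h6 : (m : ℝ) * (2 / M) ≤ 2 := by
      have : (m : ℝ) ≤ M := by exact_mod_cast h
      rw [← mul_div_assoc, div_le_iff₀ hM]
      linarith
    have h7 : Real.exp 2 ≤ 8 := by
      have h8 := Real.exp_one_lt_d9
      have h9 : Real.exp 2 = Real.exp 1 * Real.exp 1 := by
        rw [← Real.exp_add]; norm_num
      have h10 := Real.exp_pos 1
      rw [h9]
      nlinarith
    calc _ ≤ _ := h4
      _ = _ := h5
      _ ≤ Real.exp 2 := Real.exp_le_exp.mpr h6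
      _ ≤ 8 := h7
  rw [h1, mul_pow]
  have h3 : (0 : ℝ) ≤ (M : ℝ) ^ m := by positivity
  nlinarith

theorem condG_sub {p : Fin N → ℝ × ℝ} {ε : ℝ}
    (hst : ∀ i j l, i ≠ j → i ≠ l → j ≠ l →
      ∀ x y z, x ∈ Metric.ball (p i) ε → y ∈ Metric.ball (p j) ε → z ∈ Metric.ball (p l) ε →
      ((0 < side x y z ↔ 0 < side (p i) (p j) (p l)) ∧
        (side x y z < 0 ↔ side (p i) (p j) (p l) < 0)))
    (σ : Fin n → Fin N) {P : Fin n → ℝ × ℝ} (hP : ∀ i, P i ∈ Metric.ball (p (σ i)) ε) :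
    {q : Fin n × Fin n | q.1 < q.2 ∧ CondG p k k' q.1 q.2 σ} ⊆ kPairs P k := by
  rintro ⟨i, i'⟩ ⟨hlt, h1, h2, h3, h4⟩
  simp only at hlt h1 h2 h3 h4
  have hl : ∀ l, 0 < side (P i) (P i') (P l) ↔ 0 < side (p (σ i)) (p (σ i')) (p (σ l)) := by
    intro l
    by_cases hil : l = i
    · subst hil
      rw [side_self_left, side_self_left]
    by_cases hjl : l = i'
    · subst hjl
      rw [side_self_right, side_self_right]
    have h5 := h2 l hil hjl
    exact (hst (σ i) (σ i') (σ l) h1 h5.1.symm h5.2.symm _ _ _ (hP i) (hP i') (hP l)).1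
  refine ⟨hlt, Or.inl ?_⟩
  rw [← h3]
  congr 1
  ext l
  exact hl l

open Classical in
theorem sum_mapsG {p : Fin N → ℝ × ℝ} (hN : N ≠ 0) (hp : General p) :
    ((∑ q ∈ (univ : Finset (Fin n × Fin n)).filter (fun q => q.1 < q.2),
      ((univ : Finset (Fin n → Fin N)).filter (CondG p k k' q.1 q.2)).card : ℕ) : ℝ) ≤
      (N : ℝ) ^ n * (2616 * SS * n * ((min k (n - 2 - k) : ℕ) + 1) ^ (1 / 6 : ℝ)) := by
  have hSS := SS_ge
  obtain ⟨ε, hε, hst, hdis⟩ := exists_radius hp
  have := isProb_mu (p := p) hN hε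
  set π := Measure.pi (fun _ : Fin n => mu p ε) with hπ
  set E : (Fin n → Fin N) → Set (Fin n → ℝ × ℝ) := fun σ =>
    Set.pi Set.univ (fun i => Metric.ball (p (σ i)) ε) with hE
  have hEm : ∀ σ, MeasurableSet (E σ) := fun σ =>
    MeasurableSet.univ_pi fun i => Metric.isOpen_ball.measurableSet
  have hEd : Pairwise (Function.onFun Disjoint E) := by
    intro σ τ hστ
    rw [Function.onFun, Set.disjoint_left]
    intro P h1 h2
    apply hστ
    funext i
    by_contra hne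
    have h3 := hdis (σ i) (τ i) hne
    exact Set.disjoint_left.1 h3 (h1 i trivial) (h2 i trivial)
  have hEp : ∀ σ, ((N : ℝ≥0∞)⁻¹) ^ n ≤ π (E σ) := by
    intro σ
    rw [hπ, hE]
    simp only
    rw [Measure.pi_pi]
    calc ((N : ℝ≥0∞)⁻¹) ^ n = ∏ _i : Fin n, (N : ℝ≥0∞)⁻¹ := by simp
      _ ≤ _ := Finset.prod_le_prod' fun i _ => mu_ball hε (σ i)
  set F : (Fin n → Fin N) → ℕ := fun σ =>
    ((univ : Finset (Fin n × Fin n)).filter (fun q => q.1 < q.2 ∧ CondG p k k' q.1 q.2 σ)).card with hF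
  have hF1 : ∀ σ, ∀ P ∈ E σ, F σ ≤ (kPairs P k).ncard := by
    intro σ P hP
    have h1 := condG_sub (k := k) (k' := k') hst σ (fun i => hP i trivial)
    have h2 := Set.ncard_le_ncard h1 (Set.toFinite _)
    refine le_trans (le_of_eq ?_) h2
    simp only [hF]
    rw [← Set.ncard_coe_finset]
    congr 1
    ext q
    simp
  have hswap : ∑ q ∈ (univ : Finset (Fin n × Fin n)).filter (fun q => q.1 < q.2),
      ((univ : Finset (Fin n → Fin N)).filter (CondG p k k' q.1 q.2)).card =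
      ∑ σ : Fin n → Fin N, F σ := by
    simp only [hF, card_filter, sum_filter]
    rw [sum_comm]
    apply sum_congr rfl
    intro q _
    by_cases h : q.1 < q.2
    · simp [h]
    · simp [h]
  rw [hswap]
  have h1 : ∑ σ : Fin n → Fin N, ((N : ℝ≥0∞)⁻¹) ^ n * ((F σ : ℕ) : ℝ≥0∞) ≤
      ENNReal.ofReal (2616 * SS * n * ((min k (n - 2 - k) : ℕ) + 1) ^ (1 / 6 : ℝ)) := by
    calc ∑ σ : Fin n → Fin N, ((N : ℝ≥0∞)⁻¹) ^ n * ((F σ : ℕ) : ℝ≥0∞)
        ≤ ∑ σ : Fin n → Fin N, ∫⁻ P in E σ, ((kPairs P k).ncard : ℝ≥0∞) ∂π := by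
          apply Finset.sum_le_sum
          intro σ _
          calc ((N : ℝ≥0∞)⁻¹) ^ n * ((F σ : ℕ) : ℝ≥0∞)
              ≤ π (E σ) * ((F σ : ℕ) : ℝ≥0∞) := mul_le_mul_left (hEp σ) _
            _ = ∫⁻ P in E σ, ((F σ : ℕ) : ℝ≥0∞) ∂π := by rw [setLIntegral_const, mul_comm]
            _ ≤ _ := by
              apply setLIntegral_mono' (hEm σ)
              intro P hP
              exact_mod_cast hF1 σ P hP
      _ = ∫⁻ P in ⋃ σ, E σ, ((kPairs P k).ncard : ℝ≥0∞) ∂π := by
          rw [lintegral_iUnion hEm hEd, tsum_fintype]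
      _ ≤ ∫⁻ P, ((kPairs P k).ncard : ℝ≥0∞) ∂π := setLIntegral_le_lintegral _ _
      _ ≤ _ := kPairs_bound LN_mu k
  rw [← Finset.mul_sum] at h1
  have hNpos : (0 : ℝ) < (N : ℝ) ^ n := by
    have : (0 : ℝ) < N := by exact_mod_cast Nat.pos_of_ne_zero hN
    positivity
  have h2 : ENNReal.ofReal (((N : ℝ) ^ n)⁻¹ *
      ((∑ σ : Fin n → Fin N, F σ : ℕ) : ℝ)) ≤
      ENNReal.ofReal (2616 * SS * n * ((min k (n - 2 - k) : ℕ) + 1) ^ (1 / 6 : ℝ)) := by
    refine le_trans (le_of_eq ?_) h1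
    rw [ENNReal.ofReal_mul (by positivity), ENNReal.ofReal_natCast, ENNReal.ofReal_inv_of_pos hNpos,
      ENNReal.ofReal_pow (by positivity), ENNReal.ofReal_natCast, ENNReal.inv_pow]
    push_cast
    rfl
  have h3 := (ENNReal.ofReal_le_ofReal_iff (by positivity)).1 h2
  rw [inv_mul_le_iff₀ hNpos] at h3
  exact h3


/-- the pairs of a subset with `k` points of the subset on the positive side and `k'` on the
negative side -/
noncomputable def sidePairs (p : Fin N → ℝ × ℝ) (k k' : ℕ) (Q : Finset (Fin N)) :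
    Finset (Fin N × Fin N) := by
  classical exact univ.filter (fun x => x.1 < x.2 ∧ x.1 ∈ Q ∧ x.2 ∈ Q ∧
    (PA p x.1 x.2 ∩ Q).card = k ∧ (PB p x.1 x.2 ∩ Q).card = k')

theorem mem_sidePairs {p : Fin N → ℝ × ℝ} {k k' : ℕ} {Q : Finset (Fin N)} {x : Fin N × Fin N} :
    x ∈ sidePairs p k k' Q ↔ x.1 < x.2 ∧ x.1 ∈ Q ∧ x.2 ∈ Q ∧
      (PA p x.1 x.2 ∩ Q).card = k ∧ (PB p x.1 x.2 ∩ Q).card = k' := by
  unfold sidePairs
  simp

open Classical in
theorem count_QG {p : Fin N → ℝ × ℝ} (hp : General p) (k k' : ℕ) :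
    ∑ Q ∈ (univ : Finset (Fin N)).powersetCard (k + k' + 2), (sidePairs p k k' Q).card ≤
      ∑ x ∈ (univ : Finset (Fin N × Fin N)).filter (fun x => x.1 < x.2),
        (PA p x.1 x.2).card.choose k * (PB p x.1 x.2).card.choose k' := by
  have hswap : ∑ Q ∈ (univ : Finset (Fin N)).powersetCard (k + k' + 2), (sidePairs p k k' Q).card =
      ∑ x ∈ (univ : Finset (Fin N × Fin N)).filter (fun x => x.1 < x.2),
        (((univ : Finset (Fin N)).powersetCard (k + k' + 2)).filter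
          (fun Q => x ∈ sidePairs p k k' Q)).card := by
    have e : ∀ Q : Finset (Fin N), (sidePairs p k k' Q).card =
        ∑ x ∈ (univ : Finset (Fin N × Fin N)).filter (fun x => x.1 < x.2),
          if x ∈ sidePairs p k k' Q then 1 else 0 := by
      intro Q
      rw [← card_filter]
      congr 1
      ext x
      rw [mem_filter, mem_filter]
      constructor
      · intro h
        exact ⟨⟨mem_univ _, (mem_sidePairs.1 h).1⟩, h⟩
      · intro h
        exact h.2
    simp only [e, card_filter]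
    rw [sum_comm]
  rw [hswap]
  apply sum_le_sum
  rintro ⟨a, b⟩ hx
  rw [mem_filter] at hx
  simp only at hx ⊢
  rw [← card_powersetCard, ← card_powersetCard, ← card_product]
  apply card_le_card_of_injOn (fun Q => (PA p a b ∩ Q, PB p a b ∩ Q))
  · intro Q hQ
    rw [mem_coe, mem_filter, mem_sidePairs] at hQ
    rw [mem_coe, mem_product, mem_powersetCard, mem_powersetCard]
    exact ⟨⟨inter_subset_left, hQ.2.2.2.2.1⟩, ⟨inter_subset_left, hQ.2.2.2.2.2⟩⟩
  · intro Q hQ Q' hQ' heq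
    rw [mem_coe, mem_filter, mem_sidePairs] at hQ hQ'
    rw [Prod.mk.injEq] at heq
    ext c
    by_cases hca : c = a
    · subst hca
      exact ⟨fun _ => hQ'.2.2.1, fun _ => hQ.2.2.1⟩
    by_cases hcb : c = b
    · subst hcb
      exact ⟨fun _ => hQ'.2.2.2.1, fun _ => hQ.2.2.2.1⟩
    have hne := hp.2 a b c hx.2.ne (Ne.symm hca) (Ne.symm hcb)
    rcases lt_or_gt_of_ne hne with h | h
    · have hB : c ∈ PB p a b := mem_PB.2 h
      have h1 := Finset.ext_iff.1 heq.2 c
      rw [mem_inter, mem_inter] at h1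
      exact ⟨fun h2 => (h1.1 ⟨hB, h2⟩).2, fun h2 => (h1.2 ⟨hB, h2⟩).2⟩
    · have hA : c ∈ PA p a b := mem_PA.2 h
      have h1 := Finset.ext_iff.1 heq.1 c
      rw [mem_inter, mem_inter] at h1
      exact ⟨fun h2 => (h1.1 ⟨hA, h2⟩).2, fun h2 => (h1.2 ⟨hA, h2⟩).2⟩

theorem sum_offDiag' (f : Fin N × Fin N → ℕ) :
    ∑ x ∈ (univ : Finset (Fin N)).offDiag, f x =
      ∑ x ∈ (univ : Finset (Fin N × Fin N)).filter (fun x => x.1 < x.2), (f x + f x.swap) := by
  have e : (univ : Finset (Fin N)).offDiag =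
      (univ : Finset (Fin N × Fin N)).filter (fun x => x.1 < x.2) ∪
        (univ : Finset (Fin N × Fin N)).filter (fun x => x.2 < x.1) := by
    ext x
    simp only [mem_offDiag, mem_univ, true_and, mem_union, mem_filter]
    exact lt_or_lt_iff_ne.symm
  have hd : Disjoint ((univ : Finset (Fin N × Fin N)).filter (fun x => x.1 < x.2))
      ((univ : Finset (Fin N × Fin N)).filter (fun x => x.2 < x.1)) := by
    rw [Finset.disjoint_left]
    intro x h1 h2
    rw [mem_filter] at h1 h2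
    exact lt_asymm h1.2 h2.2
  rw [e, sum_union hd, sum_add_distrib]
  congr 1
  apply sum_bij (fun x _ => x.swap)
  · intro x hx
    rw [mem_filter] at hx ⊢
    exact ⟨mem_univ _, hx.2⟩
  · intro x _ y _ h
    exact Prod.swap_injective h
  · intro x hx
    refine ⟨x.swap, ?_, Prod.swap_swap x⟩
    rw [mem_filter] at hx ⊢
    exact ⟨mem_univ _, hx.2⟩
  · intro x _
    rw [Prod.swap_swap]

open Classical in
/-- pairs with `k` points of the subset on one side, for all subsets with `n = k + k' + 2`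
elements -/
theorem sum_sidePairs {p : Fin N → ℝ × ℝ} (hp : General p) (hn : n = k + k' + 2) (h : n < N) :
    ((∑ Q ∈ (univ : Finset (Fin N)).powersetCard n,
      ((sidePairs p k k' Q).card + (sidePairs p k' k Q).card) : ℕ) : ℝ) ≤
      2688 * (2616 * SS * n * ((min k (n - 2 - k) : ℕ) + 1) ^ (1 / 6 : ℝ)) *
        Real.sqrt ((N : ℝ) / ((N : ℝ) - n)) * (N.choose n) := by
  have hSS := SS_ge
  set c : ℝ := 2616 * SS * n * ((min k (n - 2 - k) : ℕ) + 1) ^ (1 / 6 : ℝ) with hc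
  have hc0 : 0 ≤ c := by positivity
  obtain ⟨M, hM⟩ : ∃ M, N = M + 2 := ⟨N - 2, by omega⟩
  have hkM : k + k' < M := by omega
  have hN : N ≠ 0 := by omega
  set Y : ℕ := ∑ x ∈ (univ : Finset (Fin N)).offDiag,
        (PA p x.1 x.2).card.choose k * (PB p x.1 x.2).card.choose k' with hY
  have hTY : ∑ Q ∈ (univ : Finset (Fin N)).powersetCard n,
      ((sidePairs p k k' Q).card + (sidePairs p k' k Q).card) ≤ Y := by
    rw [hY, sum_offDiag', sum_add_distrib, sum_add_distrib]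
    apply add_le_add
    · rw [hn]
      exact count_QG hp k k'
    · have h1 := count_QG hp k' k
      rw [show k' + k + 2 = n by omega] at h1
      refine h1.trans (le_of_eq ?_)
      apply sum_congr rfl
      intro x _
      show _ = (PA p x.2 x.1).card.choose k * (PB p x.2 x.1).card.choose k'
      rw [PA_swap p x.1 x.2, PB_swap p x.1 x.2, mul_comm]
  set X : ℕ := ∑ x ∈ (univ : Finset (Fin N)).offDiag,
        (PA p x.1 x.2).card ^ k * (PB p x.1 x.2).card ^ k' with hX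
  set r : ℝ := 84 * √((M : ℝ) / ((M : ℝ) - (k + k'))) with hr
  have hMk : (0 : ℝ) < (M : ℝ) - (k + k') := by
    have : ((k + k' : ℕ) : ℝ) < M := by exact_mod_cast hkM
    push_cast at this
    linarith
  have hYX : (Y : ℝ) * (M : ℝ) ^ (k + k') ≤
      X * (((M.choose (k + k') : ℝ) * ((k + k').choose k : ℝ)) * r) := by
    rw [hY, hX]
    push_cast
    rw [sum_mul, sum_mul]
    apply sum_le_sum
    intro x hx
    rw [mem_offDiag] at hx
    have h1 := card_PA_PB hp hx.2.2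
    have h2 : (PA p x.1 x.2).card + (PB p x.1 x.2).card = M := by omega
    have h3 := chooseH (A := (PA p x.1 x.2).card) (B := (PB p x.1 x.2).card) (k := k) (k' := k')
      (by omega)
    have h4 : ((PA p x.1 x.2).card : ℝ) + ((PB p x.1 x.2).card : ℝ) = M := by exact_mod_cast h2
    rw [h2, h4] at h3
    rw [hr]
    calc _ ≤ _ := h3
      _ = _ := by ring
  -- the maps
  have hcount : (n * (n - 1)) * ((k + k').choose k * X) ≤
      2 * ∑ q ∈ (univ : Finset (Fin n × Fin n)).filter (fun q => q.1 < q.2),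
        ((univ : Finset (Fin n → Fin N)).filter (CondG p k k' q.1 q.2)).card := by
    have h1 : ∀ q ∈ (univ : Finset (Fin n × Fin n)).filter (fun q => q.1 < q.2),
        (k + k').choose k * X ≤
          ((univ : Finset (Fin n → Fin N)).filter (CondG p k k' q.1 q.2)).card := by
      intro q hq
      rw [mem_filter] at hq
      exact count_mapsG (k := k) (k' := k') hn hq.2.ne
    have h2 := card_nsmul_le_sum _ _ _ h1
    refine le_trans (le_of_eq ?_) (Nat.mul_le_mul_left 2 h2)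
    have h3 := sum_offDiag (N := n) (fun _ => 1) (fun _ _ => rfl)
    simp only [sum_const, smul_eq_mul, mul_one, offDiag_card, card_univ, Fintype.card_fin] at h3
    have h4 : n * (n - 1) = n * n - n := by rw [Nat.mul_sub, mul_one]
    rw [h4, h3, smul_eq_mul]
    ring
  have hmaps := sum_mapsG (n := n) (k := k) (k' := k') hN hp
  have hXc : ((n : ℝ) * (n - 1)) * (((k + k').choose k : ℝ) * X) ≤ 2 * ((N : ℝ) ^ n * c) := by
    refine le_trans ?_ (mul_le_mul_of_nonneg_left hmaps (by norm_num))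
    have h1 : (((n * (n - 1)) * ((k + k').choose k * X) : ℕ) : ℝ) =
        ((n : ℝ) * (n - 1)) * (((k + k').choose k : ℝ) * X) := by
      push_cast [Nat.cast_sub (show 1 ≤ n by omega)]
      ring
    rw [← h1]
    exact_mod_cast hcount
  -- binomial coefficients
  have hch : ((n : ℝ) * (n - 1)) * (N.choose n : ℝ) =
      ((N : ℝ) * (N - 1)) * (M.choose (k + k') : ℝ) := by
    have h1 := Nat.add_one_mul_choose_eq (M + 1) (k + k' + 1)
    have h2 := Nat.add_one_mul_choose_eq M (k + k')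
    have h1' : (((M + 1 + 1) * (M + 1).choose (k + k' + 1) : ℕ) : ℝ) =
        (((M + 1 + 1).choose (k + k' + 1 + 1) * (k + k' + 1 + 1) : ℕ) : ℝ) := by rw [h1]
    have h2' : (((M + 1) * M.choose (k + k') : ℕ) : ℝ) =
        (((M + 1).choose (k + k' + 1) * (k + k' + 1) : ℕ) : ℝ) := by rw [h2]
    rw [hM, hn]
    push_cast at h1' h2' ⊢
    have e1 : ((M : ℝ) + 2) = M + 1 + 1 := by ring
    have e2 : ((k : ℝ) + k' + 2) = k + k' + 1 + 1 := by ring
    rw [e1, e2]
    have e3 : ((M + 2).choose (k + k' + 2) : ℝ) = ((M + 1 + 1).choose (k + k' + 1 + 1) : ℝ) := rfl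
    rw [e3]
    linear_combination (-((k : ℝ) + k' + 1)) * h1' + (-((M : ℝ) + 1 + 1)) * h2'
  -- assembly
  set T : ℝ := ((∑ Q ∈ (univ : Finset (Fin N)).powersetCard n,
      ((sidePairs p k k' Q).card + (sidePairs p k' k Q).card) : ℕ) : ℝ) with hTdef
  have hT0 : 0 ≤ T := by rw [hTdef]; exact Nat.cast_nonneg _
  have hTY' : T ≤ Y := by rw [hTdef]; exact Nat.cast_le.2 hTY
  have hr0 : 0 ≤ r := by rw [hr]; positivity
  have hn1 : (0 : ℝ) < (n : ℝ) * (n - 1) := by
    have : (2 : ℝ) ≤ n := by exact_mod_cast (by omega : 2 ≤ n)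
    have h2 : (0 : ℝ) < n - 1 := by linarith
    positivity
  have hN2 : (2 : ℝ) ≤ N := by exact_mod_cast (by omega : 2 ≤ N)
  have hNN : (0 : ℝ) < (N : ℝ) * (N - 1) := by
    have h2 : (0 : ℝ) < N - 1 := by linarith
    positivity
  have hMpos : (0 : ℝ) < (M : ℝ) ^ (k + k') := by
    have : (0 : ℝ) < M := by exact_mod_cast (by omega : 0 < M)
    positivity
  have s1 : T * (M : ℝ) ^ (k + k') * ((n : ℝ) * (n - 1)) ≤
      2 * ((N : ℝ) ^ n * c) * ((M.choose (k + k') : ℝ) * r) := by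
    calc T * (M : ℝ) ^ (k + k') * ((n : ℝ) * (n - 1))
        ≤ Y * (M : ℝ) ^ (k + k') * ((n : ℝ) * (n - 1)) := by gcongr
      _ ≤ (X * (((M.choose (k + k') : ℝ) * ((k + k').choose k : ℝ)) * r)) *
          ((n : ℝ) * (n - 1)) :=
          mul_le_mul_of_nonneg_right hYX hn1.le
      _ = (((n : ℝ) * (n - 1)) * (((k + k').choose k : ℝ) * X)) *
          ((M.choose (k + k') : ℝ) * r) := by
          ring
      _ ≤ _ := mul_le_mul_of_nonneg_right hXc (by positivity)
  have s2 : (T * ((M : ℝ) ^ (k + k') * ((N : ℝ) * (N - 1)))) * ((n : ℝ) * (n - 1)) ≤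
      (2 * ((N : ℝ) ^ n * c) * (r * (N.choose n : ℝ))) * ((n : ℝ) * (n - 1)) := by
    calc (T * ((M : ℝ) ^ (k + k') * ((N : ℝ) * (N - 1)))) * ((n : ℝ) * (n - 1))
        = (T * (M : ℝ) ^ (k + k') * ((n : ℝ) * (n - 1))) * ((N : ℝ) * (N - 1)) := by ring
      _ ≤ (2 * ((N : ℝ) ^ n * c) * ((M.choose (k + k') : ℝ) * r)) * ((N : ℝ) * (N - 1)) :=
          mul_le_mul_of_nonneg_right s1 hNN.le
      _ = (2 * ((N : ℝ) ^ n * c) * r) * (((N : ℝ) * (N - 1)) * (M.choose (k + k') : ℝ)) := by ring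
      _ = _ := by rw [← hch]; ring
  have s3 := le_of_mul_le_mul_right s2 hn1
  have s4 : (N : ℝ) ^ n ≤ 16 * ((M : ℝ) ^ (k + k') * ((N : ℝ) * (N - 1))) := by
    have h8 := pow_le_eightG (M := M) (m := k + k') hkM.le
    have e : (N : ℝ) = M + 2 := by rw [hM]; push_cast; ring
    have h9 : (N : ℝ) ^ 2 ≤ 2 * ((N : ℝ) * (N - 1)) := by nlinarith
    rw [hn, pow_add]
    calc (N : ℝ) ^ (k + k') * (N : ℝ) ^ 2 ≤
          (8 * (M : ℝ) ^ (k + k')) * (2 * ((N : ℝ) * (N - 1))) := by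
          apply mul_le_mul _ h9 (by positivity) (by positivity)
          rw [e]; exact h8
      _ = _ := by ring
  have hD : (0 : ℝ) < (M : ℝ) ^ (k + k') * ((N : ℝ) * (N - 1)) := mul_pos hMpos hNN
  have s5 : T * ((M : ℝ) ^ (k + k') * ((N : ℝ) * (N - 1))) ≤
      (32 * c * (r * (N.choose n : ℝ))) * ((M : ℝ) ^ (k + k') * ((N : ℝ) * (N - 1))) := by
    calc _ ≤ _ := s3
      _ ≤ 2 * ((16 * ((M : ℝ) ^ (k + k') * ((N : ℝ) * (N - 1)))) * c) *
          (r * (N.choose n : ℝ)) := by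
          gcongr
      _ = _ := by ring
  have s6 := le_of_mul_le_mul_right s5 hD
  have hr' : r ≤ 84 * Real.sqrt ((N : ℝ) / ((N : ℝ) - n)) := by
    rw [hr]
    apply mul_le_mul_of_nonneg_left _ (by norm_num)
    apply Real.sqrt_le_sqrt
    have e1 : (N : ℝ) - n = (M : ℝ) - (k + k') := by
      rw [hM, hn]; push_cast; ring
    rw [e1]
    apply div_le_div_of_nonneg_right _ hMk.le
    rw [hM]; push_cast; linarith
  calc T ≤ 32 * c * (r * (N.choose n : ℝ)) := s6
    _ ≤ 32 * c * ((84 * Real.sqrt ((N : ℝ) / ((N : ℝ) - n))) * (N.choose n : ℝ)) := by gcongr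
    _ = _ := by ring

end Pool.Agent.L0h67.HL
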