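import Pool.Agent.L0h67.HL.Pairs
import Pool.Agent.Results.MP_a08d0a_co.IidLevel

/-! Halving lines of independent random points. -/

set_option autoImplicit false

namespace Pool.Agent.L0h67.HL

open Finset MeasureTheory Filter Pool.Agent.R117.KR Pool.Agent.H189R2.Lev Pool.Agent.H189R2.Iid
open Pool.Agent.Results.MP_a08d0a_co
open scoped ENNReal Topology

variable {n : ℕ}

theorem general_of_GP {P : Fin n → ℝ × ℝ} (hP : GP P) : General P := by
  refine ⟨fun i j h => hP.1 i j (by rw [h]), ?_⟩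
  intro i j l hij hil hjl h0
  have hS := IidLevel.simple_of_GP hP
  have hne : (P i).1 ≠ (P j).1 := fun h => hij (hP.1 i j h)
  apply hS.2 i j l hij hil hjl
  refine ⟨cr (IidLevel.sl P) (IidLevel.ic P) i j, (ht_cr (B := IidLevel.ic P) hne).symm, ?_⟩
  have h' : (P i).1 - (P j).1 ≠ 0 := sub_ne_zero.mpr hne
  have key : (ht (IidLevel.sl P) (IidLevel.ic P) l (cr (IidLevel.sl P) (IidLevel.ic P) i j) -
      ht (IidLevel.sl P) (IidLevel.ic P) i (cr (IidLevel.sl P) (IidLevel.ic P) i j)) *
        ((P j).1 - (P i).1) = side (P i) (P j) (P l) := by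
    unfold ht cr side IidLevel.sl IidLevel.ic
    field_simp
    ring
  rw [h0] at key
  rcases mul_eq_zero.mp key with h | h
  · linarith
  · exact absurd (by linarith) h'

theorem cross_bound {μ : Measure (ℝ × ℝ)} [IsProbabilityMeasure μ] (hμ : LN μ) (k : ℕ) :
    ∫⁻ P, ((cross (fun l => (P l).1) (fun l => (P l).2) k).ncard : ℝ≥0∞)
      ∂Measure.pi (fun _ : Fin n => μ) ≤
      ENNReal.ofReal (1308 * SS * n * ((min k (n - 2 - k) : ℕ) + 1) ^ (1 / 6 : ℝ)) :=
  IidLevel.cross_bound hμ k

theorem measurable_cross (k : ℕ) :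
    Measurable (fun P : Fin n → ℝ × ℝ =>
      ((cross (fun l => (P l).1) (fun l => (P l).2) k).ncard : ℝ≥0∞)) :=
  IidLevel.measurable_crossings k

theorem halving_bound {μ : Measure (ℝ × ℝ)} [IsProbabilityMeasure μ] (hμ : LN μ) :
    ∫⁻ P, ((halving P).ncard : ℝ≥0∞) ∂Measure.pi (fun _ : Fin n => μ) ≤
      ENNReal.ofReal (1308 * SS * (n : ℝ) ^ (7 / 6 : ℝ)) := by
  have hSS := SS_ge
  refine (lintegral_mono_ae ?_).trans ((cross_bound (n := n) hμ (n / 2 - 1)).trans ?_)
  · filter_upwards [ae_GP hμ n] with P hP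
    exact_mod_cast Set.ncard_le_ncard (halving_sub hP.1) (Set.toFinite _)
  · apply ENNReal.ofReal_le_ofReal
    rcases Nat.eq_zero_or_pos n with rfl | hn
    · simp
    · have hn1 : (1 : ℝ) ≤ n := by exact_mod_cast hn
      have h1 : ((min (n / 2 - 1) (n - 2 - (n / 2 - 1)) : ℕ) : ℝ) + 1 ≤ n := by
        have : min (n / 2 - 1) (n - 2 - (n / 2 - 1)) + 1 ≤ n := by omega
        exact_mod_cast this
      have h2 : (((min (n / 2 - 1) (n - 2 - (n / 2 - 1)) : ℕ) : ℝ) + 1) ^ (1 / 6 : ℝ) ≤
          (n : ℝ) ^ (1 / 6 : ℝ) :=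
        Real.rpow_le_rpow (by positivity) h1 (by norm_num)
      have h3 : (n : ℝ) ^ (7 / 6 : ℝ) = n * (n : ℝ) ^ (1 / 6 : ℝ) := by
        rw [show (7 / 6 : ℝ) = 1 + 1 / 6 by norm_num, Real.rpow_add (by linarith), Real.rpow_one]
      rw [h3, ← mul_assoc]
      exact mul_le_mul_of_nonneg_left h2 (by positivity)

theorem kPairs_bound {μ : Measure (ℝ × ℝ)} [IsProbabilityMeasure μ] (hμ : LN μ) (k : ℕ) :
    ∫⁻ P, ((kPairs P k).ncard : ℝ≥0∞) ∂Measure.pi (fun _ : Fin n => μ) ≤
      ENNReal.ofReal (2616 * SS * n * ((min k (n - 2 - k) : ℕ) + 1) ^ (1 / 6 : ℝ)) := by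
  have hSS := SS_ge
  calc ∫⁻ P, ((kPairs P k).ncard : ℝ≥0∞) ∂Measure.pi (fun _ : Fin n => μ)
      ≤ ∫⁻ P, (((cross (fun l => (P l).1) (fun l => (P l).2) k).ncard : ℝ≥0∞) +
          ((cross (fun l => (P l).1) (fun l => (P l).2) (n - 2 - k)).ncard : ℝ≥0∞))
          ∂Measure.pi (fun _ : Fin n => μ) := by
        apply lintegral_mono_ae
        filter_upwards [ae_GP hμ n] with P hP
        have h1 := Set.ncard_le_ncard (kPairs_sub (general_of_GP hP) hP.1 k) (Set.toFinite _)
        have h2 := h1.trans (Set.ncard_union_le _ _)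
        exact_mod_cast h2
    _ = _ := lintegral_add_left (measurable_cross k) _
    _ ≤ ENNReal.ofReal (1308 * SS * n * ((min k (n - 2 - k) : ℕ) + 1) ^ (1 / 6 : ℝ)) +
        ENNReal.ofReal (1308 * SS * n * ((min k (n - 2 - k) : ℕ) + 1) ^ (1 / 6 : ℝ)) := by
        apply add_le_add (cross_bound hμ k)
        have h := cross_bound (n := n) hμ (n - 2 - k)
        have e : min (n - 2 - k) (n - 2 - (n - 2 - k)) = min k (n - 2 - k) := by omega
        rw [e] at h
        exact h
    _ = _ := by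
        rw [← ENNReal.ofReal_add (by positivity) (by positivity)]
        congr 1
        ring

theorem measurable_side (i j l : Fin n) :
    Measurable (fun P : Fin n → ℝ × ℝ => side (P i) (P j) (P l)) := by
  have m1 : ∀ i : Fin n, Measurable (fun P : Fin n → ℝ × ℝ => P i) := fun i => measurable_pi_apply i
  unfold side
  exact (((m1 j).fst.sub (m1 i).fst).mul ((m1 l).snd.sub (m1 i).snd)).sub
    (((m1 j).snd.sub (m1 i).snd).mul ((m1 l).fst.sub (m1 i).fst))

theorem measurable_count {Ω : Type*} [MeasurableSpace Ω] {ι : Type*} [Fintype ι]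
    (s : Ω → ι → Prop) (hs : ∀ l, MeasurableSet {P | s P l}) :
    Measurable (fun P : Ω => {l | s P l}.ncard) := by
  classical
  have h : (fun P : Ω => {l | s P l}.ncard) = fun P => ∑ l, if s P l then 1 else 0 := by
    ext P
    have : {l | s P l} = ((univ.filter (fun l => s P l) : Finset ι) : Set ι) := by
      ext l; simp
    rw [this, Set.ncard_coe_finset, card_filter]
  rw [h]
  exact Finset.measurable_sum _ (fun l _ => Measurable.ite (hs l) measurable_const measurable_const)

theorem measurableSet_pos (i j : Fin n) (m : ℕ) :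
    MeasurableSet {P : Fin n → ℝ × ℝ | (pos P i j).ncard = m} :=
  (measurable_count (fun (P : Fin n → ℝ × ℝ) l => 0 < side (P i) (P j) (P l))
    (fun l => measurableSet_lt measurable_const (measurable_side i j l)))
    (measurableSet_singleton m)

theorem measurableSet_neg (i j : Fin n) (m : ℕ) :
    MeasurableSet {P : Fin n → ℝ × ℝ | (neg P i j).ncard = m} :=
  (measurable_count (fun (P : Fin n → ℝ × ℝ) l => side (P i) (P j) (P l) < 0)
    (fun l => measurableSet_lt (measurable_side i j l) measurable_const))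
    (measurableSet_singleton m)

theorem measurable_halving : Measurable (fun P : Fin n → ℝ × ℝ => (halving P).ncard) :=
  measurable_count (fun (P : Fin n → ℝ × ℝ) (q : Fin n × Fin n) => q.1 < q.2 ∧
    (pos P q.1 q.2).ncard = n / 2 - 1 ∧ (neg P q.1 q.2).ncard = n / 2 - 1)
    (fun q => (MeasurableSet.const _).inter
      ((measurableSet_pos q.1 q.2 _).inter (measurableSet_neg q.1 q.2 _)))

theorem measurable_kPairs (k : ℕ) : Measurable (fun P : Fin n → ℝ × ℝ => (kPairs P k).ncard) :=
  measurable_count (fun (P : Fin n → ℝ × ℝ) (q : Fin n × Fin n) => q.1 < q.2 ∧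
    ((pos P q.1 q.2).ncard = k ∨ (neg P q.1 q.2).ncard = k))
    (fun q => (MeasurableSet.const _).inter
      ((measurableSet_pos q.1 q.2 _).union (measurableSet_neg q.1 q.2 _)))

end Pool.Agent.L0h67.HL
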