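import Pool.Agent.L0h67.HL.Pert

/-! Levels of the `n`-element subsets of an arbitrary set of more than `n` lines. -/

set_option autoImplicit false

namespace Pool.Agent.L0h67.HL

open Finset Filter Pool.Agent.R117.KR Pool.Agent.H189R2.Lev Pool.Agent.H189R2.Iid
open KLev.Levels Pool.Agent.Y375.FD

variable {n N k k' : ℕ}

open Classical in
theorem card_inter {p : Fin N → ℝ × ℝ} (hp : General p) {a b : Fin N} (hab : a ≠ b)
    {Q : Finset (Fin N)} (ha : a ∈ Q) (hb : b ∈ Q) :
    (PA p a b ∩ Q).card + (PB p a b ∩ Q).card + 2 = Q.card := by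
  have e : Q = ((PA p a b ∩ Q) ∪ (PB p a b ∩ Q)) ∪ {a, b} := by
    ext c
    simp only [mem_union, mem_inter, mem_PA, mem_PB, mem_insert, mem_singleton]
    constructor
    · intro hc
      by_cases hca : c = a
      · exact Or.inr (Or.inl hca)
      by_cases hcb : c = b
      · exact Or.inr (Or.inr hcb)
      left
      have := hp.2 a b c hab (Ne.symm hca) (Ne.symm hcb)
      rcases lt_or_gt_of_ne this with h | h
      · exact Or.inr ⟨h, hc⟩
      · exact Or.inl ⟨h, hc⟩
    · rintro ((⟨-, h⟩ | ⟨-, h⟩) | (rfl | rfl))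
      · exact h
      · exact h
      · exact ha
      · exact hb
  have d1 : Disjoint (PA p a b ∩ Q) (PB p a b ∩ Q) := by
    rw [Finset.disjoint_left]
    intro c h1 h2
    rw [mem_inter, mem_PA] at h1
    rw [mem_inter, mem_PB] at h2
    exact lt_asymm h1.1 h2.1
  have d2 : Disjoint ((PA p a b ∩ Q) ∪ (PB p a b ∩ Q)) {a, b} := by
    rw [Finset.disjoint_left]
    intro c h1 h2
    rw [mem_union, mem_inter, mem_inter, mem_PA, mem_PB] at h1
    rw [mem_insert, mem_singleton] at h2
    rcases h2 with rfl | rfl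
    · rw [side_self_left] at h1
      rcases h1 with ⟨h, -⟩ | ⟨h, -⟩ <;> exact lt_irrefl _ h
    · rw [side_self_right] at h1
      rcases h1 with ⟨h, -⟩ | ⟨h, -⟩ <;> exact lt_irrefl _ h
  conv_rhs => rw [e, card_union_of_disjoint d2, card_union_of_disjoint d1, card_pair hab]

/-- number of the pairs of a subset with exactly `κ` elements of the subset on one side -/
noncomputable def tk (p : Fin N → ℝ × ℝ) (κ : ℕ) (Q : Finset (Fin N)) : ℕ :=
  if κ + 2 ≤ Q.card then (sidePairs p κ (Q.card - 2 - κ) Q).card +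
    (sidePairs p (Q.card - 2 - κ) κ Q).card else 0

open Classical in
noncomputable def tkset (p : Fin N → ℝ × ℝ) (κ : ℕ) (Q : Finset (Fin N)) :
    Finset (Fin N × Fin N) :=
  if κ + 2 ≤ Q.card then sidePairs p κ (Q.card - 2 - κ) Q ∪
    sidePairs p (Q.card - 2 - κ) κ Q else ∅

theorem card_tkset (p : Fin N → ℝ × ℝ) (κ : ℕ) (Q : Finset (Fin N)) :
    (tkset p κ Q).card ≤ tk p κ Q := by
  classical
  unfold tkset tk
  split_ifs
  · exact card_union_le _ _
  · simp

open Classical in
theorem complexity_le_tk {p p' : Fin N → ℝ × ℝ} (hp : Function.Injective p) (hp' : General p')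
    (hs' : ∀ i j, i ≠ j → (p' i).1 ≠ (p' j).1)
    (hsl : ∀ i j, (p i).1 < (p j).1 → (p' i).1 < (p' j).1)
    (hpos : ∀ i j l, 0 < side (p i) (p j) (p l) → 0 < side (p' i) (p' j) (p' l))
    (hneg : ∀ i j l, side (p i) (p j) (p l) < 0 → side (p' i) (p' j) (p' l) < 0)
    (Q : Finset (Fin N)) (k : ℕ) :
    complexity (Q.image p) k ≤ tk p' k Q + (if k = 0 then 0 else tk p' (k - 1) Q) := by
  set T : Finset (Fin N × Fin N) := tkset p' k Q ∪ (if k = 0 then ∅ else tkset p' (k - 1) Q) with hT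
  have hTc : T.card ≤ tk p' k Q + (if k = 0 then 0 else tk p' (k - 1) Q) := by
    refine (card_union_le _ _).trans (add_le_add (card_tkset _ _ _) ?_)
    split_ifs
    · simp
    · exact card_tkset _ _ _
  refine le_trans ?_ hTc
  have hex : ∀ v ∈ {v | IsVertex (Q.image p) k v}, ∃ x : Fin N × Fin N, x ∈ T ∧
      (p x.1).1 ≠ (p x.2).1 ∧ height (p x.1) v.1 = v.2 ∧ height (p x.2) v.1 = v.2 := by
    intro v hv
    obtain ⟨a, b, ha, hb, hab, hav, hbv, κ, hκ, hcard⟩ := vertex_pair hp hp' hs' hsl hpos hneg hv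
    have hne : a ≠ b := fun h => hab (by rw [h])
    -- membership
    have hmem : ∀ x : Fin N × Fin N, x ∈ tkset p' κ Q → x ∈ T := by
      intro x hx
      rw [hT, mem_union]
      rcases hκ with h | h
      · left; rw [← h]; exact hx
      · right
        rw [if_neg (by omega), show k - 1 = κ by omega]
        exact hx
    have hsum := card_inter hp' hne ha hb
    have hκ2 : κ + 2 ≤ Q.card := by rcases hcard with h | h <;> omega
    rcases lt_or_gt_of_ne hne with hlt | hlt
    · refine ⟨(a, b), hmem _ ?_, hab, hav, hbv⟩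
      unfold tkset
      rw [if_pos hκ2, mem_union, mem_sidePairs, mem_sidePairs]
      rcases hcard with h | h
      · left
        exact ⟨hlt, ha, hb, h, by simp only; omega⟩
      · right
        exact ⟨hlt, ha, hb, by simp only; omega, h⟩
    · refine ⟨(b, a), hmem _ ?_, hab.symm, hbv, hav⟩
      unfold tkset
      rw [if_pos hκ2, mem_union, mem_sidePairs, mem_sidePairs]
      simp only
      rw [PA_swap p' a b, PB_swap p' a b]
      rcases hcard with h | h
      · right
        exact ⟨hlt, hb, ha, by omega, h⟩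
      · left
        exact ⟨hlt, hb, ha, h, by omega⟩
  unfold complexity
  rcases Set.eq_empty_or_nonempty {v | IsVertex (Q.image p) k v} with h0 | ⟨v₀, hv₀⟩
  · rw [h0]; simp
  haveI : Nonempty (Fin N × Fin N) := ⟨(hex v₀ hv₀).choose⟩
  choose! f hf using hex
  rw [← Set.ncard_coe_finset T]
  apply Set.ncard_le_ncard_of_injOn f
  · intro v hv
    exact (hf v hv).1
  · intro v hv v' hv' heq
    obtain ⟨-, h1, h2, h3⟩ := hf v hv
    obtain ⟨-, -, h2', h3'⟩ := hf v' hv'
    rw [← heq] at h2' h3'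
    unfold height at h2 h3 h2' h3'
    have e1 : ((p (f v).1).1 - (p (f v).2).1) * (v.1 - v'.1) = 0 := by linarith
    have e2 := (mul_eq_zero.mp e1).resolve_left (sub_ne_zero.2 h1)
    have e3 : v.1 = v'.1 := by linarith
    refine Prod.ext e3 ?_
    rw [← h2, ← h2', e3]

theorem sum_tk {p : Fin N → ℝ × ℝ} (hp : General p) (h : n < N) (κ : ℕ) :
    ((∑ Q ∈ (univ : Finset (Fin N)).powersetCard n, tk p κ Q : ℕ) : ℝ) ≤
      2688 * (2616 * SS * n * ((min κ (n - 2 - κ) : ℕ) + 1) ^ (1 / 6 : ℝ)) *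
        Real.sqrt ((N : ℝ) / ((N : ℝ) - n)) * (N.choose n) := by
  have hSS := SS_ge
  by_cases hκ : κ + 2 ≤ n
  · have e : ∑ Q ∈ (univ : Finset (Fin N)).powersetCard n, tk p κ Q =
        ∑ Q ∈ (univ : Finset (Fin N)).powersetCard n, ((sidePairs p κ (n - 2 - κ) Q).card +
          (sidePairs p (n - 2 - κ) κ Q).card) := by
      apply sum_congr rfl
      intro Q hQ
      rw [mem_powersetCard] at hQ
      unfold tk
      rw [hQ.2, if_pos hκ]
    rw [e]
    exact sum_sidePairs (k := κ) (k' := n - 2 - κ) hp (by omega) h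
  · have e : ∑ Q ∈ (univ : Finset (Fin N)).powersetCard n, tk p κ Q = 0 := by
      apply sum_eq_zero
      intro Q hQ
      rw [mem_powersetCard] at hQ
      unfold tk
      rw [hQ.2, if_neg hκ]
    rw [e, Nat.cast_zero]
    positivity

/-- the average complexity of the `k`-level of the `n`-element subsets of an arbitrary set of
lines -/
theorem avg_complexity (Γ : Finset (ℝ × ℝ)) (h : n < Γ.card) (k : ℕ) :
    ((∑ Q ∈ Γ.powersetCard n, complexity Q k : ℕ) : ℝ) ≤
      5376 * (2616 * SS * n * ((min k (n - 1 - k) : ℕ) + 1) ^ (1 / 6 : ℝ)) *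
        Real.sqrt ((Γ.card : ℝ) / ((Γ.card : ℝ) - n)) * (Γ.card.choose n) := by
  classical
  have hSS := SS_ge
  set N := Γ.card with hNdef
  set p : Fin N → ℝ × ℝ := fun i => ((Γ.equivFin.symm i : Γ) : ℝ × ℝ) with hp
  have hpe : ∀ y : Γ, p (Γ.equivFin y) = (y : ℝ × ℝ) := fun y => by
    show ((Γ.equivFin.symm (Γ.equivFin y) : Γ) : ℝ × ℝ) = y
    rw [Equiv.symm_apply_apply]
  have hpinj : Function.Injective p := fun i j hij => by
    have : Γ.equivFin.symm i = Γ.equivFin.symm j := Subtype.ext hij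
    exact Γ.equivFin.symm.injective this
  have hΓimg : Γ = (univ : Finset (Fin N)).map ⟨p, hpinj⟩ := by
    ext x
    rw [Finset.mem_map]
    constructor
    · intro hx
      exact ⟨Γ.equivFin ⟨x, hx⟩, mem_univ _, hpe ⟨x, hx⟩⟩
    · rintro ⟨i, -, rfl⟩
      exact (Γ.equivFin.symm i).2
  obtain ⟨p', hp', hs', hsl, hpos, hneg⟩ := exists_pert p
  have hT : ∑ Q ∈ Γ.powersetCard n, complexity Q k =
      ∑ Q ∈ (univ : Finset (Fin N)).powersetCard n, complexity (Q.image p) k := by
    conv_lhs => rw [hΓimg, Finset.powersetCard_map, sum_map]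
    apply sum_congr rfl
    intro Q _
    have : (Finset.mapEmbedding (⟨p, hpinj⟩ : Fin N ↪ ℝ × ℝ)).toEmbedding Q = Q.image p := by
      show Q.map ⟨p, hpinj⟩ = Q.image p
      rw [Finset.map_eq_image]
      rfl
    rw [this]
  rw [hT]
  set R : ℝ := Real.sqrt ((N : ℝ) / ((N : ℝ) - n)) with hR
  have hR0 : 0 ≤ R := Real.sqrt_nonneg _
  set g : ℝ := ((min k (n - 1 - k) : ℕ) + 1 : ℝ) ^ (1 / 6 : ℝ) with hg
  have hg0 : 0 ≤ g := by positivity
  have hmono : ∀ m : ℕ, m ≤ min k (n - 1 - k) →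
      2688 * (2616 * SS * n * ((m : ℝ) + 1) ^ (1 / 6 : ℝ)) * R * (N.choose n) ≤
      2688 * (2616 * SS * n * g) * R * (N.choose n) := by
    intro m hm
    have : ((m : ℝ) + 1) ^ (1 / 6 : ℝ) ≤ g := by
      apply Real.rpow_le_rpow (by positivity) _ (by norm_num)
      have : (m : ℝ) ≤ (min k (n - 1 - k) : ℕ) := Nat.cast_le.mpr hm
      linarith
    gcongr
  have b1 : ((∑ Q ∈ (univ : Finset (Fin N)).powersetCard n, tk p' k Q : ℕ) : ℝ) ≤
      2688 * (2616 * SS * n * g) * R * (N.choose n) :=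
    (sum_tk hp' h k).trans (hmono _ (by omega))
  have b2 : ((∑ Q ∈ (univ : Finset (Fin N)).powersetCard n,
      (if k = 0 then 0 else tk p' (k - 1) Q) : ℕ) : ℝ) ≤
      2688 * (2616 * SS * n * g) * R * (N.choose n) := by
    by_cases hk : k = 0
    · simp only [if_pos hk, sum_const_zero, Nat.cast_zero]
      positivity
    · simp only [if_neg hk]
      exact (sum_tk hp' h (k - 1)).trans (hmono _ (by omega))
  have b3 : ∑ Q ∈ (univ : Finset (Fin N)).powersetCard n, complexity (Q.image p) k ≤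
      ∑ Q ∈ (univ : Finset (Fin N)).powersetCard n, tk p' k Q +
      ∑ Q ∈ (univ : Finset (Fin N)).powersetCard n,
        (if k = 0 then 0 else tk p' (k - 1) Q) := by
    rw [← sum_add_distrib]
    exact sum_le_sum fun Q _ => complexity_le_tk hpinj hp' hs' hsl hpos hneg Q k
  have b4 : ((∑ Q ∈ (univ : Finset (Fin N)).powersetCard n, complexity (Q.image p) k : ℕ) : ℝ) ≤
      ((∑ Q ∈ (univ : Finset (Fin N)).powersetCard n, tk p' k Q : ℕ) : ℝ) +
      ((∑ Q ∈ (univ : Finset (Fin N)).powersetCard n,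
        (if k = 0 then 0 else tk p' (k - 1) Q) : ℕ) : ℝ) := by
    rw [← Nat.cast_add]
    exact Nat.cast_le.2 b3
  calc _ ≤ _ := b4
    _ ≤ 2688 * (2616 * SS * n * g) * R * (N.choose n) +
        2688 * (2616 * SS * n * g) * R * (N.choose n) := add_le_add b1 b2
    _ = _ := by ring

end Pool.Agent.L0h67.HL
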