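import Pool.Agent.L0h67.HL.Del2
import Pool.Agent.L0h67.HL.Stir

/-! For every set of `n` points there is a law for which `n ^ 2` random points have on average at least
`n / 40` times as many halving pairs as the set. -/

set_option autoImplicit false

namespace Pool.Agent.L0h67.HL

open Finset MeasureTheory Filter Pool.Agent.R117.KR Pool.Agent.H189R2.Lev Pool.Agent.H189R2.Iid
open scoped ENNReal Topology

variable {n N : ℕ}

/-- the positive side of the line through the points `i`, `j` -/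
def posRS {U : Finset (Fin n)} (i j : Fin n) (hU : ∀ l ∈ U, l ≠ i ∧ l ≠ j) :
    RandSet n U (ℝ × ℝ) where
  Lo P y := 0 < side (P i) (P j) y
  meas := by
    have m1 : ∀ i : Fin n, Measurable (fun p : (Fin n → ℝ × ℝ) × (ℝ × ℝ) => p.1 i) :=
      fun i => (measurable_pi_apply i).comp measurable_fst
    have m2 : Measurable (fun p : (Fin n → ℝ × ℝ) × (ℝ × ℝ) => p.2) := measurable_snd
    unfold side
    exact measurableSet_lt measurable_const
      ((((m1 j).fst.sub (m1 i).fst).mul (m2.snd.sub (m1 i).snd)).sub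
        (((m1 j).snd.sub (m1 i).snd).mul (m2.fst.sub (m1 i).fst)))
  inv := by
    intro l hl P y z
    rw [Function.update_of_ne (hU l hl).1.symm, Function.update_of_ne (hU l hl).2.symm]

/-- the law of the discs gives the sides of the lines through two discs at least the masses of the
sides of the lines through the centres -/
theorem mass_side {p : Fin n → ℝ × ℝ} {ε : ℝ} (hε : 0 < ε)
    (hst : ∀ i j l, i ≠ j → i ≠ l → j ≠ l →
      ∀ x y z, x ∈ Metric.ball (p i) ε → y ∈ Metric.ball (p j) ε → z ∈ Metric.ball (p l) ε →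
      ((0 < side x y z ↔ 0 < side (p i) (p j) (p l)) ∧
        (side x y z < 0 ↔ side (p i) (p j) (p l) < 0)))
    (hd : ∀ i j, i ≠ j → Disjoint (Metric.ball (p i) ε) (Metric.ball (p j) ε))
    {a b : Fin n} (hab : a ≠ b) {x y : ℝ × ℝ} (hx : x ∈ Metric.ball (p a) ε)
    (hy : y ∈ Metric.ball (p b) ε) :
    ((PA p a b).card : ℝ≥0∞) * (n : ℝ≥0∞)⁻¹ ≤ mu p ε {z | 0 < side x y z} ∧
      ((PB p a b).card : ℝ≥0∞) * (n : ℝ≥0∞)⁻¹ ≤ mu p ε {z | side x y z < 0} := by
  have key : ∀ (T : Finset (Fin n)) (s : Set (ℝ × ℝ)),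
      (∀ c ∈ T, Metric.ball (p c) ε ⊆ s) → (T.card : ℝ≥0∞) * (n : ℝ≥0∞)⁻¹ ≤ mu p ε s := by
    intro T s hT
    have h1 : mu p ε (⋃ c ∈ T, Metric.ball (p c) ε) = ∑ c ∈ T, mu p ε (Metric.ball (p c) ε) :=
      measure_biUnion_finset (fun c _ c' _ hcc => hd c c' hcc)
        (fun c _ => Metric.isOpen_ball.measurableSet)
    calc (T.card : ℝ≥0∞) * (n : ℝ≥0∞)⁻¹ = ∑ c ∈ T, (n : ℝ≥0∞)⁻¹ := by
          rw [sum_const, nsmul_eq_mul]
      _ ≤ ∑ c ∈ T, mu p ε (Metric.ball (p c) ε) := sum_le_sum fun c _ => mu_ball hε c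
      _ = _ := h1.symm
      _ ≤ _ := measure_mono (Set.iUnion₂_subset hT)
  constructor
  · apply key
    intro c hc z hz
    rw [mem_PA] at hc
    have hac : a ≠ c := by
      rintro rfl; rw [side_self_left] at hc; exact lt_irrefl _ hc
    have hbc : b ≠ c := by
      rintro rfl; rw [side_self_right] at hc; exact lt_irrefl _ hc
    exact ((hst a b c hab hac hbc x y z hx hy hz).1).2 hc
  · apply key
    intro c hc z hz
    rw [mem_PB] at hc
    have hac : a ≠ c := by
      rintro rfl; rw [side_self_left] at hc; exact lt_irrefl _ hc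
    have hbc : b ≠ c := by
      rintro rfl; rw [side_self_right] at hc; exact lt_irrefl _ hc
    exact ((hst a b c hab hac hbc x y z hx hy hz).2).2 hc

/-- `4 ^ M ≤ 2 √M C(2 M, M)` -/
theorem central_sq (M : ℕ) (hM : 1 ≤ M) : 16 ^ M ≤ 4 * M * (Nat.centralBinom M) ^ 2 := by
  induction M, hM using Nat.le_induction with
  | base => simp [Nat.centralBinom]
  | succ m hm ih =>
    have h := Nat.succ_mul_centralBinom_succ m
    have h1 : (m + 1) ^ 2 * (16 ^ (m + 1)) ≤ (m + 1) ^ 2 * (4 * (m + 1) *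
        (Nat.centralBinom (m + 1)) ^ 2) := by
      calc (m + 1) ^ 2 * (16 ^ (m + 1)) = 16 * (m + 1) ^ 2 * 16 ^ m := by ring
        _ ≤ 16 * (m + 1) ^ 2 * (4 * m * (Nat.centralBinom m) ^ 2) := Nat.mul_le_mul_left _ ih
        _ ≤ 4 * (m + 1) * (2 * (2 * m + 1) * Nat.centralBinom m) ^ 2 := by
            have : 16 * (m + 1) ^ 2 * (4 * m) ≤ 4 * (m + 1) * (2 * (2 * m + 1)) ^ 2 := by nlinarith
            calc 16 * (m + 1) ^ 2 * (4 * m * (Nat.centralBinom m) ^ 2) =
                  16 * (m + 1) ^ 2 * (4 * m) * (Nat.centralBinom m) ^ 2 := by ring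
              _ ≤ 4 * (m + 1) * (2 * (2 * m + 1)) ^ 2 * (Nat.centralBinom m) ^ 2 :=
                  Nat.mul_le_mul_right _ this
              _ = _ := by ring
        _ = 4 * (m + 1) * ((m + 1) * Nat.centralBinom (m + 1)) ^ 2 := by rw [h]
        _ = _ := by ring
    exact Nat.le_of_mul_le_mul_left h1 (by positivity)

/-- `(1 - 1 / m) ^ (2 m - 1) ≥ exp (-3)` -/
theorem pow_exp {m : ℕ} (hm : 2 ≤ m) : Real.exp (-3) ≤ (1 - 1 / (m : ℝ)) ^ (2 * m - 1) := by
  have hm' : (2 : ℝ) ≤ m := by exact_mod_cast hm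
  have h0 : (0 : ℝ) < m - 1 := by linarith
  have h1 : Real.exp (-(1 / ((m : ℝ) - 1))) ≤ 1 - 1 / (m : ℝ) := by
    have h2 := Real.add_one_le_exp (1 / ((m : ℝ) - 1))
    have h3 : 1 ≤ (1 - 1 / (m : ℝ)) * Real.exp (1 / ((m : ℝ) - 1)) := by
      have h4 : (1 - 1 / (m : ℝ)) * (1 / ((m : ℝ) - 1) + 1) = 1 := by
        field_simp
        ring
      have h5 : 1 / (m : ℝ) ≤ 1 := by
        rw [div_le_one (by linarith)]; linarith
      exact h4.symm.le.trans (mul_le_mul_of_nonneg_left h2 (by linarith))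
    rw [Real.exp_neg, inv_le_iff_one_le_mul₀ (Real.exp_pos _)]
    exact h3
  have h5 := pow_le_pow_left₀ (Real.exp_pos _).le h1 (2 * m - 1)
  rw [← Real.exp_nat_mul] at h5
  refine le_trans (Real.exp_le_exp.2 ?_) h5
  have h6 : ((2 * m - 1 : ℕ) : ℝ) = 2 * m - 1 := by
    push_cast [Nat.cast_sub (show 1 ≤ 2 * m by omega)]; ring
  rw [h6]
  have h7 : (2 * (m : ℝ) - 1) * (1 / ((m : ℝ) - 1)) ≤ 3 := by
    rw [mul_one_div, div_le_iff₀ h0]
    linarith
  linarith

/-- the probability of a halving pair with given balls -/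
theorem pair_prob_ge {p : Fin n → ℝ × ℝ} {ε : ℝ} (hε : 0 < ε) (hp : General p)
    (hst : ∀ i j l, i ≠ j → i ≠ l → j ≠ l →
      ∀ x y z, x ∈ Metric.ball (p i) ε → y ∈ Metric.ball (p j) ε → z ∈ Metric.ball (p l) ε →
      ((0 < side x y z ↔ 0 < side (p i) (p j) (p l)) ∧
        (side x y z < 0 ↔ side (p i) (p j) (p l) < 0)))
    (hd : ∀ i j, i ≠ j → Disjoint (Metric.ball (p i) ε) (Metric.ball (p j) ε))
    {h : ℕ} (hn : n = 2 * h + 2) (hh : 1 ≤ h) {a b : Fin n} (hab : a ≠ b)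
    (hA : (PA p a b).card = h) {i j : Fin (n ^ 2)} (hij : i ≠ j) :
    ENNReal.ofReal (2 / 3 * Real.exp (-3) / n ^ 3) ≤ Measure.pi (fun _ : Fin (n ^ 2) => mu p ε)
      {P | (P i ∈ Metric.ball (p a) ε ∧ P j ∈ Metric.ball (p b) ε) ∧
        (pos P i j).ncard = n ^ 2 / 2 - 1} := by
  classical
  have hn0 : n ≠ 0 := by omega
  have := isProb_mu hn0 (p := p) hε
  have hB : (PB p a b).card = h := by
    have := card_PA_PB hp hab
    omega
  set μ := mu p ε with hμ
  set M : ℕ := n ^ 2 / 2 - 1 with hM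
  have hn2 : n ^ 2 = 2 * (2 * (h + 1) ^ 2) := by rw [hn]; ring
  have hM2 : M = 2 * (h + 1) ^ 2 - 1 := by rw [hM, hn2]; omega
  have hm4 : 4 ≤ (h + 1) ^ 2 := by nlinarith
  set U : Finset (Fin (n ^ 2)) := (univ.erase i).erase j with hU
  have hUl : ∀ l ∈ U, l ≠ i ∧ l ≠ j := by
    intro l hl
    rw [hU, mem_erase, mem_erase] at hl
    exact ⟨hl.2.1, hl.1⟩
  have hUc : U.card = 2 * M := by
    rw [hU, card_erase_of_mem (by rw [mem_erase]; exact ⟨hij.symm, mem_univ _⟩),
      card_erase_of_mem (mem_univ _), card_univ, Fintype.card_fin]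
    omega
  set B : Set (Fin (n ^ 2) → ℝ × ℝ) :=
    {P | P i ∈ Metric.ball (p a) ε ∧ P j ∈ Metric.ball (p b) ε} with hBdef
  have hBm : MeasurableSet B :=
    ((measurable_pi_apply i) Metric.isOpen_ball.measurableSet).inter
      ((measurable_pi_apply j) Metric.isOpen_ball.measurableSet)
  have hbin := (posRS i j hUl).binomial μ hBm (fun l hl P y => by
    show (Function.update P l y i ∈ _ ∧ Function.update P l y j ∈ _) ↔ _
    rw [Function.update_of_ne (hUl l hl).1.symm, Function.update_of_ne (hUl l hl).2.symm]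
    exact Iff.rfl) M
  have e : {P | (P i ∈ Metric.ball (p a) ε ∧ P j ∈ Metric.ball (p b) ε) ∧
        (pos P i j).ncard = n ^ 2 / 2 - 1} = {P | P ∈ B ∧ (posRS i j hUl).cnt P = M} := by
    ext P
    refine and_congr_right (fun _ => ?_)
    have : (pos P i j).ncard = (posRS i j hUl).cnt P := by
      unfold RandSet.cnt
      rw [← Set.ncard_coe_finset]
      congr 1
      ext l
      rw [mem_coe, mem_filter]
      constructor
      · intro hl
        have hl' : 0 < side (P i) (P j) (P l) := hl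
        refine ⟨?_, hl'⟩
        rw [hU, mem_erase, mem_erase]
        refine ⟨?_, ?_, mem_univ _⟩
        · intro h0; rw [h0, side_self_right] at hl'; exact lt_irrefl _ hl'
        · intro h0; rw [h0, side_self_left] at hl'; exact lt_irrefl _ hl'
      · intro hl
        exact hl.2
    rw [this]
  rw [e, hbin, hUc]
  have e2 : 2 * M - M = M := by omega
  rw [e2]
  -- the mass of `B`
  have hπB : ((n : ℝ≥0∞)⁻¹) ^ 2 ≤ Measure.pi (fun _ : Fin (n ^ 2) => μ) B := by
    have hBeq : B = Set.pi Set.univ (fun l => if l = i then Metric.ball (p a) ε else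
        if l = j then Metric.ball (p b) ε else Set.univ) := by
      ext P
      simp only [Set.mem_univ_pi]
      constructor
      · intro hP l
        split_ifs with h1 h2
        · rw [h1]; exact hP.1
        · rw [h2]; exact hP.2
        · exact Set.mem_univ _
      · intro hP
        have h1 := hP i
        have h2 := hP j
        rw [if_pos rfl] at h1
        rw [if_neg hij.symm, if_pos rfl] at h2
        exact ⟨h1, h2⟩
    rw [hBeq, Measure.pi_pi, Fintype.prod_eq_mul i j hij (fun l hl => by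
      rw [if_neg hl.1, if_neg hl.2, measure_univ]), if_pos rfl, if_neg hij.symm, if_pos rfl, sq]
    exact mul_le_mul' (mu_ball hε a) (mu_ball hε b)
  -- the binomial probability
  have hn' : (0 : ℝ) < n := by exact_mod_cast (by omega : 0 < n)
  set m : ℕ := (h + 1) ^ 2 with hmdef
  have hm' : (4 : ℝ) ≤ m := by exact_mod_cast hm4
  have hnm : (n : ℝ) ^ 2 = 4 * m := by
    have : n ^ 2 = 4 * m := by rw [hn2]; ring
    exact_mod_cast this
  set v : ℝ := 1 / 4 * (1 - 1 / (m : ℝ)) with hv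
  have hv0 : 0 ≤ v := by
    have : 1 / (m : ℝ) ≤ 1 := by rw [div_le_one (by linarith)]; linarith
    rw [hv]; linarith [this]
  have hF : ∀ P ∈ B, v ≤ (posRS i j hUl).F μ P * (1 - (posRS i j hUl).F μ P) := by
    intro P hP
    obtain ⟨h1, h2⟩ := mass_side hε hst hd hab hP.1 hP.2
    rw [hA] at h1
    rw [hB] at h2
    have hq : (h : ℝ) / n ≤ (posRS i j hUl).F μ P := by
      have h3 : (h : ℝ≥0∞) * (n : ℝ≥0∞)⁻¹ = ENNReal.ofReal ((h : ℝ) / n) := by
        rw [div_eq_mul_inv, ENNReal.ofReal_mul (by positivity), ENNReal.ofReal_natCast,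
          ENNReal.ofReal_inv_of_pos hn', ENNReal.ofReal_natCast]
      rw [h3] at h1
      have h4 : ENNReal.ofReal ((h : ℝ) / n) ≤ ENNReal.ofReal ((posRS i j hUl).F μ P) := by
        rw [(posRS i j hUl).ofReal_F]
        exact h1
      exact (ENNReal.ofReal_le_ofReal_iff ((posRS i j hUl).F_nonneg μ P)).1 h4
    have hr : (h : ℝ) / n ≤ 1 - (posRS i j hUl).F μ P := by
      have h3 : (h : ℝ≥0∞) * (n : ℝ≥0∞)⁻¹ = ENNReal.ofReal ((h : ℝ) / n) := by
        rw [div_eq_mul_inv, ENNReal.ofReal_mul (by positivity), ENNReal.ofReal_natCast,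
          ENNReal.ofReal_inv_of_pos hn', ENNReal.ofReal_natCast]
      rw [h3] at h2
      have h4 : ENNReal.ofReal ((h : ℝ) / n) ≤ ENNReal.ofReal (1 - (posRS i j hUl).F μ P) := by
        rw [(posRS i j hUl).ofReal_one_sub_F]
        refine h2.trans (measure_mono fun z hz => ?_)
        exact not_lt.2 (le_of_lt hz)
      exact (ENNReal.ofReal_le_ofReal_iff (by
        have := (posRS i j hUl).F_le_one μ P; linarith)).1 h4
    have hnh : (n : ℝ) = 2 * h + 2 := by rw [hn]; push_cast; ring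
    have hmh : (m : ℝ) = (h + 1) ^ 2 := by rw [hmdef]; push_cast; ring
    have hh0 : (0 : ℝ) < (h : ℝ) + 1 := by positivity
    have e3 : v = (h / n) * (1 - h / n) := by
      rw [hv, hmh, hnh]
      field_simp
      ring
    rw [e3]
    nlinarith
  have hint : ENNReal.ofReal (v ^ M) * Measure.pi (fun _ : Fin (n ^ 2) => μ) B ≤
      ∫⁻ P in B, ENNReal.ofReal ((posRS i j hUl).F μ P ^ M * (1 - (posRS i j hUl).F μ P) ^ M)
        ∂Measure.pi (fun _ : Fin (n ^ 2) => μ) := by
    rw [← setLIntegral_const]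
    apply setLIntegral_mono' hBm
    intro P hP
    apply ENNReal.ofReal_le_ofReal
    rw [← mul_pow]
    exact pow_le_pow_left₀ hv0 (hF P hP) M
  have hreal : 2 / 3 * Real.exp (-3) / n ^ 3 ≤
      ((2 * M).choose M : ℝ) * (v ^ M * (((n : ℝ)⁻¹) ^ 2)) := by
    have hM1 : 1 ≤ M := by omega
    have h1 := central_sq M hM1
    have h2 := pow_exp (m := m) (by omega)
    rw [← hM2] at h2
    have h3 : v ^ M = (1 - 1 / (m : ℝ)) ^ M / 4 ^ M := by
      rw [hv, mul_pow, div_pow, one_pow]; ring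
    have h4 : (4 : ℝ) ^ M ≤ 3 / 2 * n * ((2 * M).choose M : ℝ) := by
      have h5 : ((16 : ℝ)) ^ M ≤ 4 * M * ((2 * M).choose M : ℝ) ^ 2 := by
        have : ((16 ^ M : ℕ) : ℝ) ≤ ((4 * M * (Nat.centralBinom M) ^ 2 : ℕ) : ℝ) :=
          Nat.cast_le.2 h1
        push_cast [Nat.centralBinom] at this
        exact this
      have h6 : (M : ℝ) ≤ n ^ 2 / 2 := by
        have : 2 * M ≤ n ^ 2 := by omega
        have h7 : ((2 * M : ℕ) : ℝ) ≤ ((n ^ 2 : ℕ) : ℝ) := Nat.cast_le.2 this
        push_cast at h7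
        linarith
      have h8 : ((4 : ℝ) ^ M) ^ 2 ≤ (3 / 2 * n * ((2 * M).choose M : ℝ)) ^ 2 := by
        have e4 : ((4 : ℝ) ^ M) ^ 2 = 16 ^ M := by
          rw [← pow_mul, mul_comm, pow_mul]; norm_num
        rw [e4]
        refine h5.trans ?_
        have h9 : 4 * (M : ℝ) ≤ 9 / 4 * n ^ 2 := by nlinarith [sq_nonneg (n : ℝ)]
        calc 4 * (M : ℝ) * ((2 * M).choose M : ℝ) ^ 2 ≤
              9 / 4 * n ^ 2 * ((2 * M).choose M : ℝ) ^ 2 :=
              mul_le_mul_of_nonneg_right h9 (sq_nonneg _)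
          _ = _ := by ring
      exact le_of_sq_le_sq h8 (by positivity)
    rw [h3]
    have hC0 : (0 : ℝ) ≤ ((2 * M).choose M : ℝ) := by positivity
    have h10 : (2 : ℝ) / 3 / n ≤ ((2 * M).choose M : ℝ) / 4 ^ M := by
      rw [div_le_div_iff₀ hn' (by positivity)]
      linarith
    calc 2 / 3 * Real.exp (-3) / (n : ℝ) ^ 3 = (2 / 3 / n) * Real.exp (-3) * ((n : ℝ)⁻¹) ^ 2 := by
          field_simp
      _ ≤ (((2 * M).choose M : ℝ) / 4 ^ M) * (1 - 1 / (m : ℝ)) ^ M * ((n : ℝ)⁻¹) ^ 2 := by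
          apply mul_le_mul_of_nonneg_right _ (by positivity)
          exact mul_le_mul h10 h2 (Real.exp_pos _).le (by positivity)
      _ = _ := by ring
  calc ENNReal.ofReal (2 / 3 * Real.exp (-3) / n ^ 3) ≤
        ENNReal.ofReal (((2 * M).choose M : ℝ) * (v ^ M * (((n : ℝ)⁻¹) ^ 2))) :=
        ENNReal.ofReal_le_ofReal hreal
    _ = ((2 * M).choose M : ℝ≥0∞) * (ENNReal.ofReal (v ^ M) * ((n : ℝ≥0∞)⁻¹) ^ 2) := by
        rw [ENNReal.ofReal_mul (by positivity), ENNReal.ofReal_natCast,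
          ENNReal.ofReal_mul (pow_nonneg hv0 _),
          ENNReal.ofReal_pow (show (0 : ℝ) ≤ (n : ℝ)⁻¹ by positivity),
          ENNReal.ofReal_inv_of_pos hn', ENNReal.ofReal_natCast]
    _ ≤ _ := mul_le_mul_right ((mul_le_mul_right hπB _).trans hint) _

end Pool.Agent.L0h67.HL
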