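import Pool.Agent.L0h67.HL.Low
import Pool.Agent.L0h67.HL.Gen2

/-! The expected number of bisectors of `n ^ 2` random points is, for suitable laws, at least `n / 40`
times the number of bisectors of a given set of `n` points. -/

set_option autoImplicit false

namespace Pool.Agent.L0h67.HL

open Finset MeasureTheory Filter Pool.Agent.R117.KR Pool.Agent.H189R2.Lev Pool.Agent.H189R2.Iid
open scoped ENNReal Topology

variable {n N : ℕ}

open Classical in
theorem bisectors_finite (P : Finset (ℝ × ℝ)) : {L | IsBisector P L}.Finite := by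
  refine (kline_finite P (P.card / 2 - 1)).subset ?_
  rintro L ⟨a, b, c, h1, h2, h3, -, h5⟩
  exact ⟨a, b, c, h1, h2, h3, h5⟩

open Classical in
/-- in general position the bisectors correspond to the halving pairs -/
theorem bisectors_eq {P : Fin n → ℝ × ℝ} (hP : General P) :
    {L | IsBisector (univ.image P) L}.ncard = (halving P).ncard := by
  apply le_antisymm (bisectors_le hP.1)
  have hline : ∀ p q : ℝ × ℝ, {r | side p q r = 0} = Line (-(q.2 - p.2)) (q.1 - p.1)
      (-(q.2 - p.2) * p.1 + (q.1 - p.1) * p.2) := by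
    intro p q
    ext r
    simp only [Line, Set.mem_ofPred_eq, side]
    constructor <;> intro h <;> linarith
  apply Set.ncard_le_ncard_of_injOn (fun q : Fin n × Fin n => {r | side (P q.1) (P q.2) r = 0})
    (ht := bisectors_finite _)
  · rintro ⟨i, j⟩ ⟨hij, h1, h2⟩
    simp only at hij h1 h2 ⊢
    have hne : P i ≠ P j := fun h => hij.ne (hP.1 h)
    refine ⟨-((P j).2 - (P i).2), (P j).1 - (P i).1,
      -((P j).2 - (P i).2) * (P i).1 + ((P j).1 - (P i).1) * (P i).2, ?_, hline _ _, ?_, ?_, ?_⟩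
    · by_contra hcon
      push Not at hcon
      apply hne
      refine Prod.ext ?_ ?_
      · linarith [hcon.2]
      · linarith [hcon.1]
    · exact ⟨P i, mem_image_of_mem _ (mem_univ _), P j, mem_image_of_mem _ (mem_univ _), hne,
        side_self_left _ _, side_self_right _ _⟩
    · rw [card_image_filter hP.1, card_image hP.1, ← h2]
      congr 1
      ext l
      simp only [neg, Set.mem_ofPred_eq, side]
      constructor <;> intro h <;> linarith
    · rw [card_image_filter hP.1, card_image hP.1, ← h1]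
      congr 1
      ext l
      simp only [pos, Set.mem_ofPred_eq, side]
      constructor <;> intro h <;> linarith
  · rintro ⟨i, j⟩ ⟨hij, -, -⟩ ⟨i', j'⟩ ⟨hij', -, -⟩ heq
    simp only at hij hij' heq
    have hi' : side (P i) (P j) (P i') = 0 := by
      have : P i' ∈ {r | side (P i) (P j) r = 0} := by
        rw [heq]; exact side_self_left _ _
      exact this
    have hj' : side (P i) (P j) (P j') = 0 := by
      have : P j' ∈ {r | side (P i) (P j) r = 0} := by
        rw [heq]; exact side_self_right _ _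
      exact this
    have key : ∀ l, side (P i) (P j) (P l) = 0 → l = i ∨ l = j := by
      intro l hl
      by_contra hcon
      push Not at hcon
      exact hP.2 i j l hij.ne (Ne.symm hcon.1) (Ne.symm hcon.2) hl
    rcases key i' hi' with h1 | h1 <;> rcases key j' hj' with h2 | h2
    · rw [h1, h2] at hij'; exact absurd hij' (lt_irrefl _)
    · rw [h1, h2]
    · rw [h1, h2] at hij'; exact absurd hij' (lt_asymm hij)
    · rw [h1, h2] at hij'; exact absurd hij' (lt_irrefl _)

theorem exp_three : 1 ≤ 40 * (2 / 3 * Real.exp (-3)) * (15 / 16) := by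
  have h1 := Real.exp_one_lt_d9
  have h2 : Real.exp 3 = Real.exp 1 ^ 3 := by rw [← Real.exp_nat_mul]; norm_num
  have h3 : Real.exp 3 < 21 := by
    rw [h2]
    calc Real.exp 1 ^ 3 < 2.7182818286 ^ 3 := pow_lt_pow_left₀ h1 (Real.exp_pos _).le (by norm_num)
      _ < 21 := by norm_num
  have h4 : 1 / 21 < Real.exp (-3) := by
    rw [Real.exp_neg, one_div]
    exact inv_strictAnti₀ (Real.exp_pos _) h3
  linarith

open Classical in
/-- worst case and average case -/
theorem expect_ge {p : Fin n → ℝ × ℝ} (hp : General p) (hn : Even n) (h4 : 4 ≤ n) :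
    ∃ μ : Measure (ℝ × ℝ), IsProbabilityMeasure μ ∧ LN μ ∧
      ((n * (halving p).ncard : ℕ) : ℝ≥0∞) ≤
        40 * ∫⁻ P, ((halving P).ncard : ℝ≥0∞) ∂Measure.pi (fun _ : Fin (n ^ 2) => μ) := by
  obtain ⟨ε, hε, hst, hd⟩ := exists_radius hp
  obtain ⟨h, hnh⟩ : ∃ h, n = 2 * h + 2 := by
    obtain ⟨m, hm⟩ := hn
    exact ⟨m - 1, by omega⟩
  have hh : 1 ≤ h := by omega
  have hprob := isProb_mu (show n ≠ 0 by omega) (p := p) hε
  refine ⟨mu p ε, hprob, LN_mu, ?_⟩
  set π := Measure.pi (fun _ : Fin (n ^ 2) => mu p ε) with hπ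
  set c₀ : ℝ≥0∞ := ENNReal.ofReal (2 / 3 * Real.exp (-3) / n ^ 3) with hc₀
  -- the ordered halving pairs of `p`
  set D : Finset (Fin n × Fin n) :=
    (univ : Finset (Fin n)).offDiag.filter (fun x => (PA p x.1 x.2).card = h) with hD
  have hDcard : D.card = 2 * (halving p).ncard := by
    have e1 : D.card = ∑ x ∈ (univ : Finset (Fin n)).offDiag,
        if (PA p x.1 x.2).card = h then 1 else 0 := by rw [hD, card_filter]
    rw [e1, sum_offDiag' (fun x => if (PA p x.1 x.2).card = h then 1 else 0)]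
    have e2 : halving p = (((univ : Finset (Fin n × Fin n)).filter (fun x => x.1 < x.2)).filter
        (fun x => (PA p x.1 x.2).card = h) : Finset (Fin n × Fin n)) := by
      ext ⟨a, b⟩
      rw [mem_coe, mem_filter, mem_filter]
      have e3 : pos p a b = (PA p a b : Set (Fin n)) := by
        ext c; rw [mem_coe, mem_PA]; rfl
      have e4 : neg p a b = (PB p a b : Set (Fin n)) := by
        ext c; rw [mem_coe, mem_PB]; rfl
      constructor
      · rintro ⟨h1, h2, -⟩
        simp only at h1 h2 ⊢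
        rw [e3, Set.ncard_coe_finset] at h2
        exact ⟨⟨mem_univ _, h1⟩, by omega⟩
      · rintro ⟨⟨-, h1⟩, h2⟩
        simp only at h1 h2
        have h3 := card_PA_PB hp h1.ne
        refine ⟨h1, ?_, ?_⟩
        · simp only; rw [e3, Set.ncard_coe_finset]; omega
        · simp only; rw [e4, Set.ncard_coe_finset]; omega
    rw [e2, Set.ncard_coe_finset, card_filter, mul_sum]
    apply sum_congr rfl
    intro x hx
    rw [mem_filter] at hx
    have h3 := card_PA_PB hp hx.2.ne
    have e5 : (PA p x.swap.1 x.swap.2).card = (PB p x.1 x.2).card := by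
      show (PA p x.2 x.1).card = _
      rw [PA_swap]
    rw [e5]
    by_cases h5 : (PA p x.1 x.2).card = h
    · rw [if_pos h5, if_pos (by omega)]; rfl
    · rw [if_neg h5, if_neg (by omega)]; rfl
  -- one pair of indices
  have hpair : ∀ q : Fin (n ^ 2) × Fin (n ^ 2), q.1 < q.2 →
      (D.card : ℝ≥0∞) * c₀ ≤ π {P | q ∈ halving P} := by
    rintro ⟨i, j⟩ hij
    simp only at hij
    set Ev : Fin n × Fin n → Set (Fin (n ^ 2) → ℝ × ℝ) := fun x =>
      {P | (P i ∈ Metric.ball (p x.1) ε ∧ P j ∈ Metric.ball (p x.2) ε) ∧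
        (pos P i j).ncard = n ^ 2 / 2 - 1} with hEv
    have hm : ∀ x, MeasurableSet (Ev x) := fun x =>
      (((measurable_pi_apply i) Metric.isOpen_ball.measurableSet).inter
        ((measurable_pi_apply j) Metric.isOpen_ball.measurableSet)).inter (measurableSet_pos i j _)
    have hdisj : Set.PairwiseDisjoint (D : Set (Fin n × Fin n)) Ev := by
      intro x _ y _ hxy
      rw [Function.onFun, Set.disjoint_left]
      intro P hx hy
      apply hxy
      refine Prod.ext ?_ ?_
      · by_contra hne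
        exact Set.disjoint_left.1 (hd _ _ hne) hx.1.1 hy.1.1
      · by_contra hne
        exact Set.disjoint_left.1 (hd _ _ hne) hx.1.2 hy.1.2
    calc (D.card : ℝ≥0∞) * c₀ = ∑ x ∈ D, c₀ := by rw [sum_const, nsmul_eq_mul]
      _ ≤ ∑ x ∈ D, π (Ev x) := by
          apply sum_le_sum
          intro x hx
          rw [hD, mem_filter, mem_offDiag] at hx
          exact pair_prob_ge hε hp hst hd hnh hh hx.1.2.2 hx.2 hij.ne
      _ = π (⋃ x ∈ D, Ev x) := (measure_biUnion_finset hdisj (fun x _ => hm x)).symm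
      _ ≤ π {P | (i, j) ∈ halving P} := by
          apply measure_mono_ae
          filter_upwards [ae_GP (LN_mu (p := p) (ε := ε)) (n ^ 2)] with P hP hPu
          have hPu' : P ∈ ⋃ x ∈ D, Ev x := hPu
          rw [Set.mem_iUnion₂] at hPu'
          obtain ⟨x, -, hx⟩ := hPu'
          have h1 := count_side (general_of_GP hP) hij.ne
          have h2 : (pos P i j).ncard = n ^ 2 / 2 - 1 := hx.2
          have h3 : n ^ 2 = 2 * (2 * (h + 1) ^ 2) := by rw [hnh]; ring
          have h5 : 1 ≤ (h + 1) ^ 2 := Nat.one_le_pow _ _ (by omega)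
          show (i, j) ∈ halving P
          exact ⟨hij, h2, by simp only; omega⟩
  -- all pairs
  have hE : ((((univ : Finset (Fin (n ^ 2) × Fin (n ^ 2))).filter (fun q => q.1 < q.2)).card *
      D.card : ℕ) : ℝ≥0∞) * c₀ ≤ ∫⁻ P, ((halving P).ncard : ℝ≥0∞) ∂π := by
    have e1 : ∀ P : Fin (n ^ 2) → ℝ × ℝ, (halving P).ncard =
        (univ.filter (fun q : Fin (n ^ 2) × Fin (n ^ 2) => P ∈ {P | q ∈ halving P})).card := by
      intro P
      rw [← Set.ncard_coe_finset]
      congr 1
      ext q
      simp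
    simp_rw [e1]
    have hmeas : ∀ q : Fin (n ^ 2) × Fin (n ^ 2), MeasurableSet {P | q ∈ halving P} := fun q =>
      (MeasurableSet.const _).inter ((measurableSet_pos q.1 q.2 _).inter
        (measurableSet_neg q.1 q.2 _))
    rw [lintegral_card π (fun q : Fin (n ^ 2) × Fin (n ^ 2) => {P | q ∈ halving P}) hmeas]
    calc ((((univ : Finset (Fin (n ^ 2) × Fin (n ^ 2))).filter (fun q => q.1 < q.2)).card *
          D.card : ℕ) : ℝ≥0∞) * c₀ =
          ∑ q ∈ (univ : Finset (Fin (n ^ 2) × Fin (n ^ 2))).filter (fun q => q.1 < q.2),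
            (D.card : ℝ≥0∞) * c₀ := by
          rw [sum_const, nsmul_eq_mul]
          push_cast
          ring
      _ ≤ ∑ q ∈ (univ : Finset (Fin (n ^ 2) × Fin (n ^ 2))).filter (fun q => q.1 < q.2),
            π {P | q ∈ halving P} := by
          apply sum_le_sum
          intro q hq
          rw [mem_filter] at hq
          exact hpair q hq.2
      _ ≤ _ := sum_le_sum_of_subset (filter_subset _ _)
  refine le_trans ?_ (mul_le_mul_right hE 40)
  -- numbers
  have hcount : 2 * ((univ : Finset (Fin (n ^ 2) × Fin (n ^ 2))).filter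
      (fun q => q.1 < q.2)).card = n ^ 2 * n ^ 2 - n ^ 2 := by
    have h3 := sum_offDiag (N := n ^ 2) (fun _ => 1) (fun _ _ => rfl)
    simp only [sum_const, smul_eq_mul, mul_one, offDiag_card, card_univ, Fintype.card_fin] at h3
    omega
  set Q := ((univ : Finset (Fin (n ^ 2) × Fin (n ^ 2))).filter (fun q => q.1 < q.2)).card with hQ
  set H := (halving p).ncard with hH
  have hn' : (4 : ℝ) ≤ n := by exact_mod_cast h4
  have hQr : (Q : ℝ) = ((n : ℝ) ^ 4 - n ^ 2) / 2 := by
    have h5 : n ^ 2 ≤ n ^ 2 * n ^ 2 := Nat.le_mul_of_pos_right _ (by positivity)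
    have h6 : 2 * Q + n ^ 2 = n ^ 2 * n ^ 2 := by omega
    have h7 : ((2 * Q + n ^ 2 : ℕ) : ℝ) = ((n ^ 2 * n ^ 2 : ℕ) : ℝ) := by rw [h6]
    push_cast at h7
    linarith
  have hreal : (n : ℝ) * H ≤ 40 * (((Q : ℝ) * (2 * H)) * (2 / 3 * Real.exp (-3) / n ^ 3)) := by
    have h5 := exp_three
    have hn3 : (0 : ℝ) < (n : ℝ) ^ 3 := by positivity
    rw [mul_div_assoc', mul_div_assoc', le_div_iff₀ hn3, hQr]
    have hH0 : (0 : ℝ) ≤ H := Nat.cast_nonneg _
    have h6 : (15 : ℝ) / 16 * n ^ 4 ≤ (n : ℝ) ^ 4 - n ^ 2 := by nlinarith [sq_nonneg (n : ℝ)]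
    have h7 : (0 : ℝ) ≤ 40 * (2 / 3 * Real.exp (-3)) := by positivity
    calc (n : ℝ) * H * n ^ 3 = 1 * (n ^ 4 * H) := by ring
      _ ≤ 40 * (2 / 3 * Real.exp (-3)) * (15 / 16) * (n ^ 4 * H) :=
          mul_le_mul_of_nonneg_right h5 (by positivity)
      _ = 40 * (2 / 3 * Real.exp (-3)) * (15 / 16 * n ^ 4) * H := by ring
      _ ≤ 40 * (2 / 3 * Real.exp (-3)) * ((n : ℝ) ^ 4 - n ^ 2) * H := by gcongr
      _ = _ := by ring
  have hfin := ENNReal.ofReal_le_ofReal hreal
  rw [ENNReal.ofReal_mul (by positivity), ENNReal.ofReal_natCast, ENNReal.ofReal_natCast,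
    ENNReal.ofReal_mul (by norm_num), ENNReal.ofReal_mul (by positivity),
    ENNReal.ofReal_mul (by positivity), ENNReal.ofReal_natCast,
    ENNReal.ofReal_mul (by norm_num), ENNReal.ofReal_natCast] at hfin
  rw [hDcard]
  push_cast
  have e40 : ENNReal.ofReal 40 = 40 := by norm_num
  have e2 : ENNReal.ofReal 2 = 2 := by norm_num
  rw [e40, e2] at hfin
  exact hfin

end Pool.Agent.L0h67.HL
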