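import Pool.Agent.L0h67.HL.Low2

/-! Finite sets whose random subsets have many bisectors. -/

set_option autoImplicit false

namespace Pool.Agent.L0h67.HL

open Finset MeasureTheory Filter Pool.Agent.R117.KR Pool.Agent.H189R2.Lev Pool.Agent.H189R2.Iid
open scoped ENNReal Topology

variable {n N m : ℕ}

open Classical in
/-- the expected number of halving pairs of random points is the expected number of bisectors -/
theorem expect_eq {μ : Measure (ℝ × ℝ)} [IsProbabilityMeasure μ] (hμ : LN μ) :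
    ∫⁻ P, ({L | IsBisector (univ.image P) L}.ncard : ℝ≥0∞) ∂Measure.pi (fun _ : Fin N => μ) =
      ∫⁻ P, ((halving P).ncard : ℝ≥0∞) ∂Measure.pi (fun _ : Fin N => μ) := by
  apply lintegral_congr_ae
  filter_upwards [ae_GP hμ N] with P hP
  rw [bisectors_eq (general_of_GP hP)]

open Classical in
/-- a set of `m` points for which the average number of bisectors of the `N`-element subsets is at
least the expected number of bisectors of `N` random points -/
theorem exists_set {μ : Measure (ℝ × ℝ)} [IsProbabilityMeasure μ] (hμ : LN μ) (hm : N ≤ m) :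
    ∃ T : Finset (ℝ × ℝ), NoThree T ∧ T.card = m ∧
      (m.choose N : ℝ≥0∞) * ∫⁻ P, ((halving P).ncard : ℝ≥0∞) ∂Measure.pi (fun _ : Fin N => μ) ≤
        ((∑ Q ∈ T.powersetCard N, {L | IsBisector Q L}.ncard : ℕ) : ℝ≥0∞) := by
  set π := Measure.pi (fun _ : Fin m => μ) with hπ
  -- the increasing enumeration of a set of indices
  have hex : ∀ A : Finset (Fin m), ∃ e : Fin N → Fin m, A.card = N →
      Function.Injective e ∧ univ.image e = A := by
    intro A
    by_cases hA : A.card = N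
    · refine ⟨A.orderEmbOfFin hA, fun _ => ⟨(A.orderEmbOfFin hA).injective, ?_⟩⟩
      rw [← Finset.coe_inj, coe_image, coe_univ, Set.image_univ]
      exact Finset.range_orderEmbOfFin A hA
    · exact ⟨fun i => Fin.castLE hm i, fun h => absurd h hA⟩
  choose e he using hex
  set f : (Fin m → ℝ × ℝ) → ℝ≥0∞ := fun X =>
    ∑ A ∈ (univ : Finset (Fin m)).powersetCard N, ((halving (X ∘ e A)).ncard : ℝ≥0∞) with hf
  have hmeas : Measurable (fun Y : Fin N → ℝ × ℝ => ((halving Y).ncard : ℝ≥0∞)) :=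
    measurable_from_top.comp measurable_halving
  have hcomp : ∀ A : Finset (Fin m), Measurable (fun X : Fin m → ℝ × ℝ => X ∘ e A) := fun A =>
    measurable_pi_lambda _ (fun i => measurable_pi_apply (e A i))
  have hint : ∫⁻ X, f X ∂π = (m.choose N : ℝ≥0∞) *
      ∫⁻ P, ((halving P).ncard : ℝ≥0∞) ∂Measure.pi (fun _ : Fin N => μ) := by
    have hm1 : ∀ A ∈ (univ : Finset (Fin m)).powersetCard N, Measurable
        (fun X : Fin m → ℝ × ℝ => ((halving (X ∘ e A)).ncard : ℝ≥0∞)) :=
      fun A _ => hmeas.comp (hcomp A)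
    simp only [hf]
    rw [lintegral_finsetSum _ hm1]
    have h1 : ∀ A ∈ (univ : Finset (Fin m)).powersetCard N,
        ∫⁻ X, ((halving (X ∘ e A)).ncard : ℝ≥0∞) ∂π =
          ∫⁻ P, ((halving P).ncard : ℝ≥0∞) ∂Measure.pi (fun _ : Fin N => μ) := by
      intro A hA
      rw [mem_powersetCard] at hA
      rw [← law_comp μ (he A hA.2).1, lintegral_map hmeas (hcomp A)]
    rw [sum_congr rfl h1, sum_const, card_powersetCard, card_univ, Fintype.card_fin, nsmul_eq_mul]
  obtain ⟨X, hX, hle⟩ : ∃ X, X ∉ {X : Fin m → ℝ × ℝ | ¬ GP X} ∧ ∫⁻ X, f X ∂π ≤ f X := by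
    apply exists_notMem_null_lintegral_le
    · rw [hint]
      refine ENNReal.mul_ne_top (ENNReal.natCast_ne_top _) ?_
      exact ne_top_of_le_ne_top ENNReal.ofReal_ne_top (halving_bound hμ)
    · exact ae_iff.1 (ae_GP hμ m)
  have hXg : General X := general_of_GP (not_not.1 hX)
  refine ⟨univ.image X, ?_, card_image hXg.1, ?_⟩
  · intro p hp q hq r hr hpq hpr hqr
    rw [mem_image] at hp hq hr
    obtain ⟨i, -, rfl⟩ := hp
    obtain ⟨j, -, rfl⟩ := hq
    obtain ⟨l, -, rfl⟩ := hr
    exact hXg.2 i j l (fun h => hpq (by rw [h])) (fun h => hpr (by rw [h]))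
      (fun h => hqr (by rw [h]))
  · rw [← hint]
    refine hle.trans (le_of_eq ?_)
    have hT : ∑ Q ∈ (univ.image X).powersetCard N, {L | IsBisector Q L}.ncard =
        ∑ A ∈ (univ : Finset (Fin m)).powersetCard N, {L | IsBisector (A.image X) L}.ncard := by
      have hmap : univ.image X = (univ : Finset (Fin m)).map ⟨X, hXg.1⟩ := by
        rw [Finset.map_eq_image]; rfl
      rw [hmap, Finset.powersetCard_map, sum_map]
      apply sum_congr rfl
      intro Q _
      have : (Finset.mapEmbedding (⟨X, hXg.1⟩ : Fin m ↪ ℝ × ℝ)).toEmbedding Q = Q.image X := by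
        show Q.map ⟨X, hXg.1⟩ = Q.image X
        rw [Finset.map_eq_image]
        rfl
      rw [this]
    rw [hT, hf]
    push_cast
    apply sum_congr rfl
    intro A hA
    rw [mem_powersetCard] at hA
    obtain ⟨h1, h2⟩ := he A hA.2
    have h3 : General (X ∘ e A) := by
      refine ⟨hXg.1.comp h1, fun i j l hij hil hjl => ?_⟩
      exact hXg.2 _ _ _ (fun h => hij (h1 h)) (fun h => hil (h1 h)) (fun h => hjl (h1 h))
    have h4 : univ.image (X ∘ e A) = A.image X := by
      rw [← Finset.image_image, h2]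
    rw [← h4, bisectors_eq h3]

open Classical in
/-- worst case and average case -/
theorem worst_average {S : Finset (ℝ × ℝ)} (hS : NoThree S) (hn : Even S.card)
    (h4 : 4 ≤ S.card) :
    ∃ μ : Measure (ℝ × ℝ), IsProbabilityMeasure μ ∧ LN μ ∧
      ((S.card * {L | IsBisector S L}.ncard : ℕ) : ℝ≥0∞) ≤
        40 * ∫⁻ P, ({L | IsBisector (univ.image P) L}.ncard : ℝ≥0∞)
          ∂Measure.pi (fun _ : Fin (S.card ^ 2) => μ) ∧
      ∀ m : ℕ, S.card ^ 2 ≤ m → ∃ T : Finset (ℝ × ℝ), NoThree T ∧ T.card = m ∧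
        m.choose (S.card ^ 2) * (S.card * {L | IsBisector S L}.ncard) ≤
          40 * ∑ Q ∈ T.powersetCard (S.card ^ 2), {L | IsBisector Q L}.ncard := by
  set p : Fin S.card → ℝ × ℝ := fun i => ((S.equivFin.symm i : S) : ℝ × ℝ) with hp
  have hpe : ∀ y : S, p (S.equivFin y) = (y : ℝ × ℝ) := fun y => by
    show ((S.equivFin.symm (S.equivFin y) : S) : ℝ × ℝ) = y
    rw [Equiv.symm_apply_apply]
  have hpinj : Function.Injective p := fun i j hij => by
    have : S.equivFin.symm i = S.equivFin.symm j := Subtype.ext hij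
    exact S.equivFin.symm.injective this
  have hpg : General p := by
    refine ⟨hpinj, fun i j l hij hil hjl => ?_⟩
    exact hS _ (S.equivFin.symm i).2 _ (S.equivFin.symm j).2 _ (S.equivFin.symm l).2
      (fun h => hij (hpinj h)) (fun h => hil (hpinj h)) (fun h => hjl (hpinj h))
  have hSimg : univ.image p = S := by
    ext x
    rw [Finset.mem_image]
    constructor
    · rintro ⟨i, -, rfl⟩
      exact (S.equivFin.symm i).2
    · intro hx
      exact ⟨S.equivFin ⟨x, hx⟩, mem_univ _, hpe ⟨x, hx⟩⟩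
  obtain ⟨μ, hprob, hLN, hE⟩ := expect_ge hpg hn h4
  have hbis : (halving p).ncard = {L | IsBisector S L}.ncard := by
    rw [← bisectors_eq hpg, hSimg]
  rw [hbis] at hE
  refine ⟨μ, hprob, hLN, ?_, fun m hm => ?_⟩
  · rw [expect_eq hLN]
    exact hE
  · obtain ⟨T, h1, h2, h3⟩ := exists_set hLN hm
    refine ⟨T, h1, h2, ?_⟩
    have h5 : ((m.choose (S.card ^ 2) * (S.card * {L | IsBisector S L}.ncard) : ℕ) : ℝ≥0∞) ≤
        ((40 * ∑ Q ∈ T.powersetCard (S.card ^ 2), {L | IsBisector Q L}.ncard : ℕ) : ℝ≥0∞) := by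
      rw [Nat.cast_mul, Nat.cast_mul 40]
      calc (m.choose (S.card ^ 2) : ℝ≥0∞) * ((S.card * {L | IsBisector S L}.ncard : ℕ) : ℝ≥0∞) ≤
            (m.choose (S.card ^ 2) : ℝ≥0∞) * (40 * ∫⁻ P, ((halving P).ncard : ℝ≥0∞)
              ∂Measure.pi (fun _ : Fin (S.card ^ 2) => μ)) := mul_le_mul_right hE _
        _ = 40 * ((m.choose (S.card ^ 2) : ℝ≥0∞) * ∫⁻ P, ((halving P).ncard : ℝ≥0∞)
              ∂Measure.pi (fun _ : Fin (S.card ^ 2) => μ)) := by ring
        _ ≤ _ := mul_le_mul_right h3 _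
    exact_mod_cast h5

end Pool.Agent.L0h67.HL
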