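import Pool.Agent.L0h67.HL.Low3
import Pool.Agent.Results.MP_e17eac_co.NearPolynomial

/-! Laws for which random points have many bisectors. -/

set_option autoImplicit false

namespace Pool.Agent.L0h67.HL

open Finset MeasureTheory Filter Pool.Agent.R117.KR Pool.Agent.H189R2.Lev Pool.Agent.H189R2.Iid
open scoped ENNReal Topology

variable {n : ℕ}

theorem noThree_of_gp {S : Finset (ℝ × ℝ)} (hS : KLev.Halving.GeneralPosition S) : NoThree S := by
  intro p hp q hq r hr hpq hpr hqr h0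
  have hab : -(q.2 - p.2) ≠ 0 ∨ q.1 - p.1 ≠ 0 := by
    by_contra hcon
    push Not at hcon
    apply hpq
    refine Prod.ext ?_ ?_
    · linarith [hcon.2]
    · linarith [hcon.1]
  refine hS (-(q.2 - p.2)) (q.1 - p.1) (-(q.2 - p.2) * p.1 + (q.1 - p.1) * p.2) hab
    p hp q hq r hr hpq hpr hqr ⟨?_, ?_, ?_⟩
  · show -(q.2 - p.2) * p.1 + (q.1 - p.1) * p.2 = _
    rfl
  · show -(q.2 - p.2) * q.1 + (q.1 - p.1) * q.2 = _
    ring
  · show -(q.2 - p.2) * r.1 + (q.1 - p.1) * r.2 = _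
    unfold side at h0
    linarith

/-- a set with the maximal number of bisectors -/
theorem exists_max {n : ℕ} (h : 0 < KLev.Halving.f n) : ∃ S : Finset (ℝ × ℝ), S.card = n ∧
    NoThree S ∧ {L | IsBisector S L}.ncard = KLev.Halving.f n := by
  have hne : {m : ℕ | ∃ P : Finset (ℝ × ℝ), P.card = n ∧ KLev.Halving.GeneralPosition P ∧
      {L | KLev.Halving.IsBisector P L}.ncard = m}.Nonempty := by
    by_contra hcon
    rw [Set.not_nonempty_iff_eq_empty] at hcon
    unfold KLev.Halving.f at h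
    rw [hcon] at h
    simp at h
  have hb : BddAbove {m : ℕ | ∃ P : Finset (ℝ × ℝ), P.card = n ∧ KLev.Halving.GeneralPosition P ∧
      {L | KLev.Halving.IsBisector P L}.ncard = m} := by
    refine ⟨n * n, ?_⟩
    rintro m ⟨P, hP, -, rfl⟩
    rw [← hP]
    exact KLev.Halving.bisectors_ncard_le P
  obtain ⟨P, h1, h2, h3⟩ := Nat.sSup_mem hne hb
  exact ⟨P, h1, noThree_of_gp h2, h3⟩

open Classical in
theorem laws_many : ∀ᶠ n : ℕ in atTop, Even n →
    ∃ μ : Measure (ℝ × ℝ), IsProbabilityMeasure μ ∧ LN μ ∧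
      ENNReal.ofReal ((n : ℝ) ^ (2 + Real.exp (-3 * √(Real.log (Real.log n))))) ≤
        40 * ∫⁻ P, ({L | IsBisector (univ.image P) L}.ncard : ℝ≥0∞)
          ∂Measure.pi (fun _ : Fin (n ^ 2) => μ) := by
  filter_upwards [Pool.Agent.Results.MP_e17eac_co.NearPolynomial.result,
    eventually_ge_atTop 4] with n hn h4 he
  have h1 := hn he
  have hn0 : (0 : ℝ) < n := by exact_mod_cast (by omega : 0 < n)
  have hpos : 0 < KLev.Halving.f n := by
    have : (0 : ℝ) < (KLev.Halving.f n : ℝ) := (Real.rpow_pos_of_pos hn0 _).trans_le h1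
    exact_mod_cast this
  obtain ⟨S, hc, hS, hb⟩ := exists_max hpos
  subst hc
  obtain ⟨μ, hprob, hLN, hE, -⟩ := worst_average hS he h4
  refine ⟨μ, hprob, hLN, le_trans ?_ hE⟩
  rw [hb, ← ENNReal.ofReal_natCast]
  apply ENNReal.ofReal_le_ofReal
  push_cast
  have e : (S.card : ℝ) ^ (2 + Real.exp (-3 * √(Real.log (Real.log S.card)))) =
      S.card * (S.card : ℝ) ^ (1 + Real.exp (-3 * √(Real.log (Real.log S.card)))) := by
    rw [show (2 : ℝ) + Real.exp (-3 * √(Real.log (Real.log S.card))) =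
      1 + (1 + Real.exp (-3 * √(Real.log (Real.log S.card)))) by ring, Real.rpow_add hn0, Real.rpow_one]
  rw [e]
  exact mul_le_mul_of_nonneg_left h1 hn0.le

end Pool.Agent.L0h67.HL
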