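import Pool.Agent.R117.KR.Lines
import Pool.Agent.H189R2.Lev.Lines

/-! Halving lines of an indexed point set and crossings of the dual lines. -/

set_option autoImplicit false

namespace Pool.Agent.L0h67.HL

open Finset Pool.Agent.R117.KR Pool.Agent.H189R2.Lev

/-- twice the signed area of the triangle `p q r`: its sign tells on which side of the line through
`p` and `q` the point `r` lies -/
def side (p q r : ℝ × ℝ) : ℝ := (q.1 - p.1) * (r.2 - p.2) - (q.2 - p.2) * (r.1 - p.1)

/-- the points on the positive side of the line through `P i` and `P j` -/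
def pos {n : ℕ} (P : Fin n → ℝ × ℝ) (i j : Fin n) : Set (Fin n) :=
  {l | 0 < side (P i) (P j) (P l)}

/-- the points on the negative side of the line through `P i` and `P j` -/
def neg {n : ℕ} (P : Fin n → ℝ × ℝ) (i j : Fin n) : Set (Fin n) :=
  {l | side (P i) (P j) (P l) < 0}

/-- the points are distinct and no three of them are collinear -/
def General {n : ℕ} (P : Fin n → ℝ × ℝ) : Prop :=
  Function.Injective P ∧ ∀ i j l, i ≠ j → i ≠ l → j ≠ l → side (P i) (P j) (P l) ≠ 0

/-- pairs `i < j` such that exactly `k` of the points are on one of the two sides of the line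
through `P i` and `P j` -/
def kPairs {n : ℕ} (P : Fin n → ℝ × ℝ) (k : ℕ) : Set (Fin n × Fin n) :=
  {q | q.1 < q.2 ∧ ((pos P q.1 q.2).ncard = k ∨ (neg P q.1 q.2).ncard = k)}

/-- pairs `i < j` such that exactly `n / 2 - 1` of the points are on each side of the line through
`P i` and `P j` -/
def halving {n : ℕ} (P : Fin n → ℝ × ℝ) : Set (Fin n × Fin n) :=
  {q | q.1 < q.2 ∧ (pos P q.1 q.2).ncard = n / 2 - 1 ∧ (neg P q.1 q.2).ncard = n / 2 - 1}

/-- pairs `i < j` of non-parallel dual lines whose crossing has exactly `k` lines below -/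
def cross {n : ℕ} (a B : Fin n → ℝ) (k : ℕ) : Set (Fin n × Fin n) :=
  {q | q.1 < q.2 ∧ a q.1 ≠ a q.2 ∧
    {l | ht a B l (cr a B q.1 q.2) < ht a B q.1 (cr a B q.1 q.2)}.ncard = k}

variable {n : ℕ}

theorem side_self_left (p q : ℝ × ℝ) : side p q p = 0 := by unfold side; ring

theorem side_self_right (p q : ℝ × ℝ) : side p q q = 0 := by unfold side; ring

theorem count_side {P : Fin n → ℝ × ℝ} (hP : General P) {i j : Fin n} (hij : i ≠ j) :
    (pos P i j).ncard + (neg P i j).ncard + 2 = n := by
  classical
  have e1 : pos P i j = ((univ.filter (fun l => 0 < side (P i) (P j) (P l)) : Finset _) :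
      Set (Fin n)) := by
    ext l; simp [pos]
  have e2 : neg P i j = ((univ.filter (fun l => side (P i) (P j) (P l) < 0) : Finset _) :
      Set (Fin n)) := by
    ext l; simp [neg]
  rw [e1, e2, Set.ncard_coe_finset, Set.ncard_coe_finset]
  have h1 := Finset.card_filter_add_card_filter_not (s := (univ : Finset (Fin n)))
    (fun l => 0 < side (P i) (P j) (P l))
  have h2 := Finset.card_filter_add_card_filter_not
    (s := univ.filter (fun l => ¬ 0 < side (P i) (P j) (P l)))
    (fun l => side (P i) (P j) (P l) < 0)
  have h3 : (univ.filter (fun l => ¬ 0 < side (P i) (P j) (P l))).filter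
      (fun l => side (P i) (P j) (P l) < 0) = univ.filter (fun l => side (P i) (P j) (P l) < 0) := by
    ext l
    simp only [mem_filter, mem_univ, true_and, not_lt]
    exact ⟨fun h => h.2, fun h => ⟨h.le, h⟩⟩
  have h4 : (univ.filter (fun l => ¬ 0 < side (P i) (P j) (P l))).filter
      (fun l => ¬ side (P i) (P j) (P l) < 0) = {i, j} := by
    ext l
    simp only [mem_filter, mem_univ, true_and, not_lt, mem_insert, mem_singleton]
    constructor
    · rintro ⟨h5, h6⟩
      by_contra hcon
      push Not at hcon
      exact hP.2 i j l hij (Ne.symm hcon.1) (Ne.symm hcon.2) (le_antisymm h5 h6)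
    · rintro (rfl | rfl)
      · rw [side_self_left]; exact ⟨le_rfl, le_rfl⟩
      · rw [side_self_right]; exact ⟨le_rfl, le_rfl⟩
  rw [h3, h4, card_pair hij] at h2
  simp only [card_univ, Fintype.card_fin] at h1
  omega

theorem below_eq {P : Fin n → ℝ × ℝ} {i j : Fin n} (h : (P i).1 ≠ (P j).1) :
    {l | ht (fun l => (P l).1) (fun l => (P l).2) l
        (cr (fun l => (P l).1) (fun l => (P l).2) i j) <
      ht (fun l => (P l).1) (fun l => (P l).2) i
        (cr (fun l => (P l).1) (fun l => (P l).2) i j)} =
      if (P i).1 < (P j).1 then neg P i j else pos P i j := by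
  have key : ∀ l, (ht (fun l => (P l).1) (fun l => (P l).2) l
        (cr (fun l => (P l).1) (fun l => (P l).2) i j) -
      ht (fun l => (P l).1) (fun l => (P l).2) i
        (cr (fun l => (P l).1) (fun l => (P l).2) i j)) * ((P j).1 - (P i).1) =
      side (P i) (P j) (P l) := by
    intro l
    have h' : (P i).1 - (P j).1 ≠ 0 := sub_ne_zero.mpr h
    unfold ht cr side
    field_simp
    ring
  split_ifs with hlt
  · ext l
    have hk := key l
    have hp : 0 < (P j).1 - (P i).1 := by linarith
    simp only [Set.mem_ofPred_eq, neg]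
    constructor
    · intro h1
      rw [← hk]
      exact mul_neg_of_neg_of_pos (by linarith) hp
    · intro h1
      rw [← hk] at h1
      by_contra hcon
      push Not at hcon
      have := mul_nonneg (sub_nonneg.mpr hcon) hp.le
      linarith
  · have hp : (P j).1 - (P i).1 < 0 := by
      rcases lt_or_gt_of_ne h with h1 | h1
      · exact absurd h1 hlt
      · linarith
    ext l
    have hk := key l
    simp only [Set.mem_ofPred_eq, pos]
    constructor
    · intro h1
      rw [← hk]
      exact mul_pos_of_neg_of_neg (by linarith) hp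
    · intro h1
      rw [← hk] at h1
      by_contra hcon
      push Not at hcon
      have := mul_nonpos_of_nonneg_of_nonpos (sub_nonneg.mpr hcon) hp.le
      linarith

/-- halving pairs are crossings of the middle level -/
theorem halving_sub {P : Fin n → ℝ × ℝ} (hx : ∀ i j, (P i).1 = (P j).1 → i = j) :
    halving P ⊆ cross (fun l => (P l).1) (fun l => (P l).2) (n / 2 - 1) := by
  rintro ⟨i, j⟩ ⟨h1, h2, h3⟩
  simp only at h1 h2 h3
  have hne : (P i).1 ≠ (P j).1 := fun h => h1.ne (hx i j h)
  refine ⟨h1, hne, ?_⟩
  simp only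
  rw [below_eq hne]
  split_ifs
  · exact h3
  · exact h2

theorem kPairs_sub {P : Fin n → ℝ × ℝ} (hP : General P)
    (hx : ∀ i j, (P i).1 = (P j).1 → i = j) (k : ℕ) :
    kPairs P k ⊆ cross (fun l => (P l).1) (fun l => (P l).2) k ∪
      cross (fun l => (P l).1) (fun l => (P l).2) (n - 2 - k) := by
  rintro ⟨i, j⟩ ⟨h1, h2⟩
  simp only at h1 h2
  have hne : (P i).1 ≠ (P j).1 := fun h => h1.ne (hx i j h)
  have hc := count_side hP h1.ne
  have key : ∀ m, (if (P i).1 < (P j).1 then neg P i j else pos P i j).ncard = m →
      (i, j) ∈ cross (fun l => (P l).1) (fun l => (P l).2) m := by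
    intro m hm
    refine ⟨h1, hne, ?_⟩
    simp only
    rw [below_eq hne]
    exact hm
  by_cases hlt : (P i).1 < (P j).1
  · simp only [if_pos hlt] at key
    rcases h2 with h2 | h2
    · exact Or.inr (key _ (by omega))
    · exact Or.inl (key _ h2)
  · simp only [if_neg hlt] at key
    rcases h2 with h2 | h2
    · exact Or.inl (key _ h2)
    · exact Or.inr (key _ (by omega))

/-- a linear form that is constant on two points is proportional to `side` -/
theorem side_form {a b c : ℝ} (h : a ≠ 0 ∨ b ≠ 0) {p q : ℝ × ℝ} (hpq : p ≠ q)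
    (hp : p ∈ Line a b c) (hq : q ∈ Line a b c) :
    (∀ r : ℝ × ℝ, (0 < side p q r ↔ c < a * r.1 + b * r.2) ∧
      (side p q r < 0 ↔ a * r.1 + b * r.2 < c)) ∨
    (∀ r : ℝ × ℝ, (0 < side p q r ↔ a * r.1 + b * r.2 < c) ∧
      (side p q r < 0 ↔ c < a * r.1 + b * r.2)) := by
  simp only [Line, Set.mem_ofPred_eq] at hp hq
  set s : ℝ := a * (q.2 - p.2) - b * (q.1 - p.1) with hs
  have hab : 0 < a ^ 2 + b ^ 2 := by
    rcases h with h | h
    · have := sq_pos_of_ne_zero h
      positivity
    · have := sq_pos_of_ne_zero h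
      positivity
  have key : ∀ r : ℝ × ℝ, (a ^ 2 + b ^ 2) * side p q r = -s * (a * r.1 + b * r.2 - c) := by
    intro r
    have e : a * (q.1 - p.1) + b * (q.2 - p.2) = 0 := by linarith
    rw [hs, ← hp]
    unfold side
    linear_combination (a * (r.2 - p.2) - b * (r.1 - p.1)) * e
  have hs0 : s ≠ 0 := by
    intro h0
    apply hpq
    have e : a * (q.1 - p.1) + b * (q.2 - p.2) = 0 := by linarith
    have e1 : (a ^ 2 + b ^ 2) * (q.1 - p.1) = 0 := by
      linear_combination a * e - b * h0
    have e2 : (a ^ 2 + b ^ 2) * (q.2 - p.2) = 0 := by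
      linear_combination b * e + a * h0
    have f1 := (mul_eq_zero.mp e1).resolve_left hab.ne'
    have f2 := (mul_eq_zero.mp e2).resolve_left hab.ne'
    exact Prod.ext (by linarith) (by linarith)
  have pos_iff : ∀ r, (0 < side p q r ↔ 0 < -s * (a * r.1 + b * r.2 - c)) := by
    intro r
    rw [← key r]
    exact (mul_pos_iff_of_pos_left hab).symm
  have neg_iff : ∀ r, (side p q r < 0 ↔ -s * (a * r.1 + b * r.2 - c) < 0) := by
    intro r
    rw [← key r]
    constructor
    · intro h1
      exact mul_neg_of_pos_of_neg hab h1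
    · intro h1
      by_contra hcon
      push Not at hcon
      have := mul_nonneg hab.le hcon
      linarith
  rcases lt_or_gt_of_ne hs0 with h1 | h1
  · left
    intro r
    rw [pos_iff, neg_iff]
    constructor
    · rw [mul_pos_iff_of_pos_left (by linarith)]
      exact sub_pos
    · constructor
      · intro h2
        by_contra hcon
        push Not at hcon
        have := mul_nonneg (a := -s) (by linarith) (sub_nonneg.mpr hcon)
        linarith
      · intro h2
        exact mul_neg_of_pos_of_neg (by linarith) (by linarith)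
  · right
    intro r
    rw [pos_iff, neg_iff]
    constructor
    · constructor
      · intro h2
        by_contra hcon
        push Not at hcon
        have := mul_nonpos_of_nonpos_of_nonneg (a := -s) (by linarith) (sub_nonneg.mpr hcon)
        linarith
      · intro h2
        exact mul_pos_of_neg_of_neg (by linarith) (by linarith)
    · constructor
      · intro h2
        by_contra hcon
        push Not at hcon
        have := mul_nonneg_of_nonpos_of_nonpos (a := -s) (by linarith) (sub_nonpos.mpr hcon)
        linarith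
      · intro h2
        exact mul_neg_of_neg_of_pos (by linarith) (by linarith)

open scoped Classical in
theorem card_image_filter {P : Fin n → ℝ × ℝ} (hP : Function.Injective P) (p : ℝ × ℝ → Prop) :
    ((univ.image P).filter p).card = {l | p (P l)}.ncard := by
  rw [Finset.filter_image, Finset.card_image_of_injective _ hP, ← Set.ncard_coe_finset]
  congr 1
  ext l
  simp

open scoped Classical in
theorem card_image {P : Fin n → ℝ × ℝ} (hP : Function.Injective P) :
    (univ.image P).card = n := by
  rw [Finset.card_image_of_injective _ hP, card_univ, Fintype.card_fin]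

/-- lines through two of the points, as pairs -/
theorem lines_le {P : Fin n → ℝ × ℝ} (S : Set (Set (ℝ × ℝ))) (T : Set (Fin n × Fin n))
    (hline : ∀ L ∈ S, ∃ a b c : ℝ, (a ≠ 0 ∨ b ≠ 0) ∧ L = Line a b c)
    (hS : ∀ L ∈ S, ∃ i j, i < j ∧ P i ≠ P j ∧ P i ∈ L ∧ P j ∈ L ∧ (i, j) ∈ T) :
    S.ncard ≤ T.ncard := by
  classical
  rcases S.eq_empty_or_nonempty with rfl | ⟨L₀, hL₀⟩
  · simp
  haveI : Nonempty (Fin n) := ⟨(hS L₀ hL₀).choose⟩
  choose! f g h using hS
  apply Set.ncard_le_ncard_of_injOn (fun L => (f L, g L))
  · intro L hL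
    exact (h L hL).2.2.2.2
  · intro L hL L' hL' heq
    rw [Prod.mk.injEq] at heq
    obtain ⟨-, hne, h1, h2, -⟩ := h L hL
    obtain ⟨-, -, h1', h2', -⟩ := h L' hL'
    rw [← heq.1] at h1'
    rw [← heq.2] at h2'
    obtain ⟨a, b, c, hab, rfl⟩ := hline L hL
    obtain ⟨a', b', c', hab', rfl⟩ := hline L' hL'
    exact line_unique hab hab' hne h1 h2 h1' h2'

open scoped Classical in
/-- the bisectors of a point set in general position are given by its halving pairs -/
theorem bisectors_le {P : Fin n → ℝ × ℝ} (hP : Function.Injective P) :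
    {L | IsBisector (univ.image P) L}.ncard ≤ (halving P).ncard := by
  apply lines_le (P := P)
  · rintro L ⟨a, b, c, hab, hL, -⟩
    exact ⟨a, b, c, hab, hL⟩
  · rintro L ⟨a, b, c, hab, rfl, ⟨p, hp, q, hq, hpq, hpL, hqL⟩, h1, h2⟩
    rw [card_image_filter hP, card_image hP] at h1 h2
    rw [mem_image] at hp hq
    obtain ⟨i, -, rfl⟩ := hp
    obtain ⟨j, -, rfl⟩ := hq
    have main : ∀ i j : Fin n, P i ≠ P j → P i ∈ Line a b c → P j ∈ Line a b c → i < j →
        (i, j) ∈ halving P := by
      intro i j hij hi hj hlt
      rcases side_form hab hij hi hj with h | h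
      · have e1 : pos P i j = {l | c < a * (P l).1 + b * (P l).2} := by
          ext l; exact (h (P l)).1
        have e2 : neg P i j = {l | a * (P l).1 + b * (P l).2 < c} := by
          ext l; exact (h (P l)).2
        refine ⟨hlt, ?_, ?_⟩
        · simp only [e1]; exact h2
        · simp only [e2]; exact h1
      · have e1 : pos P i j = {l | a * (P l).1 + b * (P l).2 < c} := by
          ext l; exact (h (P l)).1
        have e2 : neg P i j = {l | c < a * (P l).1 + b * (P l).2} := by
          ext l; exact (h (P l)).2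
        refine ⟨hlt, ?_, ?_⟩
        · simp only [e1]; exact h1
        · simp only [e2]; exact h2
    have hij : i ≠ j := fun h => hpq (by rw [h])
    rcases lt_or_gt_of_ne hij with hlt | hlt
    · exact ⟨i, j, hlt, hpq, hpL, hqL, main i j hpq hpL hqL hlt⟩
    · exact ⟨j, i, hlt, hpq.symm, hqL, hpL, main j i hpq.symm hqL hpL hlt⟩

open scoped Classical in
/-- the lines with exactly `k` points on one side are given by the pairs of `kPairs` -/
theorem klines_le {P : Fin n → ℝ × ℝ} (hP : Function.Injective P) (k : ℕ) :
    {L | IsKLine (univ.image P) k L}.ncard ≤ (kPairs P k).ncard := by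
  apply lines_le (P := P)
  · rintro L ⟨a, b, c, hab, hL, -⟩
    exact ⟨a, b, c, hab, hL⟩
  · rintro L ⟨a, b, c, hab, rfl, ⟨p, hp, q, hq, hpq, hpL, hqL⟩, h1⟩
    rw [card_image_filter hP] at h1
    rw [mem_image] at hp hq
    obtain ⟨i, -, rfl⟩ := hp
    obtain ⟨j, -, rfl⟩ := hq
    have main : ∀ i j : Fin n, P i ≠ P j → P i ∈ Line a b c → P j ∈ Line a b c → i < j →
        (i, j) ∈ kPairs P k := by
      intro i j hij hi hj hlt
      rcases side_form hab hij hi hj with h | h
      · have e1 : pos P i j = {l | c < a * (P l).1 + b * (P l).2} := by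
          ext l; exact (h (P l)).1
        refine ⟨hlt, Or.inl ?_⟩
        simp only [e1]; exact h1
      · have e2 : neg P i j = {l | c < a * (P l).1 + b * (P l).2} := by
          ext l; exact (h (P l)).2
        refine ⟨hlt, Or.inr ?_⟩
        simp only [e2]; exact h1
    have hij : i ≠ j := fun h => hpq (by rw [h])
    rcases lt_or_gt_of_ne hij with hlt | hlt
    · exact ⟨i, j, hlt, hpq, hpL, hqL, main i j hpq hpL hqL hlt⟩
    · exact ⟨j, i, hlt, hpq.symm, hqL, hpL, main j i hpq.symm hqL hpL hlt⟩

end Pool.Agent.L0h67.HL
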