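import Pool.Agent.L0h67.HL.Gen2
import Pool.Agent.Y375.FD.Upper

/-! Perturbation of a line arrangement: every vertex of a level gives a crossing of the perturbed
lines with the same number of lines below, up to one. -/

set_option autoImplicit false

namespace Pool.Agent.L0h67.HL

open Finset Filter Pool.Agent.R117.KR Pool.Agent.H189R2.Lev
open scoped Topology

variable {n N k k' : ℕ}

theorem quad_ne (c0 c1 c2 : ℝ) (h : c2 ≠ 0) :
    ∀ᶠ ε in 𝓝[>] (0 : ℝ), c0 + c1 * ε + c2 * ε ^ 2 ≠ 0 := by
  by_cases h0 : c0 = 0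
  · subst h0
    by_cases h1 : c1 = 0
    · subst h1
      filter_upwards [self_mem_nhdsWithin] with ε hε
      have hε' : (0 : ℝ) < ε := hε
      have : ε ^ 2 ≠ 0 := by positivity
      simp only [zero_mul, add_zero, zero_add]
      exact mul_ne_zero h this
    · have hc : ContinuousAt (fun ε : ℝ => c1 + c2 * ε) 0 := by fun_prop
      have h2 : ∀ᶠ ε in 𝓝 (0 : ℝ), c1 + c2 * ε ≠ 0 :=
        hc.eventually_ne (by simpa using h1)
      filter_upwards [self_mem_nhdsWithin, nhdsWithin_le_nhds h2] with ε hε h3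
      have hε' : (0 : ℝ) < ε := hε
      have : 0 + c1 * ε + c2 * ε ^ 2 = ε * (c1 + c2 * ε) := by ring
      rw [this]
      exact mul_ne_zero hε'.ne' h3
  · have hc : ContinuousAt (fun ε : ℝ => c0 + c1 * ε + c2 * ε ^ 2) 0 := by fun_prop
    exact nhdsWithin_le_nhds (hc.eventually_ne (by simpa using h0))

/-- the perturbed points -/
def pert (p : Fin N → ℝ × ℝ) (ε : ℝ) (i : Fin N) : ℝ × ℝ :=
  ((p i).1 + ε * (i : ℕ), (p i).2 + ε * ((i : ℕ) : ℝ) ^ 2)

theorem exists_pert (p : Fin N → ℝ × ℝ) : ∃ p' : Fin N → ℝ × ℝ, General p' ∧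
    (∀ i j, i ≠ j → (p' i).1 ≠ (p' j).1) ∧
    (∀ i j, (p i).1 < (p j).1 → (p' i).1 < (p' j).1) ∧
    (∀ i j l, 0 < side (p i) (p j) (p l) → 0 < side (p' i) (p' j) (p' l)) ∧
    (∀ i j l, side (p i) (p j) (p l) < 0 → side (p' i) (p' j) (p' l) < 0) := by
  have h1 : ∀ᶠ ε in 𝓝[>] (0 : ℝ), ∀ i j, (p i).1 < (p j).1 → (pert p ε i).1 < (pert p ε j).1 := by
    rw [Filter.eventually_all]; intro i
    rw [Filter.eventually_all]; intro j
    by_cases h : (p i).1 < (p j).1
    · have c1 : ContinuousAt (fun ε : ℝ => (pert p ε i).1) 0 := by unfold pert; fun_prop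
      have c2 : ContinuousAt (fun ε : ℝ => (pert p ε j).1) 0 := by unfold pert; fun_prop
      have := c1.eventually_lt c2 (by simpa [pert] using h)
      filter_upwards [nhdsWithin_le_nhds this] with ε hε _
      exact hε
    · exact Eventually.of_forall fun _ h' => absurd h' h
  have h2 : ∀ᶠ ε in 𝓝[>] (0 : ℝ), ∀ i j l, 0 < side (p i) (p j) (p l) →
      0 < side (pert p ε i) (pert p ε j) (pert p ε l) := by
    rw [Filter.eventually_all]; intro i
    rw [Filter.eventually_all]; intro j
    rw [Filter.eventually_all]; intro l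
    by_cases h : 0 < side (p i) (p j) (p l)
    · have c1 : ContinuousAt (fun ε : ℝ => side (pert p ε i) (pert p ε j) (pert p ε l)) 0 := by
        unfold side pert; fun_prop
      have c2 : ContinuousAt (fun _ : ℝ => (0 : ℝ)) 0 := continuousAt_const
      have := c2.eventually_lt c1 (by simpa [pert] using h)
      filter_upwards [nhdsWithin_le_nhds this] with ε hε _
      exact hε
    · exact Eventually.of_forall fun _ h' => absurd h' h
  have h3 : ∀ᶠ ε in 𝓝[>] (0 : ℝ), ∀ i j l, side (p i) (p j) (p l) < 0 →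
      side (pert p ε i) (pert p ε j) (pert p ε l) < 0 := by
    rw [Filter.eventually_all]; intro i
    rw [Filter.eventually_all]; intro j
    rw [Filter.eventually_all]; intro l
    by_cases h : side (p i) (p j) (p l) < 0
    · have c1 : ContinuousAt (fun ε : ℝ => side (pert p ε i) (pert p ε j) (pert p ε l)) 0 := by
        unfold side pert; fun_prop
      have c2 : ContinuousAt (fun _ : ℝ => (0 : ℝ)) 0 := continuousAt_const
      have := c1.eventually_lt c2 (by simpa [pert] using h)
      filter_upwards [nhdsWithin_le_nhds this] with ε hε _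
      exact hε
    · exact Eventually.of_forall fun _ h' => absurd h' h
  have h4 : ∀ᶠ ε in 𝓝[>] (0 : ℝ), ∀ i j l, i ≠ j → i ≠ l → j ≠ l →
      side (pert p ε i) (pert p ε j) (pert p ε l) ≠ 0 := by
    rw [Filter.eventually_all]; intro i
    rw [Filter.eventually_all]; intro j
    rw [Filter.eventually_all]; intro l
    by_cases hij : i = j
    · exact Eventually.of_forall fun _ h => absurd hij h
    by_cases hil : i = l
    · exact Eventually.of_forall fun _ _ h => absurd hil h
    by_cases hjl : j = l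
    · exact Eventually.of_forall fun _ _ _ h => absurd hjl h
    have e1 : ((i : ℕ) : ℝ) ≠ (j : ℕ) := by
      intro h; exact hij (Fin.ext (by exact_mod_cast h))
    have e2 : ((i : ℕ) : ℝ) ≠ (l : ℕ) := by
      intro h; exact hil (Fin.ext (by exact_mod_cast h))
    have e3 : ((j : ℕ) : ℝ) ≠ (l : ℕ) := by
      intro h; exact hjl (Fin.ext (by exact_mod_cast h))
    have hc2 : (((j : ℕ) : ℝ) - (i : ℕ)) * (((l : ℕ) : ℝ) - (i : ℕ)) *
        (((l : ℕ) : ℝ) - (j : ℕ)) ≠ 0 :=
      mul_ne_zero (mul_ne_zero (sub_ne_zero.2 e1.symm) (sub_ne_zero.2 e2.symm))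
        (sub_ne_zero.2 e3.symm)
    have := quad_ne (side (p i) (p j) (p l))
      (((p j).1 - (p i).1) * (((l : ℕ) : ℝ) ^ 2 - ((i : ℕ) : ℝ) ^ 2) +
        (((j : ℕ) : ℝ) - (i : ℕ)) * ((p l).2 - (p i).2) -
        ((p j).2 - (p i).2) * (((l : ℕ) : ℝ) - (i : ℕ)) -
        (((j : ℕ) : ℝ) ^ 2 - ((i : ℕ) : ℝ) ^ 2) * ((p l).1 - (p i).1)) _ hc2
    filter_upwards [this] with ε hε _ _ _
    intro h0
    apply hε
    rw [← h0]
    unfold side pert
    ring
  have h5 : ∀ᶠ ε in 𝓝[>] (0 : ℝ), ∀ i j, i ≠ j → (pert p ε i).1 ≠ (pert p ε j).1 := by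
    filter_upwards [h1, self_mem_nhdsWithin] with ε hε hpos i j hij
    have hpos' : (0 : ℝ) < ε := hpos
    rcases lt_trichotomy (p i).1 (p j).1 with h | h | h
    · exact (hε i j h).ne
    · intro heq
      unfold pert at heq
      simp only at heq
      rw [h] at heq
      have e1 : ε * ((i : ℕ) : ℝ) = ε * ((j : ℕ) : ℝ) := by linarith
      have e2 := mul_left_cancel₀ hpos'.ne' e1
      exact hij (Fin.ext (by exact_mod_cast e2))
    · exact (hε j i h).ne'
  obtain ⟨ε, h1, h2, h3, h4, h5⟩ := (h1.and (h2.and (h3.and (h4.and h5)))).exists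
  refine ⟨pert p ε, ⟨?_, h4⟩, h5, h1, h2, h3⟩
  intro i j hij
  by_contra hne
  exact h5 i j hne (by rw [hij])

theorem side_ht {P : Fin N → ℝ × ℝ} {i j : Fin N} (h : (P i).1 ≠ (P j).1) (l : Fin N) :
    (ht (fun l => (P l).1) (fun l => (P l).2) l
        (cr (fun l => (P l).1) (fun l => (P l).2) i j) -
      ht (fun l => (P l).1) (fun l => (P l).2) i
        (cr (fun l => (P l).1) (fun l => (P l).2) i j)) * ((P j).1 - (P i).1) =
      side (P i) (P j) (P l) := by
  have h' : (P i).1 - (P j).1 ≠ 0 := sub_ne_zero.mpr h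
  unfold ht cr side
  field_simp
  ring

open KLev.Levels Pool.Agent.Y375.FD

open Classical in
/-- a vertex of the `k`-level gives a crossing of the perturbed lines with `k` or `k - 1` of the
perturbed lines below -/
theorem vertex_pair {p p' : Fin N → ℝ × ℝ} (hp : Function.Injective p) (hp' : General p')
    (hs' : ∀ i j, i ≠ j → (p' i).1 ≠ (p' j).1)
    (hsl : ∀ i j, (p i).1 < (p j).1 → (p' i).1 < (p' j).1)
    (hpos : ∀ i j l, 0 < side (p i) (p j) (p l) → 0 < side (p' i) (p' j) (p' l))
    (hneg : ∀ i j l, side (p i) (p j) (p l) < 0 → side (p' i) (p' j) (p' l) < 0)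
    {Q : Finset (Fin N)} {v : ℝ × ℝ} (hv : IsVertex (Q.image p) k v) :
    ∃ a b, a ∈ Q ∧ b ∈ Q ∧ (p a).1 ≠ (p b).1 ∧ height (p a) v.1 = v.2 ∧ height (p b) v.1 = v.2 ∧
      ∃ κ : ℕ, (κ = k ∨ κ + 1 = k) ∧
        ((PA p' a b ∩ Q).card = κ ∨ (PB p' a b ∩ Q).card = κ) := by
  obtain ⟨l, m, hl, hm, hlm, hlv, hmv, hLS, -⟩ := V_of_isVertex hv
  rw [mem_image] at hl hm
  obtain ⟨a, haQ, rfl⟩ := hl
  obtain ⟨b₀, hbQ₀, rfl⟩ := hm
  -- the lines below or steeper
  set L : Finset (Fin N) := Q.filter (fun c => height (p c) v.1 < v.2 ∨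
    (height (p c) v.1 = v.2 ∧ (p a).1 < (p c).1)) with hL
  have hLk : L.card = k := by
    rw [← hLS]
    unfold LS
    rw [Finset.filter_image, Finset.card_image_of_injective _ hp]
  -- the first crossing
  set S : Finset (Fin N) := Q.filter (fun c => c ≠ a ∧ height (p c) v.1 = v.2) with hS
  have hSne : S.Nonempty := ⟨b₀, by
    rw [hS, mem_filter]
    exact ⟨hbQ₀, fun h => hlm (by rw [h]), hmv⟩⟩
  obtain ⟨b, hbS, hbmin⟩ := Finset.exists_min_image S
    (fun c => cr (fun l => (p' l).1) (fun l => (p' l).2) a c) hSne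
  rw [hS, mem_filter] at hbS
  obtain ⟨hbQ, hba, hbv⟩ := hbS
  have hslope : ∀ c, c ≠ a → height (p c) v.1 = v.2 → (p a).1 ≠ (p c).1 := by
    intro c hca hc
    exact slope_ne (fun h => hca (hp h).symm) hlv hc
  have hab := hslope b hba hbv
  refine ⟨a, b, haQ, hbQ, hab, hlv, hbv, ?_⟩
  set x₁ : ℝ := cr (fun l => (p' l).1) (fun l => (p' l).2) a b with hx₁
  set h' : Fin N → ℝ := fun c => ht (fun l => (p' l).1) (fun l => (p' l).2) c x₁ -
    ht (fun l => (p' l).1) (fun l => (p' l).2) a x₁ with hh'
  have hab' := hs' a b hba.symm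
  have hcrv : cr (fun l => (p l).1) (fun l => (p l).2) a b = v.1 := by
    unfold cr
    rw [div_eq_iff (sub_ne_zero.2 hab)]
    unfold height at hlv hbv
    linarith
  have key' : ∀ c, h' c * ((p' b).1 - (p' a).1) = side (p' a) (p' b) (p' c) :=
    fun c => side_ht hab' c
  have key : ∀ c, (height (p c) v.1 - v.2) * ((p b).1 - (p a).1) = side (p a) (p b) (p c) := by
    intro c
    have := side_ht hab c
    rw [hcrv] at this
    rw [← this]
    have e : ht (fun l => (p l).1) (fun l => (p l).2) a v.1 = v.2 := hlv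
    rw [e]
    rfl
  -- the sign of the difference of the slopes
  have hD : (0 < (p b).1 - (p a).1 ∧ 0 < (p' b).1 - (p' a).1) ∨
      ((p b).1 - (p a).1 < 0 ∧ (p' b).1 - (p' a).1 < 0) := by
    rcases lt_or_gt_of_ne hab with h | h
    · left
      exact ⟨by linarith, by linarith [hsl a b h]⟩
    · right
      exact ⟨by linarith, by linarith [hsl b a h]⟩
  -- lines that do not pass through `v`
  have hlt : ∀ c, height (p c) v.1 < v.2 → h' c < 0 := by
    intro c hc
    rcases hD with ⟨h1, h2⟩ | ⟨h1, h2⟩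
    · have h3 : side (p a) (p b) (p c) < 0 := by
        rw [← key]; exact mul_neg_of_neg_of_pos (by linarith) h1
      have h4 := hneg a b c h3
      rw [← key'] at h4
      by_contra hcon
      push Not at hcon
      have := mul_nonneg hcon h2.le
      linarith
    · have h3 : 0 < side (p a) (p b) (p c) := by
        rw [← key]; exact mul_pos_of_neg_of_neg (by linarith) h1
      have h4 := hpos a b c h3
      rw [← key'] at h4
      by_contra hcon
      push Not at hcon
      have := mul_nonpos_of_nonneg_of_nonpos hcon h2.le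
      linarith
  have hgt : ∀ c, v.2 < height (p c) v.1 → 0 < h' c := by
    intro c hc
    rcases hD with ⟨h1, h2⟩ | ⟨h1, h2⟩
    · have h3 : 0 < side (p a) (p b) (p c) := by
        rw [← key]; exact mul_pos (by linarith) h1
      have h4 := hpos a b c h3
      rw [← key'] at h4
      by_contra hcon
      push Not at hcon
      have := mul_nonpos_of_nonpos_of_nonneg hcon h2.le
      linarith
    · have h3 : side (p a) (p b) (p c) < 0 := by
        rw [← key]; exact mul_neg_of_pos_of_neg (by linarith) h1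
      have h4 := hneg a b c h3
      rw [← key'] at h4
      by_contra hcon
      push Not at hcon
      have := mul_nonneg_of_nonpos_of_nonpos hcon h2.le
      linarith
  -- lines through `v`
  have hthr : ∀ c ∈ Q, c ≠ a → c ≠ b → height (p c) v.1 = v.2 →
      (h' c < 0 ↔ (p a).1 < (p c).1) := by
    intro c hcQ hca hcb hc
    have hcS : c ∈ S := by rw [hS, mem_filter]; exact ⟨hcQ, hca, hc⟩
    have h1 := hbmin c hcS
    set x₂ : ℝ := cr (fun l => (p' l).1) (fun l => (p' l).2) a c with hx₂
    have hac' := hs' a c hca.symm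
    have h2 : h' c = ((p' c).1 - (p' a).1) * (x₁ - x₂) := by
      have h3 : (p' a).1 - (p' c).1 ≠ 0 := sub_ne_zero.mpr hac'
      rw [hh', hx₂]
      unfold ht cr
      field_simp
      ring
    have h3 : h' c ≠ 0 := by
      intro h4
      have h5 := key' c
      rw [h4, zero_mul] at h5
      exact hp'.2 a b c hba.symm hca.symm hcb.symm h5.symm
    have h4 : x₁ < x₂ := by
      refine lt_of_le_of_ne h1 (fun h5 => h3 ?_)
      rw [h2]
      have h6 : x₁ = x₂ := h5
      rw [h6]
      ring
    constructor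
    · intro h5
      rcases lt_or_gt_of_ne (hslope c hca hc) with h6 | h6
      · exact h6
      · have h7 := hsl c a h6
        have : 0 < h' c := by
          rw [h2]; exact mul_pos_of_neg_of_neg (by linarith) (by linarith)
        linarith
    · intro h5
      have h7 := hsl a c h5
      rw [h2]
      exact mul_neg_of_pos_of_neg (by linarith) (by linarith)
  have ha0 : h' a = 0 := by rw [hh']; simp
  have hb0 : h' b = 0 := by
    have h1 := key' b
    rw [side_self_right] at h1
    rcases mul_eq_zero.mp h1 with h | h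
    · exact h
    · exact absurd (by linarith) hab'
  have hK : Q.filter (fun c => h' c < 0) = L.erase b := by
    ext c
    rw [mem_filter, mem_erase, hL, mem_filter]
    constructor
    · rintro ⟨h1, h2⟩
      have hca : c ≠ a := fun h => by rw [h, ha0] at h2; exact lt_irrefl _ h2
      have hcb : c ≠ b := fun h => by rw [h, hb0] at h2; exact lt_irrefl _ h2
      refine ⟨hcb, h1, ?_⟩
      rcases lt_trichotomy (height (p c) v.1) v.2 with h | h | h
      · exact Or.inl h
      · exact Or.inr ⟨h, (hthr c h1 hca hcb h).1 h2⟩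
      · exact absurd h2 (not_lt.2 (hgt c h).le)
    · rintro ⟨hcb, h1, h2⟩
      refine ⟨h1, ?_⟩
      rcases h2 with h2 | ⟨h2, h3⟩
      · exact hlt c h2
      · have hca : c ≠ a := fun h => by rw [h] at h3; exact lt_irrefl _ h3
        exact (hthr c h1 hca hcb h2).2 h3
  have hcard : (Q.filter (fun c => h' c < 0)).card = k ∨
      (Q.filter (fun c => h' c < 0)).card + 1 = k := by
    rw [hK]
    by_cases hbL : b ∈ L
    · right
      rw [Finset.card_erase_add_one hbL, hLk]
    · left
      rw [Finset.erase_eq_of_notMem hbL, hLk]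
  refine ⟨(Q.filter (fun c => h' c < 0)).card, hcard, ?_⟩
  rcases hD with ⟨h1, h2⟩ | ⟨h1, h2⟩
  · right
    congr 1
    ext c
    rw [mem_inter, mem_PB, mem_filter, and_comm, ← key']
    refine and_congr_right fun _ => ?_
    constructor
    · intro h3
      by_contra hcon
      push Not at hcon
      have := mul_nonneg hcon h2.le
      linarith
    · intro h3
      exact mul_neg_of_neg_of_pos h3 h2
  · left
    congr 1
    ext c
    rw [mem_inter, mem_PA, mem_filter, and_comm, ← key']
    refine and_congr_right fun _ => ?_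
    constructor
    · intro h3
      by_contra hcon
      push Not at hcon
      have := mul_nonpos_of_nonneg_of_nonpos hcon h2.le
      linarith
    · intro h3
      exact mul_pos_of_neg_of_neg h3 h2

end Pool.Agent.L0h67.HL
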