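import Pool.Agent.L0h67.HL.PertS

/-!
# Halving lines: random points with an arbitrary law without atoms
-/

set_option autoImplicit false

namespace Pool.Agent.L0h67.HL

open Finset MeasureTheory Filter Topology Pool.Agent.R117.KR Pool.Agent.H189R2.Lev
open Pool.Agent.H189R2.Iid
open scoped ENNReal

variable {n N : ℕ}

/-- families of points can be moved into general position -/
theorem exists_moveF (P : Fin N → ℝ × ℝ) : ∃ P' : Fin N → ℝ × ℝ, General P' ∧
    ∀ i j l, 0 < side (P i) (P j) (P l) → 0 < side (P' i) (P' j) (P' l) := by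
  set mv : ℝ → Fin N → ℝ × ℝ := fun t i =>
    ((P i).1 + t * ((i : ℕ) : ℝ), (P i).2 + t * ((i : ℕ) : ℝ) ^ 2) with hmv
  have hside : ∀ t i j l, side (mv t i) (mv t j) (mv t l) = side (P i) (P j) (P l) +
      t * (((P j).1 - (P i).1) * (((l : ℕ) : ℝ) ^ 2 - ((i : ℕ) : ℝ) ^ 2) +
        (((j : ℕ) : ℝ) - ((i : ℕ) : ℝ)) * ((P l).2 - (P i).2) -
        ((P j).2 - (P i).2) * (((l : ℕ) : ℝ) - ((i : ℕ) : ℝ)) -
        (((j : ℕ) : ℝ) ^ 2 - ((i : ℕ) : ℝ) ^ 2) * ((P l).1 - (P i).1)) +
      t ^ 2 * ((((j : ℕ) : ℝ) - ((i : ℕ) : ℝ)) * (((l : ℕ) : ℝ) - ((i : ℕ) : ℝ)) *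
        (((l : ℕ) : ℝ) - ((j : ℕ) : ℝ))) := by
    intro t i j l
    simp only [hmv, side]
    ring
  have hne : ∀ i j : Fin N, i ≠ j → ((j : ℕ) : ℝ) - ((i : ℕ) : ℝ) ≠ 0 := by
    intro i j hij h
    apply hij
    have h1 : ((j : ℕ) : ℝ) = ((i : ℕ) : ℝ) := sub_eq_zero.1 h
    have h2 : (j : ℕ) = (i : ℕ) := by exact_mod_cast h1
    exact (Fin.ext h2).symm
  have h1 : ∀ᶠ t in 𝓝[>] (0 : ℝ), ∀ i j l, i ≠ j → i ≠ l → j ≠ l →
      side (mv t i) (mv t j) (mv t l) ≠ 0 := by
    rw [eventually_all]
    intro i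
    rw [eventually_all]
    intro j
    rw [eventually_all]
    intro l
    by_cases h : i ≠ j ∧ i ≠ l ∧ j ≠ l
    · obtain ⟨hij, hil, hjl⟩ := h
      have := ev_quad (A := side (P i) (P j) (P l))
        (B := ((P j).1 - (P i).1) * (((l : ℕ) : ℝ) ^ 2 - ((i : ℕ) : ℝ) ^ 2) +
        (((j : ℕ) : ℝ) - ((i : ℕ) : ℝ)) * ((P l).2 - (P i).2) -
        ((P j).2 - (P i).2) * (((l : ℕ) : ℝ) - ((i : ℕ) : ℝ)) -
        (((j : ℕ) : ℝ) ^ 2 - ((i : ℕ) : ℝ) ^ 2) * ((P l).1 - (P i).1))
        (mul_ne_zero (mul_ne_zero (hne i j hij) (hne i l hil)) (hne j l hjl))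
      filter_upwards [this] with t ht _ _ _
      rw [hside]
      exact ht
    · exact Eventually.of_forall fun t h1 h2 h3 => absurd ⟨h1, h2, h3⟩ h
  have h2 : ∀ᶠ t in 𝓝[>] (0 : ℝ), ∀ i j l, 0 < side (P i) (P j) (P l) →
      0 < side (mv t i) (mv t j) (mv t l) := by
    rw [eventually_all]
    intro i
    rw [eventually_all]
    intro j
    rw [eventually_all]
    intro l
    by_cases h : 0 < side (P i) (P j) (P l)
    · have hc : Continuous fun t => side (mv t i) (mv t j) (mv t l) := by
        simp only [hside]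
        fun_prop
      have h0 : 0 < side (mv 0 i) (mv 0 j) (mv 0 l) := by
        rw [hside]
        simpa using h
      have := (hc.continuousAt.eventually (lt_mem_nhds h0)).filter_mono
        (nhdsWithin_le_nhds (s := Set.Ioi (0 : ℝ)))
      filter_upwards [this] with t ht _
      exact ht
    · exact Eventually.of_forall fun t h1 => absurd h1 h
  have h3 : ∀ᶠ t in 𝓝[>] (0 : ℝ), ∀ i j, i ≠ j → mv t i ≠ mv t j := by
    rw [eventually_all]
    intro i
    rw [eventually_all]
    intro j
    by_cases h : i ≠ j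
    · filter_upwards [ev_lin (A := (P j).1 - (P i).1) (hne i j h)] with t ht _ heq
      apply ht
      have := congrArg Prod.fst heq
      simp only [hmv] at this
      linarith
    · exact Eventually.of_forall fun t h1 => absurd h1 h
  obtain ⟨t, g1, g2, g3⟩ := (h1.and (h2.and h3)).exists
  refine ⟨mv t, ⟨fun i j heq => ?_, g1⟩, g2⟩
  by_contra hcon
  exact g3 i j hcon heq

theorem halving_move {P P' : Fin n → ℝ × ℝ} (hn : Even n) (hg : General P')
    (hs : ∀ i j l, 0 < side (P i) (P j) (P l) → 0 < side (P' i) (P' j) (P' l)) :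
    halving P ⊆ halving P' := by
  rintro ⟨i, j⟩ ⟨hij, h1, h2⟩
  simp only at hij h1 h2
  have h3 := count_side hg hij.ne
  have h4 : (pos P i j).ncard ≤ (pos P' i j).ncard :=
    Set.ncard_le_ncard (fun l hl => hs _ _ _ hl) (Set.toFinite _)
  have h5 : (neg P i j).ncard ≤ (neg P' i j).ncard := by
    refine Set.ncard_le_ncard (fun l hl => ?_) (Set.toFinite _)
    have h6 : side (P i) (P j) (P l) < 0 := hl
    have h7 := hs j i l (by rw [side_swap]; linarith)
    rw [side_swap] at h7
    show side (P' i) (P' j) (P' l) < 0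
    linarith
  obtain ⟨k, hk⟩ := hn
  refine ⟨hij, ?_, ?_⟩ <;> simp only <;> omega

/-- increasing enumerations of sets of indices -/
theorem exists_enum (hm : n ≤ N) : ∃ e : Finset (Fin N) → Fin n → Fin N,
    ∀ A, A.card = n → Function.Injective (e A) ∧ univ.image (e A) = A := by
  have hex : ∀ A : Finset (Fin N), ∃ e : Fin n → Fin N, A.card = n →
      Function.Injective e ∧ univ.image e = A := by
    intro A
    by_cases hA : A.card = n
    · refine ⟨A.orderEmbOfFin hA, fun _ => ⟨(A.orderEmbOfFin hA).injective, ?_⟩⟩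
      rw [← Finset.coe_inj, coe_image, coe_univ, Set.image_univ]
      exact Finset.range_orderEmbOfFin A hA
    · exact ⟨fun i => Fin.castLE hm i, fun h => absurd h hA⟩
  choose e he using hex
  exact ⟨e, he⟩

open Classical in
theorem sum_halving {X : Fin N → ℝ × ℝ} (hX : General X) {e : Finset (Fin N) → Fin n → Fin N}
    (he : ∀ A, A.card = n → Function.Injective (e A) ∧ univ.image (e A) = A) :
    ∑ A ∈ (univ : Finset (Fin N)).powersetCard n, (halving (X ∘ e A)).ncard =
      ∑ Q ∈ (univ.image X).powersetCard n, {L | IsBisector Q L}.ncard := by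
  have hT : ∑ Q ∈ (univ.image X).powersetCard n, {L | IsBisector Q L}.ncard =
      ∑ A ∈ (univ : Finset (Fin N)).powersetCard n, {L | IsBisector (A.image X) L}.ncard := by
    have hmap : univ.image X = (univ : Finset (Fin N)).map ⟨X, hX.1⟩ := by
      rw [Finset.map_eq_image]; rfl
    rw [hmap, Finset.powersetCard_map, sum_map]
    apply sum_congr rfl
    intro Q _
    have : (Finset.mapEmbedding (⟨X, hX.1⟩ : Fin N ↪ ℝ × ℝ)).toEmbedding Q = Q.image X := by
      show Q.map ⟨X, hX.1⟩ = Q.image X
      rw [Finset.map_eq_image]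
      rfl
    rw [this]
  rw [hT]
  apply sum_congr rfl
  intro A hA
  rw [mem_powersetCard] at hA
  obtain ⟨h1, h2⟩ := he A hA.2
  have h3 : General (X ∘ e A) := by
    refine ⟨hX.1.comp h1, fun i j l hij hil hjl => ?_⟩
    exact hX.2 _ _ _ (fun h => hij (h1 h)) (fun h => hil (h1 h)) (fun h => hjl (h1 h))
  have h4 : univ.image (X ∘ e A) = A.image X := by
    rw [← Finset.image_image, h2]
  rw [← h4, bisectors_eq h3]

/-- the expected number of halving pairs for an arbitrary law -/
theorem expect_halving_all (μ : Measure (ℝ × ℝ)) [IsProbabilityMeasure μ] (hn : Even n) :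
    ∫⁻ P, ((halving P).ncard : ℝ≥0∞) ∂Measure.pi (fun _ : Fin n => μ) ≤
      ENNReal.ofReal (2 * (20928 * SS) * (n : ℝ) ^ (7 / 6 : ℝ)) := by
  classical
  have hSS := SS_ge
  obtain ⟨e, he⟩ := exists_enum (n := n) (N := 2 * n + 1) (by omega)
  set K : ℝ := 2 * (20928 * SS) * (n : ℝ) ^ (7 / 6 : ℝ) with hK
  have hK0 : 0 ≤ K := by
    have : 0 ≤ SS := by linarith
    positivity
  -- every family
  have hpt : ∀ X : Fin (2 * n + 1) → ℝ × ℝ,
      ∑ A ∈ (univ : Finset (Fin (2 * n + 1))).powersetCard n, ((halving (X ∘ e A)).ncard : ℝ≥0∞) ≤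
        ((2 * n + 1).choose n : ℝ≥0∞) * ENNReal.ofReal K := by
    intro X
    obtain ⟨X', hX', hs⟩ := exists_moveF X
    have h1 : ∑ A ∈ (univ : Finset (Fin (2 * n + 1))).powersetCard n, (halving (X ∘ e A)).ncard ≤
        ∑ Q ∈ (univ.image X').powersetCard n, {L | IsBisector Q L}.ncard := by
      rw [← sum_halving hX' he]
      refine sum_le_sum fun A hA => ?_
      rw [mem_powersetCard] at hA
      obtain ⟨g1, -⟩ := he A hA.2
      refine Set.ncard_le_ncard (halving_move hn ?_ fun i j l h => hs _ _ _ h) (Set.toFinite _)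
      refine ⟨hX'.1.comp g1, fun i j l hij hil hjl => ?_⟩
      exact hX'.2 _ _ _ (fun h => hij (g1 h)) (fun h => hil (g1 h)) (fun h => hjl (g1 h))
    have hc : (univ.image X').card = 2 * n + 1 := by
      rw [card_image_of_injective _ hX'.1, card_univ, Fintype.card_fin]
    have hT : NoThree (univ.image X') := by
      intro p hp q hq r hr hpq hpr hqr
      obtain ⟨i, -, rfl⟩ := mem_image.1 hp
      obtain ⟨j, -, rfl⟩ := mem_image.1 hq
      obtain ⟨l, -, rfl⟩ := mem_image.1 hr
      exact hX'.2 i j l (fun h => hpq (by rw [h])) (fun h => hpr (by rw [h]))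
        (fun h => hqr (by rw [h]))
    have h2 := avg_bound hT hn (by rw [hc]; omega)
    rw [hc] at h2
    have h3 : Real.sqrt ((((2 * n + 1 : ℕ) : ℝ)) / ((((2 * n + 1 : ℕ) : ℝ)) - n)) ≤ 2 := by
      rw [Real.sqrt_le_left (by norm_num)]
      push_cast
      have h0 : (0 : ℝ) < 2 * (n : ℝ) + 1 - n := by
        have : (0 : ℝ) ≤ n := by positivity
        linarith
      rw [div_le_iff₀ h0]
      have : (0 : ℝ) ≤ n := by positivity
      linarith
    have h4 : ((∑ A ∈ (univ : Finset (Fin (2 * n + 1))).powersetCard n,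
        (halving (X ∘ e A)).ncard : ℕ) : ℝ) ≤ K * ((2 * n + 1).choose n : ℝ) := by
      refine (Nat.cast_le.2 h1).trans (h2.trans ?_)
      refine mul_le_mul_of_nonneg_right ?_ (by positivity)
      rw [hK]
      have h5 : (0 : ℝ) ≤ (n : ℝ) ^ (7 / 6 : ℝ) := by positivity
      refine mul_le_mul_of_nonneg_right ?_ h5
      have h6 : 0 ≤ 20928 * SS := by linarith
      nlinarith
    calc ∑ A ∈ (univ : Finset (Fin (2 * n + 1))).powersetCard n, ((halving (X ∘ e A)).ncard : ℝ≥0∞)
        = ((∑ A ∈ (univ : Finset (Fin (2 * n + 1))).powersetCard n,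
          (halving (X ∘ e A)).ncard : ℕ) : ℝ≥0∞) := by push_cast; rfl
      _ = ENNReal.ofReal ((∑ A ∈ (univ : Finset (Fin (2 * n + 1))).powersetCard n,
          (halving (X ∘ e A)).ncard : ℕ) : ℝ) := by rw [ENNReal.ofReal_natCast]
      _ ≤ ENNReal.ofReal (K * ((2 * n + 1).choose n : ℝ)) := ENNReal.ofReal_le_ofReal h4
      _ = ((2 * n + 1).choose n : ℝ≥0∞) * ENNReal.ofReal K := by
          rw [ENNReal.ofReal_mul hK0, ENNReal.ofReal_natCast, mul_comm]
  have hmeas : Measurable (fun Y : Fin n → ℝ × ℝ => ((halving Y).ncard : ℝ≥0∞)) :=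
    measurable_from_top.comp measurable_halving
  have hcomp : ∀ A : Finset (Fin (2 * n + 1)),
      Measurable (fun X : Fin (2 * n + 1) → ℝ × ℝ => X ∘ e A) := fun A =>
    measurable_pi_lambda _ (fun i => measurable_pi_apply (e A i))
  have hint : ((2 * n + 1).choose n : ℝ≥0∞) *
      ∫⁻ P, ((halving P).ncard : ℝ≥0∞) ∂Measure.pi (fun _ : Fin n => μ) ≤
        ((2 * n + 1).choose n : ℝ≥0∞) * ENNReal.ofReal K := by
    calc ((2 * n + 1).choose n : ℝ≥0∞) *
          ∫⁻ P, ((halving P).ncard : ℝ≥0∞) ∂Measure.pi (fun _ : Fin n => μ)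
        = ∑ A ∈ (univ : Finset (Fin (2 * n + 1))).powersetCard n,
            ∫⁻ X, ((halving (X ∘ e A)).ncard : ℝ≥0∞)
              ∂Measure.pi (fun _ : Fin (2 * n + 1) => μ) := by
          have h1 : ∀ A ∈ (univ : Finset (Fin (2 * n + 1))).powersetCard n,
              ∫⁻ X, ((halving (X ∘ e A)).ncard : ℝ≥0∞)
                ∂Measure.pi (fun _ : Fin (2 * n + 1) => μ) =
                ∫⁻ P, ((halving P).ncard : ℝ≥0∞) ∂Measure.pi (fun _ : Fin n => μ) := by
            intro A hA
            rw [mem_powersetCard] at hA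
            rw [← law_comp μ (he A hA.2).1, lintegral_map hmeas (hcomp A)]
          rw [sum_congr rfl h1, sum_const, card_powersetCard, card_univ, Fintype.card_fin,
            nsmul_eq_mul]
      _ = ∫⁻ X, ∑ A ∈ (univ : Finset (Fin (2 * n + 1))).powersetCard n,
            ((halving (X ∘ e A)).ncard : ℝ≥0∞) ∂Measure.pi (fun _ : Fin (2 * n + 1) => μ) := by
          have hm1 : ∀ A ∈ (univ : Finset (Fin (2 * n + 1))).powersetCard n, Measurable
              (fun X : Fin (2 * n + 1) → ℝ × ℝ => ((halving (X ∘ e A)).ncard : ℝ≥0∞)) :=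
            fun A _ => hmeas.comp (hcomp A)
          rw [lintegral_finsetSum _ hm1]
      _ ≤ ∫⁻ _, ((2 * n + 1).choose n : ℝ≥0∞) * ENNReal.ofReal K
            ∂Measure.pi (fun _ : Fin (2 * n + 1) => μ) := lintegral_mono hpt
      _ = ((2 * n + 1).choose n : ℝ≥0∞) * ENNReal.ofReal K := by
          rw [lintegral_const, measure_univ, mul_one]
  have hch : ((2 * n + 1).choose n : ℝ≥0∞) ≠ 0 := by
    have : 0 < (2 * n + 1).choose n := Nat.choose_pos (by omega)
    exact_mod_cast this.ne'
  exact (ENNReal.mul_le_mul_iff_right hch (ENNReal.natCast_ne_top _)).1 hint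

open Classical in
/-- if the points are distinct and their number is even, then the bisectors correspond to the
halving pairs -/
theorem bisectors_eq_even {P : Fin n → ℝ × ℝ} (hP : Function.Injective P) (hn : Even n) :
    {L | IsBisector (univ.image P) L}.ncard = (halving P).ncard := by
  apply le_antisymm (bisectors_le hP)
  have hline : ∀ p q : ℝ × ℝ, {r | side p q r = 0} = Line (-(q.2 - p.2)) (q.1 - p.1)
      (-(q.2 - p.2) * p.1 + (q.1 - p.1) * p.2) := by
    intro p q
    ext r
    simp only [Line, Set.mem_ofPred_eq, side]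
    constructor <;> intro h <;> linarith
  apply Set.ncard_le_ncard_of_injOn (fun q : Fin n × Fin n => {r | side (P q.1) (P q.2) r = 0})
    (ht := bisectors_finite _)
  · rintro ⟨i, j⟩ ⟨hij, h1, h2⟩
    simp only at hij h1 h2 ⊢
    have hne : P i ≠ P j := fun h => hij.ne (hP h)
    refine ⟨-((P j).2 - (P i).2), (P j).1 - (P i).1,
      -((P j).2 - (P i).2) * (P i).1 + ((P j).1 - (P i).1) * (P i).2, ?_, hline _ _, ?_, ?_, ?_⟩
    · by_contra hcon
      push Not at hcon
      apply hne
      refine Prod.ext ?_ ?_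
      · linarith [hcon.2]
      · linarith [hcon.1]
    · exact ⟨P i, mem_image_of_mem _ (mem_univ _), P j, mem_image_of_mem _ (mem_univ _), hne,
        side_self_left _ _, side_self_right _ _⟩
    · rw [card_image_filter hP, card_image hP, ← h2]
      congr 1
      ext l
      simp only [neg, Set.mem_ofPred_eq, side]
      constructor <;> intro h <;> linarith
    · rw [card_image_filter hP, card_image hP, ← h1]
      congr 1
      ext l
      simp only [pos, Set.mem_ofPred_eq, side]
      constructor <;> intro h <;> linarith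
  · rintro ⟨i, j⟩ ⟨hij, g1, g2⟩ ⟨i', j'⟩ ⟨hij', -, -⟩ heq
    simp only at hij hij' heq g1 g2
    have hi' : side (P i) (P j) (P i') = 0 := by
      have : P i' ∈ {r | side (P i) (P j) r = 0} := by
        rw [heq]; exact side_self_left _ _
      exact this
    have hj' : side (P i) (P j) (P j') = 0 := by
      have : P j' ∈ {r | side (P i) (P j) r = 0} := by
        rw [heq]; exact side_self_right _ _
      exact this
    have key : ∀ l, side (P i) (P j) (P l) = 0 → l = i ∨ l = j := by
      intro l hl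
      by_contra hcon
      push Not at hcon
      have hdisj : Disjoint (pos P i j) (neg P i j) := by
        rw [Set.disjoint_left]
        intro m hm hm'
        have a1 : 0 < side (P i) (P j) (P m) := hm
        have a2 : side (P i) (P j) (P m) < 0 := hm'
        linarith
      have h3 : (({i, j, l} : Finset (Fin n)) : Set (Fin n)).ncard = 3 := by
        rw [Set.ncard_coe_finset]
        exact card_eq_three.2 ⟨i, j, l, hij.ne, Ne.symm hcon.1, Ne.symm hcon.2, rfl⟩
      have hdisj2 : Disjoint (pos P i j ∪ neg P i j) (({i, j, l} : Finset (Fin n)) : Set (Fin n)) := by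
        rw [Set.disjoint_right]
        intro m hm hm'
        have hz : side (P i) (P j) (P m) = 0 := by
          rw [mem_coe, mem_insert, mem_insert, mem_singleton] at hm
          rcases hm with rfl | rfl | rfl
          · exact side_self_left _ _
          · exact side_self_right _ _
          · exact hl
        rcases hm' with hm' | hm'
        · have a1 : 0 < side (P i) (P j) (P m) := hm'
          linarith
        · have a1 : side (P i) (P j) (P m) < 0 := hm'
          linarith
      have h4 := Set.ncard_union_eq hdisj (Set.toFinite _) (Set.toFinite _)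
      have h5 := Set.ncard_union_eq hdisj2 (Set.toFinite _) (Set.toFinite _)
      have h6 : (pos P i j ∪ neg P i j ∪ (({i, j, l} : Finset (Fin n)) : Set (Fin n))).ncard ≤ n := by
        have := Set.ncard_le_ncard (Set.subset_univ
          (pos P i j ∪ neg P i j ∪ (({i, j, l} : Finset (Fin n)) : Set (Fin n)))) Set.finite_univ
        rwa [Set.ncard_univ, Nat.card_eq_fintype_card, Fintype.card_fin] at this
      obtain ⟨k, hk⟩ := hn
      omega
    rcases key i' hi' with h1 | h1 <;> rcases key j' hj' with h2 | h2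
    · rw [h1, h2] at hij'; exact absurd hij' (lt_irrefl _)
    · rw [h1, h2]
    · rw [h1, h2] at hij'; exact absurd hij' (lt_asymm hij)
    · rw [h1, h2] at hij'; exact absurd hij' (lt_irrefl _)

/-- independent points with a law without atoms are distinct -/
theorem ae_injective {μ : Measure (ℝ × ℝ)} [IsProbabilityMeasure μ] (hμ : ∀ x, μ {x} = 0) :
    ∀ᵐ P ∂Measure.pi (fun _ : Fin n => μ), Function.Injective P := by
  have m1 : ∀ i : Fin n, Measurable (fun P : Fin n → ℝ × ℝ => P i) := fun i => measurable_pi_apply i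
  have h1 : ∀ᵐ P ∂Measure.pi (fun _ : Fin n => μ), ∀ i j, i ≠ j → P i ≠ P j := by
    rw [ae_all_iff]; intro i
    rw [ae_all_iff]; intro j
    by_cases hij : i = j
    · exact Eventually.of_forall (fun _ h => absurd hij h)
    · have : ∀ᵐ P ∂Measure.pi (fun _ : Fin n => μ), P i ≠ P j := by
        rw [ae_iff]
        simp only [ne_eq, not_not]
        apply null_coord i (measurableSet_eq_fun (m1 i) (m1 j))
        intro P
        refine measure_mono_null ?_ (hμ (P j))
        intro y hy
        have hy' : Function.update P i y i = Function.update P i y j := hy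
        rw [Function.update_self, Function.update_of_ne (Ne.symm hij)] at hy'
        exact hy'
      filter_upwards [this] with P hP _
      exact hP
  filter_upwards [h1] with P hP i j heq
  by_contra hcon
  exact hP i j hcon heq

open Classical in
/-- the expected number of bisectors for an arbitrary law without atoms -/
theorem expect_all {μ : Measure (ℝ × ℝ)} [IsProbabilityMeasure μ] (hμ : ∀ x, μ {x} = 0)
    (hn : Even n) :
    AEMeasurable (fun X : Fin n → ℝ × ℝ =>
      ({L | IsBisector (univ.image X) L}.ncard : ℝ≥0∞)) (Measure.pi (fun _ : Fin n => μ)) ∧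
    ∫⁻ X, ({L | IsBisector (univ.image X) L}.ncard : ℝ≥0∞) ∂Measure.pi (fun _ : Fin n => μ) ≤
      ENNReal.ofReal (2 * (20928 * SS) * (n : ℝ) ^ (7 / 6 : ℝ)) := by
  have hm : Measurable (fun X : Fin n → ℝ × ℝ => ((halving X).ncard : ℝ≥0∞)) :=
    measurable_from_top.comp measurable_halving
  constructor
  · refine hm.aemeasurable.congr ?_
    filter_upwards [ae_injective hμ] with P hP
    rw [bisectors_eq_even hP hn]
  · refine le_trans (le_of_eq ?_) (expect_halving_all μ hn)
    apply lintegral_congr_ae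
    filter_upwards [ae_injective hμ] with P hP
    rw [bisectors_eq_even hP hn]

end Pool.Agent.L0h67.HL
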