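import Pool.Agent.L0h67.HL.Low3

/-!
# Halving lines: sets which are not in general position

Every finite set can be moved a little into general position, so that no bisector of an even subset
is lost.
-/

set_option autoImplicit false

namespace Pool.Agent.L0h67.HL

open Finset Filter Topology Pool.Agent.R117.KR Pool.Agent.H189R2.Lev Pool.Agent.H189R2.Iid

/-- the point `p` with the number `x p` is moved in the direction of a point of a parabola -/
def move (x : ℝ × ℝ → ℝ) (t : ℝ) (p : ℝ × ℝ) : ℝ × ℝ := (p.1 + t * x p, p.2 + t * x p ^ 2)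

theorem side_move (x : ℝ × ℝ → ℝ) (t : ℝ) (p q r : ℝ × ℝ) :
    side (move x t p) (move x t q) (move x t r) = side p q r +
      t * ((q.1 - p.1) * (x r ^ 2 - x p ^ 2) + (x q - x p) * (r.2 - p.2) -
        (q.2 - p.2) * (x r - x p) - (x q ^ 2 - x p ^ 2) * (r.1 - p.1)) +
      t ^ 2 * ((x q - x p) * (x r - x p) * (x r - x q)) := by
  unfold side move
  ring

theorem ev_ne0 {g : ℝ → ℝ} (hg : Continuous g) (h0 : g 0 ≠ 0) : ∀ᶠ t in 𝓝[>] (0 : ℝ), g t ≠ 0 :=
  (hg.continuousAt.eventually_ne h0).filter_mono nhdsWithin_le_nhds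

theorem ev_lin {A B : ℝ} (hB : B ≠ 0) : ∀ᶠ t in 𝓝[>] (0 : ℝ), A + t * B ≠ 0 := by
  by_cases hA : A = 0
  · have hpos : ∀ᶠ t in 𝓝[>] (0 : ℝ), 0 < t := self_mem_nhdsWithin
    filter_upwards [hpos] with t ht
    rw [hA, zero_add]
    exact mul_ne_zero ht.ne' hB
  · exact ev_ne0 (g := fun t => A + t * B) (by fun_prop) (by simpa using hA)

theorem ev_quad {A B D : ℝ} (hD : D ≠ 0) : ∀ᶠ t in 𝓝[>] (0 : ℝ), A + t * B + t ^ 2 * D ≠ 0 := by
  by_cases hA : A = 0
  · have hpos : ∀ᶠ t in 𝓝[>] (0 : ℝ), 0 < t := self_mem_nhdsWithin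
    filter_upwards [hpos, ev_lin (A := B) hD] with t ht h
    have e : A + t * B + t ^ 2 * D = t * (B + t * D) := by rw [hA]; ring
    rw [e]
    exact mul_ne_zero ht.ne' h
  · exact ev_ne0 (g := fun t => A + t * B + t ^ 2 * D) (by fun_prop) (by simpa using hA)

open Classical in
theorem exists_move (S : Finset (ℝ × ℝ)) : ∃ g : ℝ × ℝ → ℝ × ℝ, Set.InjOn g S ∧
    NoThree (S.image g) ∧
    ∀ p ∈ S, ∀ q ∈ S, ∀ r ∈ S, 0 < side p q r → 0 < side (g p) (g q) (g r) := by
  obtain ⟨f, hf⟩ := Set.countable_iff_exists_injOn.1 S.countable_toSet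
  set x : ℝ × ℝ → ℝ := fun p => (f p : ℝ) with hx
  have hxn : ∀ p ∈ S, ∀ q ∈ S, p ≠ q → x q - x p ≠ 0 := by
    intro p hp q hq hpq h
    apply hpq
    apply hf hp hq
    have : (f q : ℝ) = f p := by
      have := sub_eq_zero.1 h
      exact this
    exact_mod_cast this.symm
  have h1 : ∀ᶠ t in 𝓝[>] (0 : ℝ), ∀ p ∈ S, ∀ q ∈ S, ∀ r ∈ S, p ≠ q → p ≠ r → q ≠ r →
      side (move x t p) (move x t q) (move x t r) ≠ 0 := by
    rw [eventually_all_finset]
    intro p hp
    rw [eventually_all_finset]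
    intro q hq
    rw [eventually_all_finset]
    intro r hr
    by_cases h : p ≠ q ∧ p ≠ r ∧ q ≠ r
    · obtain ⟨hpq, hpr, hqr⟩ := h
      filter_upwards [ev_quad (A := side p q r)
        (B := (q.1 - p.1) * (x r ^ 2 - x p ^ 2) + (x q - x p) * (r.2 - p.2) -
        (q.2 - p.2) * (x r - x p) - (x q ^ 2 - x p ^ 2) * (r.1 - p.1))
        (D := (x q - x p) * (x r - x p) * (x r - x q))
        (mul_ne_zero (mul_ne_zero (hxn p hp q hq hpq) (hxn p hp r hr hpr)) (hxn q hq r hr hqr))]
        with t ht _ _ _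
      rw [side_move]
      exact ht
    · exact Eventually.of_forall fun t h1 h2 h3 => absurd ⟨h1, h2, h3⟩ h
  have h2 : ∀ᶠ t in 𝓝[>] (0 : ℝ), ∀ p ∈ S, ∀ q ∈ S, ∀ r ∈ S, 0 < side p q r →
      0 < side (move x t p) (move x t q) (move x t r) := by
    rw [eventually_all_finset]
    intro p hp
    rw [eventually_all_finset]
    intro q hq
    rw [eventually_all_finset]
    intro r hr
    by_cases h : 0 < side p q r
    · have hc : Continuous fun t => side (move x t p) (move x t q) (move x t r) := by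
        simp only [side_move]
        fun_prop
      have h0 : 0 < side (move x 0 p) (move x 0 q) (move x 0 r) := by
        rw [side_move]
        simpa using h
      have := (hc.continuousAt.eventually (lt_mem_nhds h0)).filter_mono
        (nhdsWithin_le_nhds (s := Set.Ioi (0 : ℝ)))
      filter_upwards [this] with t ht _
      exact ht
    · exact Eventually.of_forall fun t h1 => absurd h1 h
  have h3 : ∀ᶠ t in 𝓝[>] (0 : ℝ), ∀ p ∈ S, ∀ q ∈ S, p ≠ q → move x t p ≠ move x t q := by
    rw [eventually_all_finset]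
    intro p hp
    rw [eventually_all_finset]
    intro q hq
    by_cases h : p ≠ q
    · filter_upwards [ev_lin (A := q.1 - p.1) (hxn p hp q hq h)] with t ht _ heq
      apply ht
      have := congrArg Prod.fst heq
      unfold move at this
      simp only at this
      linarith
    · exact Eventually.of_forall fun t h1 => absurd h1 h
  obtain ⟨t, g1, g2, g3⟩ := (h1.and (h2.and h3)).exists
  have hinj : Set.InjOn (move x t) S := by
    intro p hp q hq heq
    by_contra hne
    exact g3 p hp q hq hne heq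
  refine ⟨move x t, hinj, ?_, g2⟩
  intro p' hp' q' hq' r' hr' hpq hpr hqr
  obtain ⟨p, hp, rfl⟩ := mem_image.1 hp'
  obtain ⟨q, hq, rfl⟩ := mem_image.1 hq'
  obtain ⟨r, hr, rfl⟩ := mem_image.1 hr'
  exact g1 p hp q hq r hr (fun h => hpq (by rw [h])) (fun h => hpr (by rw [h]))
    (fun h => hqr (by rw [h]))

open Classical in
/-- no bisector of an even subset is lost -/
theorem bis_move {S Q : Finset (ℝ × ℝ)} {g : ℝ × ℝ → ℝ × ℝ} (hg : Set.InjOn g S)
    (hT : NoThree (S.image g))
    (hs : ∀ p ∈ S, ∀ q ∈ S, ∀ r ∈ S, 0 < side p q r → 0 < side (g p) (g q) (g r)) (hQ : Q ⊆ S)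
    (hn : Even Q.card) :
    {L | IsBisector Q L}.ncard ≤ {L | IsBisector (Q.image g) L}.ncard := by
  let P : Fin Q.card → ℝ × ℝ := fun i => (Q.equivFin.symm i : ℝ × ℝ)
  have hPinj : Function.Injective P := Subtype.val_injective.comp Q.equivFin.symm.injective
  have hPim : univ.image P = Q := by
    ext p
    simp only [mem_image, mem_univ, true_and]
    constructor
    · rintro ⟨i, rfl⟩
      exact (Q.equivFin.symm i).2
    · intro hp
      exact ⟨Q.equivFin ⟨p, hp⟩, by simp [P]⟩
  have hPm : ∀ i, P i ∈ S := fun i => hQ (Q.equivFin.symm i).2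
  have hne : ∀ i j, i ≠ j → g (P i) ≠ g (P j) := fun i j hij h =>
    hij (hPinj (hg (hPm i) (hPm j) h))
  have hgen : General (fun i => g (P i)) := by
    refine ⟨fun i j h => hPinj (hg (hPm i) (hPm j) h), fun i j l hij hil hjl => ?_⟩
    exact hT _ (mem_image_of_mem g (hPm i)) _ (mem_image_of_mem g (hPm j)) _
      (mem_image_of_mem g (hPm l)) (hne i j hij) (hne i l hil) (hne j l hjl)
  have him : Q.image g = univ.image (fun i => g (P i)) := by
    conv_lhs => rw [← hPim]
    rw [image_image]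
    rfl
  have h0 : {L | IsBisector Q L}.ncard ≤ (halving P).ncard := by
    have := bisectors_le hPinj
    rwa [hPim] at this
  rw [him, bisectors_eq hgen]
  refine h0.trans (Set.ncard_le_ncard ?_ (Set.toFinite _))
  rintro ⟨i, j⟩ ⟨hij, h1, h2⟩
  simp only at hij h1 h2
  have h3 := count_side hgen hij.ne
  have h4 : (pos P i j).ncard ≤ (pos (fun i => g (P i)) i j).ncard :=
    Set.ncard_le_ncard (fun l hl => hs _ (hPm i) _ (hPm j) _ (hPm l) hl) (Set.toFinite _)
  have h5 : (neg P i j).ncard ≤ (neg (fun i => g (P i)) i j).ncard := by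
    refine Set.ncard_le_ncard (fun l hl => ?_) (Set.toFinite _)
    have h6 : side (P i) (P j) (P l) < 0 := hl
    have h7 := hs _ (hPm j) _ (hPm i) _ (hPm l) (by rw [side_swap]; linarith)
    rw [side_swap] at h7
    show side (g (P i)) (g (P j)) (g (P l)) < 0
    linarith
  obtain ⟨k, hk⟩ := hn
  refine ⟨hij, ?_, ?_⟩ <;> simp only <;> omega

open Classical in
/-- the average number of bisectors of the `n`-element subsets of an arbitrary set -/
theorem avg_bound_all (S : Finset (ℝ × ℝ)) {n : ℕ} (hn : Even n) (h : n < S.card) :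
    ((∑ Q ∈ S.powersetCard n, {L | IsBisector Q L}.ncard : ℕ) : ℝ) ≤
      20928 * SS * Real.sqrt ((S.card : ℝ) / ((S.card : ℝ) - n)) * (n : ℝ) ^ (7 / 6 : ℝ) *
        (S.card.choose n) := by
  obtain ⟨g, hg, hT, hs⟩ := exists_move S
  have hc : (S.image g).card = S.card := card_image_of_injOn hg
  have h1 := avg_bound hT hn (by rw [hc]; exact h)
  rw [hc] at h1
  refine le_trans ?_ h1
  have h2 : ∑ Q ∈ S.powersetCard n, {L | IsBisector Q L}.ncard ≤
      ∑ Q ∈ (S.image g).powersetCard n, {L | IsBisector Q L}.ncard := by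
    calc ∑ Q ∈ S.powersetCard n, {L | IsBisector Q L}.ncard
        ≤ ∑ Q ∈ S.powersetCard n, {L | IsBisector (Q.image g) L}.ncard := by
          refine sum_le_sum fun Q hQ => ?_
          rw [mem_powersetCard] at hQ
          exact bis_move hg hT hs hQ.1 (by rw [hQ.2]; exact hn)
      _ = ∑ Q' ∈ (S.powersetCard n).image (fun Q => Q.image g), {L | IsBisector Q' L}.ncard := by
          rw [sum_image]
          intro Q1 hQ1 Q2 hQ2 heq
          rw [mem_coe, mem_powersetCard] at hQ1 hQ2
          have key : ∀ Q1 Q2 : Finset (ℝ × ℝ), Q1 ⊆ S → Q2 ⊆ S → Q1.image g = Q2.image g →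
              Q1 ⊆ Q2 := by
            intro Q1 Q2 h1 h2 he p hp
            have h3 : g p ∈ Q2.image g := by
              rw [← he]
              exact mem_image_of_mem g hp
            obtain ⟨q, hq, hqp⟩ := mem_image.1 h3
            rwa [← hg (h2 hq) (h1 hp) hqp]
          exact Subset.antisymm (key _ _ hQ1.1 hQ2.1 heq) (key _ _ hQ2.1 hQ1.1 heq.symm)
      _ ≤ _ := by
          refine sum_le_sum_of_subset ?_
          intro Q' hQ'
          obtain ⟨Q, hQ, rfl⟩ := mem_image.1 hQ'
          rw [mem_powersetCard] at hQ ⊢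
          refine ⟨image_subset_image hQ.1, ?_⟩
          rw [card_image_of_injOn (hg.mono (by exact_mod_cast hQ.1)), hQ.2]
  exact_mod_cast h2

end Pool.Agent.L0h67.HL
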