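import Pool.Agent.L0h67.HL.Pairs
import Pool.Agent.Results.MP_a08d0a_co.SmoothedLevel

/-! Crossings of a given level for independent random lines whose laws are dominated by
`τ i ⊗ Lebesgue measure`. -/

set_option autoImplicit false

namespace Pool.Agent.L0h67.HL

open Finset MeasureTheory Filter Pool.Agent.R117.KR Pool.Agent.H189R2.Lev
open Pool.Agent.Results.MP_a08d0a_co
open scoped ENNReal Topology

variable {n : ℕ}

/-- first coordinates (slopes) -/
def xs (P : Fin n → ℝ × ℝ) : Fin n → ℝ := fun l => (P l).1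

/-- second coordinates (intercepts) -/
def ys (P : Fin n → ℝ × ℝ) : Fin n → ℝ := fun l => (P l).2

theorem xs_update (P : Fin n → ℝ × ℝ) (i : Fin n) (p : ℝ × ℝ) :
    xs (Function.update P i p) = Function.update (xs P) i p.1 := by
  funext l
  unfold xs
  by_cases h : l = i
  · subst h; simp
  · simp [Function.update_of_ne h]

theorem ys_update (P : Fin n → ℝ × ℝ) (i : Fin n) (p : ℝ × ℝ) :
    ys (Function.update P i p) = Function.update (ys P) i p.2 := by
  funext l
  unfold ys
  by_cases h : l = i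
  · subst h; simp
  · simp [Function.update_of_ne h]

theorem measurable_xs (i : Fin n) : Measurable (fun P : Fin n → ℝ × ℝ => xs P i) :=
  (measurable_pi_apply i).fst

theorem measurable_ys (i : Fin n) : Measurable (fun P : Fin n → ℝ × ℝ => ys P i) :=
  (measurable_pi_apply i).snd

theorem measurable_cr' (i j : Fin n) :
    Measurable (fun P : Fin n → ℝ × ℝ => cr (xs P) (ys P) i j) := by
  unfold cr
  exact ((measurable_ys j).sub (measurable_ys i)).div ((measurable_xs i).sub (measurable_xs j))

theorem measurable_ht' (i j l : Fin n) :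
    Measurable (fun P : Fin n → ℝ × ℝ => ht (xs P) (ys P) l (cr (xs P) (ys P) i j)) := by
  unfold ht
  exact ((measurable_xs l).mul (measurable_cr' i j)).add (measurable_ys l)

theorem measurableSet_PosV (k : ℕ) (i j : Fin n) :
    MeasurableSet {P : Fin n → ℝ × ℝ | PosV (xs P) (ys P) k i j} := by
  unfold PosV
  have h1 : MeasurableSet {P : Fin n → ℝ × ℝ | xs P i ≠ xs P j} :=
    (measurableSet_eq_fun (measurable_xs i) (measurable_xs j)).compl
  have h2 : MeasurableSet {P : Fin n → ℝ × ℝ | 0 ≤ cr (xs P) (ys P) i j} :=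
    measurableSet_le measurable_const (measurable_cr' i j)
  have h3 : MeasurableSet {P : Fin n → ℝ × ℝ |
      {l | ht (xs P) (ys P) l (cr (xs P) (ys P) i j) <
        ht (xs P) (ys P) i (cr (xs P) (ys P) i j)}.ncard = k} :=
    (SmoothedLevel.measurable_ncard (fun (P : Fin n → ℝ × ℝ) l =>
      ht (xs P) (ys P) l (cr (xs P) (ys P) i j) < ht (xs P) (ys P) i (cr (xs P) (ys P) i j))
      (fun l => measurableSet_lt (measurable_ht' i j l) (measurable_ht' i j i)))
      (measurableSet_singleton k)
  have h4 : MeasurableSet {P : Fin n → ℝ × ℝ |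
      {l | ht (xs P) (ys P) i (cr (xs P) (ys P) i j) <
        ht (xs P) (ys P) l (cr (xs P) (ys P) i j)}.ncard + k + 2 = n} :=
    (SmoothedLevel.measurable_ncard (fun (P : Fin n → ℝ × ℝ) l =>
      ht (xs P) (ys P) i (cr (xs P) (ys P) i j) < ht (xs P) (ys P) l (cr (xs P) (ys P) i j))
      (fun l => measurableSet_lt (measurable_ht' i j i) (measurable_ht' i j l)))
      (MeasurableSet.of_discrete (s := {c : ℕ | c + k + 2 = n}))
  exact h1.inter (h2.inter (h3.inter h4))

/-- the value of `a m` is the `(k+1)`-st smallest -/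
def IsStat (a : Fin n → ℝ) (k : ℕ) (m : Fin n) : Prop :=
  {l | a l < a m}.ncard ≤ k ∧ k < {l | a l ≤ a m}.ncard

open Classical in
/-- the `(k+1)`-st smallest value -/
noncomputable def alpha (k : ℕ) (a : Fin n → ℝ) : ℝ :=
  ∑ m, if (IsStat a k m ∧ ∀ m' < m, ¬ IsStat a k m') then a m else 0

theorem exists_isStat (a : Fin n → ℝ) {k : ℕ} (hk : k < n) : ∃ m, IsStat a k m := by
  classical
  obtain ⟨s, hs1, hs2⟩ := exists_stat (univ : Finset (Fin n)) (fun l => -a l) (k := k)
    (by simpa using hk)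
  have h : ∃ m, -a m = s := by
    by_contra hcon
    push Not at hcon
    have hsub : univ.filter (fun l => s ≤ -a l) ⊆ univ.filter (fun l => s < -a l) := by
      intro l hl
      rw [mem_filter] at hl ⊢
      exact ⟨hl.1, lt_of_le_of_ne hl.2 (fun h => hcon l h.symm)⟩
    have := card_le_card hsub
    omega
  obtain ⟨m, hm⟩ := h
  refine ⟨m, ?_, ?_⟩
  · have e : {l | a l < a m} = ((univ.filter (fun l => s < -a l) : Finset _) : Set _) := by
      ext l
      simp only [Set.mem_ofPred_eq, coe_filter, mem_univ, true_and]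
      constructor <;> intro h <;> linarith
    rw [e, Set.ncard_coe_finset]
    exact hs1
  · have e : {l | a l ≤ a m} = ((univ.filter (fun l => s ≤ -a l) : Finset _) : Set _) := by
      ext l
      simp only [Set.mem_ofPred_eq, coe_filter, mem_univ, true_and]
      constructor <;> intro h <;> linarith
    rw [e, Set.ncard_coe_finset]
    exact hs2

theorem alpha_spec (a : Fin n → ℝ) {k : ℕ} (hk : k < n) : ∃ m, IsStat a k m ∧ alpha k a = a m := by
  classical
  have hex := exists_isStat a hk
  have hne : (univ.filter (fun m => IsStat a k m)).Nonempty := by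
    obtain ⟨m, hm⟩ := hex
    exact ⟨m, mem_filter.2 ⟨mem_univ _, hm⟩⟩
  set m := (univ.filter (fun m => IsStat a k m)).min' hne with hmdef
  have hm : IsStat a k m := (mem_filter.1 (Finset.min'_mem _ hne)).2
  have hmin : ∀ m' < m, ¬ IsStat a k m' := by
    intro m' hlt h
    have := Finset.min'_le (univ.filter (fun m => IsStat a k m)) m' (mem_filter.2 ⟨mem_univ _, h⟩)
    exact absurd hlt (not_lt.2 this)
  refine ⟨m, hm, ?_⟩
  unfold alpha
  rw [Finset.sum_eq_single m]
  · rw [if_pos ⟨hm, hmin⟩]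
  · intro m' _ hne'
    rw [if_neg]
    rintro ⟨h1, h2⟩
    rcases lt_or_gt_of_ne hne' with h | h
    · exact hmin m' h h1
    · exact h2 m h hm
  · intro h
    exact absurd (mem_univ _) h

theorem measurable_alpha (k : ℕ) : Measurable (fun P : Fin n → ℝ × ℝ => alpha k (xs P)) := by
  classical
  have hst : ∀ m, MeasurableSet {P : Fin n → ℝ × ℝ | IsStat (xs P) k m} := by
    intro m
    have h1 : MeasurableSet {P : Fin n → ℝ × ℝ | {l | xs P l < xs P m}.ncard ≤ k} :=
      (SmoothedLevel.measurable_ncard (fun (P : Fin n → ℝ × ℝ) l => xs P l < xs P m)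
        (fun l => measurableSet_lt (measurable_xs l) (measurable_xs m)))
        (MeasurableSet.of_discrete (s := {c : ℕ | c ≤ k}))
    have h2 : MeasurableSet {P : Fin n → ℝ × ℝ | k < {l | xs P l ≤ xs P m}.ncard} :=
      (SmoothedLevel.measurable_ncard (fun (P : Fin n → ℝ × ℝ) l => xs P l ≤ xs P m)
        (fun l => measurableSet_le (measurable_xs l) (measurable_xs m)))
        (MeasurableSet.of_discrete (s := {c : ℕ | k < c}))
    exact h1.inter h2
  unfold alpha
  apply Finset.measurable_sum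
  intro m _
  apply Measurable.ite _ (measurable_xs m) measurable_const
  refine (hst m).inter ?_
  show MeasurableSet {P : Fin n → ℝ × ℝ | ∀ m' < m, ¬ IsStat (xs P) k m'}
  have : {P : Fin n → ℝ × ℝ | ∀ m' < m, ¬ IsStat (xs P) k m'} =
      ⋂ m' : Fin n, {P | m' < m → ¬ IsStat (xs P) k m'} := by
    ext P
    simp
  rw [this]
  apply MeasurableSet.iInter
  intro m'
  by_cases h : m' < m
  · have e : {P : Fin n → ℝ × ℝ | m' < m → ¬ IsStat (xs P) k m'} =
        {P | IsStat (xs P) k m'}ᶜ := by
      ext P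
      simp [h]
    rw [e]
    exact (hst m').compl
  · have e : {P : Fin n → ℝ × ℝ | m' < m → ¬ IsStat (xs P) k m'} = Set.univ := by
      ext P
      simp [h]
    rw [e]
    exact MeasurableSet.univ

/-- hypotheses: independent random points in the strip `|y| ≤ M`, laws dominated by
`τ i ⊗ Lebesgue` -/
structure Dom (μ : Fin n → Measure (ℝ × ℝ)) (τ : Fin n → Measure ℝ) (M R : ℝ) : Prop where
  mass : ∀ i, τ i Set.univ ≤ ENNReal.ofReal R
  dom : ∀ i, μ i ≤ (τ i).prod volume
  strip : ∀ i, ∀ᵐ p ∂μ i, |p.2| ≤ M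

variable {μ : Fin n → Measure (ℝ × ℝ)} {τ : Fin n → Measure ℝ} {M R : ℝ}

theorem graph_null (h : Dom μ τ M R) (i : Fin n) (s t : ℝ) : μ i {p | p.2 = s * p.1 + t} = 0 := by
  have hm : MeasurableSet {p : ℝ × ℝ | p.2 = s * p.1 + t} :=
    measurableSet_eq_fun measurable_snd ((measurable_fst.const_mul s).add measurable_const)
  refine le_antisymm ?_ bot_le
  calc μ i {p | p.2 = s * p.1 + t} ≤ ((τ i).prod volume) {p | p.2 = s * p.1 + t} := h.dom i _
    _ = 0 := by
      rw [Measure.measure_prod_null hm]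
      refine Eventually.of_forall fun x => ?_
      have : Prod.mk x ⁻¹' {p : ℝ × ℝ | p.2 = s * p.1 + t} ⊆ {s * x + t} := by
        intro y hy
        exact hy
      exact measure_mono_null this (by simp)

theorem null_pi [∀ i, IsProbabilityMeasure (μ i)] (h : Dom μ τ M R) (l : Fin n) (s t : (Fin n → ℝ × ℝ) → ℝ) (hs : Measurable s)
    (ht : Measurable t) (hsl : ∀ P p, s (Function.update P l p) = s P)
    (htl : ∀ P p, t (Function.update P l p) = t P) :
    ∀ᵐ P ∂Measure.pi μ, (P l).2 ≠ s P * (P l).1 + t P := by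
  rw [ae_iff]
  simp only [ne_eq, not_not]
  have m1 : Measurable (fun P : Fin n → ℝ × ℝ => P l) := measurable_pi_apply l
  have hm : MeasurableSet {P : Fin n → ℝ × ℝ | (P l).2 = s P * (P l).1 + t P} :=
    measurableSet_eq_fun m1.snd ((hs.mul m1.fst).add ht)
  rw [← lintegral_indicator_one hm, pi_update μ l (measurable_one.indicator hm)]
  have : ∀ P : Fin n → ℝ × ℝ, ∫⁻ p, {P : Fin n → ℝ × ℝ | (P l).2 = s P * (P l).1 + t P}.indicator
      (1 : (Fin n → ℝ × ℝ) → ℝ≥0∞) (Function.update P l p) ∂μ l = 0 := by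
    intro P
    have e : ∀ p, {P : Fin n → ℝ × ℝ | (P l).2 = s P * (P l).1 + t P}.indicator
        (1 : (Fin n → ℝ × ℝ) → ℝ≥0∞) (Function.update P l p) =
        {p : ℝ × ℝ | p.2 = s P * p.1 + t P}.indicator 1 p := by
      intro p
      simp only [Set.indicator_apply, Set.mem_ofPred_eq, Function.update_self, hsl, htl,
        Pi.one_apply]
    simp only [e]
    have hms : MeasurableSet {p : ℝ × ℝ | p.2 = s P * p.1 + t P} :=
      measurableSet_eq_fun measurable_snd ((measurable_fst.const_mul _).add measurable_const)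
    rw [lintegral_indicator_one hms]
    exact graph_null h l _ _
  simp [this]

theorem ae_inj [∀ i, IsProbabilityMeasure (μ i)] (h : Dom μ τ M R) : ∀ᵐ P ∂Measure.pi μ, ∀ i j, i ≠ j → P i ≠ P j := by
  rw [ae_all_iff]; intro i
  rw [ae_all_iff]; intro j
  by_cases hij : i = j
  · exact Eventually.of_forall fun _ h => absurd hij h
  filter_upwards [null_pi h i (fun _ => 0) (fun P => (P j).2) measurable_const
    (measurable_ys j) (fun _ _ => rfl)
    (fun P p => by rw [Function.update_of_ne (Ne.symm hij)])] with P hP _ heq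
  apply hP
  rw [heq]
  ring

theorem ae_simple' [∀ i, IsProbabilityMeasure (μ i)] (h : Dom μ τ M R) :
    ∀ᵐ P ∂Measure.pi μ, SmoothedLevel.Simple (xs P) (ys P) := by
  have h2 : ∀ᵐ P ∂Measure.pi μ, ∀ i j l, i ≠ l → j ≠ l →
      (P l).2 ≠ -(cr (xs P) (ys P) i j) * (P l).1 +
        ht (xs P) (ys P) i (cr (xs P) (ys P) i j) := by
    rw [ae_all_iff]; intro i
    rw [ae_all_iff]; intro j
    rw [ae_all_iff]; intro l
    by_cases hil : i = l
    · exact Eventually.of_forall fun _ h => absurd hil h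
    by_cases hjl : j = l
    · exact Eventually.of_forall fun _ _ h => absurd hjl h
    have e1 : ∀ (P : Fin n → ℝ × ℝ) p, cr (xs (Function.update P l p)) (ys (Function.update P l p))
        i j = cr (xs P) (ys P) i j := by
      intro P p
      rw [xs_update, ys_update]
      unfold cr
      rw [Function.update_of_ne hil, Function.update_of_ne hjl, Function.update_of_ne hil,
        Function.update_of_ne hjl]
    have e2 : ∀ (P : Fin n → ℝ × ℝ) p, ht (xs (Function.update P l p)) (ys (Function.update P l p))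
        i (cr (xs (Function.update P l p)) (ys (Function.update P l p)) i j) =
        ht (xs P) (ys P) i (cr (xs P) (ys P) i j) := by
      intro P p
      rw [e1, xs_update, ys_update]
      unfold ht
      rw [Function.update_of_ne hil, Function.update_of_ne hil]
    filter_upwards [null_pi h l (fun P => -(cr (xs P) (ys P) i j))
      (fun P => ht (xs P) (ys P) i (cr (xs P) (ys P) i j)) (measurable_cr' i j).neg
      (measurable_ht' i j i) (fun P p => by rw [e1]) e2] with P hP _ _
    exact hP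
  filter_upwards [ae_inj h, h2] with P hP1 hP2
  refine ⟨fun i j hij ha hb => hP1 i j hij (Prod.ext ha hb), ?_⟩
  rintro i j l hij hil hjl ⟨x, e1, e2⟩
  by_cases ha : xs P i = xs P j
  · apply hP1 i j hij
    refine Prod.ext ha ?_
    unfold ht at e1
    rw [ha] at e1
    show ys P i = ys P j
    linarith
  · have ha' : xs P i - xs P j ≠ 0 := sub_ne_zero.mpr ha
    have hx : x = cr (xs P) (ys P) i j := by
      unfold cr ht at *
      rw [eq_div_iff ha']
      linarith
    apply hP2 i j l hil hjl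
    rw [← hx, e2]
    unfold ht xs ys
    ring

/-- the count attributed to the line `i` -/
noncomputable def cnt (k : ℕ) (i : Fin n) (P : Fin n → ℝ × ℝ) : ℕ :=
  {j | PosV (xs P) (ys P) k i j ∧ |xs P j - alpha k (xs P)| ≤ |xs P i - alpha k (xs P)|}.ncard

theorem measurable_cnt (k : ℕ) (i : Fin n) : Measurable (cnt k i : (Fin n → ℝ × ℝ) → ℕ) :=
  SmoothedLevel.measurable_ncard (fun (P : Fin n → ℝ × ℝ) j =>
    PosV (xs P) (ys P) k i j ∧ |xs P j - alpha k (xs P)| ≤ |xs P i - alpha k (xs P)|)
    (fun j => (measurableSet_PosV k i j).inter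
      (measurableSet_le (continuous_abs.measurable.comp ((measurable_xs j).sub (measurable_alpha k)))
        (continuous_abs.measurable.comp ((measurable_xs i).sub (measurable_alpha k)))))

theorem inner_y (hM : 0 < M) {k : ℕ} (hk : k + 2 ≤ n) (i : Fin n) (P : Fin n → ℝ × ℝ)
    (hP : ∀ l, |(P l).2| ≤ M) (x : ℝ) :
    ∫⁻ y in Set.Icc (-M) M, (cnt k i (Function.update P i (x, y)) : ℝ≥0∞) ≤
      ENNReal.ofReal (4 * M) := by
  classical
  set ν : Measure ℝ := ProbabilityTheory.cond volume (Set.Icc (-M) M) with hν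
  have hvol : (volume (Set.Icc (-M) M) : ℝ≥0∞) = ENNReal.ofReal (2 * M) := by
    rw [Real.volume_Icc]
    congr 1
    ring
  have hv0 : (volume (Set.Icc (-M) M) : ℝ≥0∞) ≠ 0 := by
    rw [hvol]
    exact (ENNReal.ofReal_pos.2 (by linarith)).ne'
  have hvt : (volume (Set.Icc (-M) M) : ℝ≥0∞) ≠ ∞ := by rw [hvol]; exact ENNReal.ofReal_ne_top
  have hprob : IsProbabilityMeasure ν :=
    ProbabilityTheory.cond_isProbabilityMeasure_of_finite hv0 hvt
  have hres : (volume.restrict (Set.Icc (-M) M) : Measure ℝ) =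
      (volume (Set.Icc (-M) M) : ℝ≥0∞) • ν := by
    rw [hν]
    unfold ProbabilityTheory.cond
    rw [smul_smul, ENNReal.mul_inv_cancel hv0 hvt, one_smul]
  have hD : ∀ s t : ℝ, s ≤ t → ν (Set.Icc s t) ≤ ENNReal.ofReal (1 / (2 * M) * (t - s)) := by
    intro s t _
    rw [hν, ProbabilityTheory.cond_apply measurableSet_Icc, hvol]
    calc (ENNReal.ofReal (2 * M))⁻¹ * volume (Set.Icc (-M) M ∩ Set.Icc s t)
        ≤ (ENNReal.ofReal (2 * M))⁻¹ * volume (Set.Icc s t) :=
          mul_le_mul_right (measure_mono Set.inter_subset_right) _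
      _ = ENNReal.ofReal (1 / (2 * M) * (t - s)) := by
          rw [Real.volume_Icc, ← ENNReal.ofReal_inv_of_pos (by linarith),
            ← ENNReal.ofReal_mul (by positivity)]
          congr 1
          ring
  have hae : ∀ᵐ b ∂ν, |b| ≤ M := by
    have h1 : ν (Set.Icc (-M) M) = 1 := by
      rw [hν, ProbabilityTheory.cond_apply measurableSet_Icc, Set.inter_self]
      exact ENNReal.inv_mul_cancel hv0 hvt
    have h2 : ∀ᵐ b ∂ν, b ∈ Set.Icc (-M) M :=
      (prob_compl_eq_zero_iff (μ := ν) measurableSet_Icc).2 h1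
    filter_upwards [h2] with b hb
    exact abs_le.mpr hb
  set a' : Fin n → ℝ := Function.update (xs P) i x with ha'
  obtain ⟨m, hm, hα⟩ := alpha_spec a' (k := k) (by omega)
  have hα1 : (univ.filter (fun l => a' l < alpha k a')).card ≤ k := by
    rw [hα]
    refine le_trans (le_of_eq ?_) hm.1
    rw [← Set.ncard_coe_finset]
    congr 1
    ext l
    simp
  have hα2 : k < (univ.filter (fun l => a' l ≤ alpha k a')).card := by
    rw [hα]
    refine lt_of_lt_of_le hm.2 (le_of_eq ?_)
    rw [← Set.ncard_coe_finset]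
    congr 1
    ext l
    simp
  have hin := inner_line hk a' (ys P) (fun l => hP l) hα1 hα2 i ν hD hae
  have hcnt : ∀ y, cnt k i (Function.update P i (x, y)) =
      {j | PosV a' (Function.update (ys P) i y) k i j ∧
        |a' j - alpha k a'| ≤ |a' i - alpha k a'|}.ncard := by
    intro y
    unfold cnt
    rw [xs_update, ys_update]
  simp only [hcnt]
  rw [hres, lintegral_smul_measure, smul_eq_mul, hvol]
  calc ENNReal.ofReal (2 * M) * _ ≤ ENNReal.ofReal (2 * M) *
        ENNReal.ofReal (4 * (1 / (2 * M)) * M) := mul_le_mul_right hin _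
    _ = ENNReal.ofReal (4 * M) := by
        rw [← ENNReal.ofReal_mul (by linarith)]
        congr 1
        field_simp

theorem inner_p (h : Dom μ τ M R) (hM : 0 < M) {k : ℕ} (hk : k + 2 ≤ n) (i : Fin n)
    (P : Fin n → ℝ × ℝ) (hP : ∀ l, |(P l).2| ≤ M) :
    ∫⁻ p, (cnt k i (Function.update P i p) : ℝ≥0∞) ∂μ i ≤ ENNReal.ofReal (4 * M * R) := by
  have hmeas : Measurable (fun p : ℝ × ℝ => (cnt k i (Function.update P i p) : ℝ≥0∞)) := by
    have h1 : Measurable (fun p : ℝ × ℝ => Function.update P i p) := measurable_update P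
    exact (measurable_of_countable (fun c : ℕ => (c : ℝ≥0∞))).comp ((measurable_cnt k i).comp h1)
  set S : Set (ℝ × ℝ) := Set.univ ×ˢ Set.Icc (-M) M with hS
  have hSm : MeasurableSet S := MeasurableSet.univ.prod measurableSet_Icc
  calc ∫⁻ p, (cnt k i (Function.update P i p) : ℝ≥0∞) ∂μ i
      = ∫⁻ p, S.indicator (fun p => (cnt k i (Function.update P i p) : ℝ≥0∞)) p ∂μ i := by
        apply lintegral_congr_ae
        filter_upwards [h.strip i] with p hp
        rw [Set.indicator_of_mem]
        exact ⟨trivial, abs_le.mp hp⟩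
    _ ≤ ∫⁻ p, S.indicator (fun p => (cnt k i (Function.update P i p) : ℝ≥0∞)) p
          ∂((τ i).prod volume) := lintegral_mono' (h.dom i) le_rfl
    _ = ∫⁻ x, ∫⁻ y, S.indicator (fun p => (cnt k i (Function.update P i p) : ℝ≥0∞)) (x, y)
          ∂volume ∂(τ i) :=
        lintegral_prod _ (hmeas.indicator hSm).aemeasurable
    _ ≤ ∫⁻ _x, ENNReal.ofReal (4 * M) ∂(τ i) := by
        apply lintegral_mono
        intro x
        refine le_trans (le_of_eq ?_) (inner_y hM hk i P hP x)
        rw [← lintegral_indicator measurableSet_Icc]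
        apply lintegral_congr
        intro y
        by_cases hy : y ∈ Set.Icc (-M) M
        · rw [Set.indicator_of_mem (show (x, y) ∈ S from ⟨trivial, hy⟩), Set.indicator_of_mem hy]
        · rw [Set.indicator_of_notMem (show (x, y) ∉ S from fun h => hy h.2),
            Set.indicator_of_notMem hy]
    _ = ENNReal.ofReal (4 * M) * τ i Set.univ := by rw [lintegral_const]
    _ ≤ ENNReal.ofReal (4 * M) * ENNReal.ofReal R := mul_le_mul_right (h.mass i) _
    _ = _ := by rw [← ENNReal.ofReal_mul (by linarith)]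

theorem pos_bound' [∀ i, IsProbabilityMeasure (μ i)] (h : Dom μ τ M R) (hM : 0 < M) (k : ℕ) :
    ∫⁻ P, ({q : Fin n × Fin n | q.1 < q.2 ∧ PosV (xs P) (ys P) k q.1 q.2}.ncard : ℝ≥0∞)
      ∂Measure.pi μ ≤ n * ENNReal.ofReal (4 * M * R) := by
  classical
  by_cases hk : k + 2 ≤ n
  · have hae : ∀ᵐ P ∂Measure.pi μ, ∀ l, |(P l).2| ≤ M := by
      rw [ae_all_iff]
      intro l
      exact (measurePreserving_eval μ l).quasiMeasurePreserving.ae (h.strip l)
    have hmeas : ∀ i, Measurable (fun P : Fin n → ℝ × ℝ => (cnt k i P : ℝ≥0∞)) := fun i =>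
      (measurable_of_countable (fun c : ℕ => (c : ℝ≥0∞))).comp (measurable_cnt k i)
    calc ∫⁻ P, ({q : Fin n × Fin n | q.1 < q.2 ∧ PosV (xs P) (ys P) k q.1 q.2}.ncard : ℝ≥0∞)
          ∂Measure.pi μ
        ≤ ∫⁻ P, ∑ i, (cnt k i P : ℝ≥0∞) ∂Measure.pi μ := by
          apply lintegral_mono
          intro P
          have := SmoothedLevel.count_pos (xs P) (ys P) k (alpha k (xs P))
          beta_reduce
          exact_mod_cast this
      _ = ∑ i, ∫⁻ P, (cnt k i P : ℝ≥0∞) ∂Measure.pi μ :=
          lintegral_finsetSum _ (fun i _ => hmeas i)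
      _ ≤ ∑ _i : Fin n, ENNReal.ofReal (4 * M * R) := by
          apply sum_le_sum
          intro i _
          rw [pi_update μ i (hmeas i)]
          calc _ ≤ ∫⁻ _P, ENNReal.ofReal (4 * M * R) ∂Measure.pi μ := by
                apply lintegral_mono_ae
                filter_upwards [hae] with P hP
                exact inner_p h hM hk i P hP
            _ = _ := by simp
      _ = _ := by
          rw [sum_const, card_univ, Fintype.card_fin, nsmul_eq_mul]
  · have : ∀ P : Fin n → ℝ × ℝ,
        {q : Fin n × Fin n | q.1 < q.2 ∧ PosV (xs P) (ys P) k q.1 q.2} = ∅ := by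
      intro P
      ext q
      simp only [Set.mem_ofPred_eq, Set.mem_empty_iff_false, iff_false]
      exact fun h => SmoothedLevel.posV_empty hk _ _ _ _ h.2
    simp [this]

theorem measurable_pairs (k : ℕ) (ε : ℝ) :
    Measurable (fun P : Fin n → ℝ × ℝ => ({q : Fin n × Fin n | q.1 < q.2 ∧
      PosV (fun l => ε * xs P l) (ys P) k q.1 q.2}.ncard : ℝ≥0∞)) := by
  have hφ : Measurable (fun P : Fin n → ℝ × ℝ => fun l => ((ε * (P l).1, (P l).2) : ℝ × ℝ)) := by
    rw [measurable_pi_iff]
    intro l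
    exact ((measurable_pi_apply l).fst.const_mul ε).prodMk (measurable_pi_apply l).snd
  have h := SmoothedLevel.measurable_ncard (fun (P : Fin n → ℝ × ℝ) (q : Fin n × Fin n) =>
    q.1 < q.2 ∧ PosV (fun l => ε * xs P l) (ys P) k q.1 q.2)
    (fun q => (MeasurableSet.const _).inter ((measurableSet_PosV k q.1 q.2).preimage hφ))
  exact (measurable_of_countable (fun c : ℕ => (c : ℝ≥0∞))).comp h

/-- the reflected laws -/
theorem neg_dom {μ : Fin n → Measure (ℝ × ℝ)} {τ : Fin n → Measure ℝ} {M R : ℝ}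
    (h : Dom μ τ M R) :
    Dom (fun i => (μ i).map (fun p : ℝ × ℝ => ((-p.1, p.2) : ℝ × ℝ)))
      (fun i => (τ i).map (fun x => -x)) M R := by
  have hm : Measurable (fun p : ℝ × ℝ => ((-p.1, p.2) : ℝ × ℝ)) :=
    measurable_fst.neg.prodMk measurable_snd
  refine ⟨?_, ?_, ?_⟩
  · intro i
    rw [Measure.map_apply measurable_neg MeasurableSet.univ, Set.preimage_univ]
    exact h.mass i
  · intro i
    have h1 : (μ i).map (fun p : ℝ × ℝ => ((-p.1, p.2) : ℝ × ℝ)) ≤
        ((τ i).prod volume).map (fun p : ℝ × ℝ => ((-p.1, p.2) : ℝ × ℝ)) :=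
      Measure.map_mono (h.dom i) hm
    refine h1.trans (le_of_eq ?_)
    have : IsFiniteMeasure (τ i) := ⟨lt_of_le_of_lt (h.mass i) ENNReal.ofReal_lt_top⟩
    have h2 := Measure.map_prod_map (τ i) (volume : Measure ℝ) measurable_neg measurable_id
    rw [Measure.map_id] at h2
    rw [h2]
    rfl
  · intro i
    have hset : MeasurableSet {p : ℝ × ℝ | |p.2| ≤ M} :=
      measurableSet_le (continuous_abs.measurable.comp measurable_snd) measurable_const
    exact (ae_map_iff hm.aemeasurable hset).2 (h.strip i)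

/-- the expected number of crossings of a given level -/
theorem smooth_cross {μ : Fin n → Measure (ℝ × ℝ)} [∀ i, IsProbabilityMeasure (μ i)]
    {τ : Fin n → Measure ℝ} {M R : ℝ} (h : Dom μ τ M R) (hM : 0 < M) (k : ℕ) :
    ∫⁻ P, ((cross (xs P) (ys P) k).ncard : ℝ≥0∞) ∂Measure.pi μ ≤
      n * ENNReal.ofReal (8 * M * R) := by
  have hm : Measurable (fun p : ℝ × ℝ => ((-p.1, p.2) : ℝ × ℝ)) :=
    measurable_fst.neg.prodMk measurable_snd
  have hprob : ∀ i, IsProbabilityMeasure ((μ i).map (fun p : ℝ × ℝ => ((-p.1, p.2) : ℝ × ℝ))) :=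
    fun i => Measure.isProbabilityMeasure_map hm.aemeasurable
  have h1 := pos_bound' h hM k
  have h2 := pos_bound' (neg_dom h) hM k
  have hmp : MeasurePreserving (fun (P : Fin n → ℝ × ℝ) (l : Fin n) =>
      ((-(P l).1, (P l).2) : ℝ × ℝ)) (Measure.pi μ)
      (Measure.pi (fun i => (μ i).map (fun p : ℝ × ℝ => ((-p.1, p.2) : ℝ × ℝ)))) :=
    measurePreserving_pi μ _ (fun i => hm.measurePreserving (μ i))
  have hmeas1 : Measurable (fun P : Fin n → ℝ × ℝ => ({q : Fin n × Fin n | q.1 < q.2 ∧
      PosV (xs P) (ys P) k q.1 q.2}.ncard : ℝ≥0∞)) := by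
    have := measurable_pairs (n := n) k 1
    simpa using this
  rw [← hmp.lintegral_comp hmeas1] at h2
  calc ∫⁻ P, ((cross (xs P) (ys P) k).ncard : ℝ≥0∞) ∂Measure.pi μ
      ≤ ∫⁻ P, (({q : Fin n × Fin n | q.1 < q.2 ∧ PosV (xs P) (ys P) k q.1 q.2}.ncard : ℝ≥0∞) +
        ({q : Fin n × Fin n | q.1 < q.2 ∧ PosV (fun i => -xs P i) (ys P) k q.1 q.2}.ncard : ℝ≥0∞))
        ∂Measure.pi μ := by
        apply lintegral_mono_ae
        filter_upwards [ae_simple' h] with P hP
        exact_mod_cast SmoothedLevel.crossings_le hP k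
    _ = _ := lintegral_add_left hmeas1 _
    _ ≤ n * ENNReal.ofReal (4 * M * R) + n * ENNReal.ofReal (4 * M * R) := add_le_add h1 h2
    _ = n * ENNReal.ofReal (8 * M * R) := by
        rw [← mul_add]
        congr 1
        have hR : ENNReal.ofReal (8 * M * R) = ENNReal.ofReal 2 * ENNReal.ofReal (4 * M * R) := by
          rw [← ENNReal.ofReal_mul (by norm_num)]
          congr 1
          ring
        rw [hR, ENNReal.ofReal_ofNat, two_mul]

theorem measurable_cross' (k : ℕ) :
    Measurable (fun P : Fin n → ℝ × ℝ => (cross (xs P) (ys P) k).ncard) :=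
  SmoothedLevel.measurable_ncard (fun (P : Fin n → ℝ × ℝ) (q : Fin n × Fin n) =>
    q.1 < q.2 ∧ xs P q.1 ≠ xs P q.2 ∧
    {l | ht (xs P) (ys P) l (cr (xs P) (ys P) q.1 q.2) <
      ht (xs P) (ys P) q.1 (cr (xs P) (ys P) q.1 q.2)}.ncard = k)
    (fun q => (MeasurableSet.const _).inter
      ((measurableSet_eq_fun (measurable_xs q.1) (measurable_xs q.2)).compl.inter
        ((SmoothedLevel.measurable_ncard (fun (P : Fin n → ℝ × ℝ) l =>
          ht (xs P) (ys P) l (cr (xs P) (ys P) q.1 q.2) <
            ht (xs P) (ys P) q.1 (cr (xs P) (ys P) q.1 q.2))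
          (fun l => measurableSet_lt (measurable_ht' q.1 q.2 l) (measurable_ht' q.1 q.2 q.1)))
          (measurableSet_singleton k))))

end Pool.Agent.L0h67.HL
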