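import Pool.Agent.L0h67.HL.Iid

/-! Halving lines of random subsets of an arbitrary point set. -/

set_option autoImplicit false

namespace Pool.Agent.L0h67.HL

open Finset MeasureTheory Filter Pool.Agent.R117.KR Pool.Agent.H189R2.Lev Pool.Agent.H189R2.Iid
open scoped ENNReal Topology

variable {n N : ℕ}

theorem continuous_side :
    Continuous (fun t : (ℝ × ℝ) × (ℝ × ℝ) × (ℝ × ℝ) => side t.1 t.2.1 t.2.2) := by
  unfold side
  fun_prop

/-- small discs around three points that are not collinear -/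
theorem stab_one {p q r : ℝ × ℝ} (h : side p q r ≠ 0) : ∀ᶠ ε in 𝓝[>] (0 : ℝ),
    ∀ x y z, x ∈ Metric.ball p ε → y ∈ Metric.ball q ε → z ∈ Metric.ball r ε →
      ((0 < side x y z ↔ 0 < side p q r) ∧ (side x y z < 0 ↔ side p q r < 0)) := by
  rcases lt_or_gt_of_ne h with h1 | h1
  · have ho : {t : (ℝ × ℝ) × (ℝ × ℝ) × (ℝ × ℝ) | side t.1 t.2.1 t.2.2 < 0} ∈ 𝓝 (p, q, r) :=
      (isOpen_lt continuous_side continuous_const).mem_nhds h1
    obtain ⟨ε₀, hε₀, hsub⟩ := Metric.mem_nhds_iff.1 ho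
    filter_upwards [Ioo_mem_nhdsGT hε₀] with ε hε x y z hx hy hz
    have hm : (x, y, z) ∈ Metric.ball (p, q, r) ε₀ := by
      rw [Metric.mem_ball] at hx hy hz ⊢
      rw [Prod.dist_eq, Prod.dist_eq]
      exact max_lt (hx.trans hε.2) (max_lt (hy.trans hε.2) (hz.trans hε.2))
    have h2 : side x y z < 0 := hsub hm
    exact ⟨⟨fun h3 => absurd h3 (lt_asymm h2), fun h3 => absurd h3 (lt_asymm h1)⟩,
      ⟨fun _ => h1, fun _ => h2⟩⟩
  · have ho : {t : (ℝ × ℝ) × (ℝ × ℝ) × (ℝ × ℝ) | 0 < side t.1 t.2.1 t.2.2} ∈ 𝓝 (p, q, r) :=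
      (isOpen_lt continuous_const continuous_side).mem_nhds h1
    obtain ⟨ε₀, hε₀, hsub⟩ := Metric.mem_nhds_iff.1 ho
    filter_upwards [Ioo_mem_nhdsGT hε₀] with ε hε x y z hx hy hz
    have hm : (x, y, z) ∈ Metric.ball (p, q, r) ε₀ := by
      rw [Metric.mem_ball] at hx hy hz ⊢
      rw [Prod.dist_eq, Prod.dist_eq]
      exact max_lt (hx.trans hε.2) (max_lt (hy.trans hε.2) (hz.trans hε.2))
    have h2 : 0 < side x y z := hsub hm
    exact ⟨⟨fun _ => h1, fun _ => h2⟩,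
      ⟨fun h3 => absurd h3 (lt_asymm h2), fun h3 => absurd h3 (lt_asymm h1)⟩⟩

theorem disj_one {p q : ℝ × ℝ} (h : p ≠ q) : ∀ᶠ ε in 𝓝[>] (0 : ℝ),
    Disjoint (Metric.ball p ε) (Metric.ball q ε) := by
  have hd : 0 < dist p q / 2 := by
    have := dist_pos.mpr h
    positivity
  filter_upwards [Ioo_mem_nhdsGT hd] with ε hε
  apply Metric.ball_disjoint_ball
  linarith [hε.2]

theorem exists_radius {p : Fin N → ℝ × ℝ} (hp : General p) : ∃ ε : ℝ, 0 < ε ∧
    (∀ i j l, i ≠ j → i ≠ l → j ≠ l →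
      ∀ x y z, x ∈ Metric.ball (p i) ε → y ∈ Metric.ball (p j) ε → z ∈ Metric.ball (p l) ε →
      ((0 < side x y z ↔ 0 < side (p i) (p j) (p l)) ∧
        (side x y z < 0 ↔ side (p i) (p j) (p l) < 0))) ∧
    ∀ i j, i ≠ j → Disjoint (Metric.ball (p i) ε) (Metric.ball (p j) ε) := by
  have h1 : ∀ᶠ ε in 𝓝[>] (0 : ℝ), ∀ i j l, i ≠ j → i ≠ l → j ≠ l →
      ∀ x y z, x ∈ Metric.ball (p i) ε → y ∈ Metric.ball (p j) ε → z ∈ Metric.ball (p l) ε →
      ((0 < side x y z ↔ 0 < side (p i) (p j) (p l)) ∧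
        (side x y z < 0 ↔ side (p i) (p j) (p l) < 0)) := by
    rw [Filter.eventually_all]; intro i
    rw [Filter.eventually_all]; intro j
    rw [Filter.eventually_all]; intro l
    by_cases hij : i = j
    · exact Eventually.of_forall fun _ h => absurd hij h
    by_cases hil : i = l
    · exact Eventually.of_forall fun _ _ h => absurd hil h
    by_cases hjl : j = l
    · exact Eventually.of_forall fun _ _ _ h => absurd hjl h
    filter_upwards [stab_one (hp.2 i j l hij hil hjl)] with ε hε _ _ _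
    exact hε
  have h2 : ∀ᶠ ε in 𝓝[>] (0 : ℝ), ∀ i j, i ≠ j →
      Disjoint (Metric.ball (p i) ε) (Metric.ball (p j) ε) := by
    rw [Filter.eventually_all]; intro i
    rw [Filter.eventually_all]; intro j
    by_cases hij : i = j
    · exact Eventually.of_forall fun _ h => absurd hij h
    filter_upwards [disj_one (fun h => hij (hp.1 h) : p i ≠ p j)] with ε hε _
    exact hε
  obtain ⟨ε, ⟨h3, h4⟩, h5⟩ := ((h1.and h2).and self_mem_nhdsWithin).exists
  exact ⟨ε, h5, h3, h4⟩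

/-- the uniform law on `N` discs of radius `ε` -/
noncomputable def mu (p : Fin N → ℝ × ℝ) (ε : ℝ) : Measure (ℝ × ℝ) :=
  (N : ℝ≥0∞)⁻¹ • ∑ j, ProbabilityTheory.cond volume (Metric.ball (p j) ε)

theorem ball_ne {ε : ℝ} (hε : 0 < ε) (c : ℝ × ℝ) :
    (volume (Metric.ball c ε) : ℝ≥0∞) ≠ 0 ∧ (volume (Metric.ball c ε) : ℝ≥0∞) ≠ ∞ :=
  ⟨(Metric.measure_ball_pos volume c hε).ne', measure_ball_lt_top.ne⟩

theorem isProb_mu (hN : N ≠ 0) {p : Fin N → ℝ × ℝ} {ε : ℝ} (hε : 0 < ε) :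
    IsProbabilityMeasure (mu p ε) := by
  constructor
  unfold mu
  rw [Measure.smul_apply, Measure.finsetSum_apply]
  have : ∀ j, ProbabilityTheory.cond volume (Metric.ball (p j) ε) Set.univ = 1 := by
    intro j
    have h := ProbabilityTheory.cond_isProbabilityMeasure_of_finite (ball_ne hε (p j)).1
      (ball_ne hε (p j)).2
    exact h.measure_univ
  simp only [this, sum_const, card_univ, Fintype.card_fin, nsmul_eq_mul, mul_one, smul_eq_mul]
  exact ENNReal.inv_mul_cancel (by exact_mod_cast hN) (ENNReal.natCast_ne_top N)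

theorem volume_line (a b c : ℝ) (h : a ≠ 0 ∨ b ≠ 0) :
    (volume {y : ℝ × ℝ | a * y.1 + b * y.2 = c} : ℝ≥0∞) = 0 := by
  have hm : MeasurableSet {y : ℝ × ℝ | a * y.1 + b * y.2 = c} :=
    measurableSet_eq_fun ((measurable_fst.const_mul a).add (measurable_snd.const_mul b))
      measurable_const
  rw [Measure.volume_eq_prod, Measure.measure_prod_null hm]
  by_cases hb : b = 0
  · subst hb
    have ha : a ≠ 0 := h.resolve_right (by simp)
    have hae : ∀ᵐ x : ℝ, x ≠ c / a := by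
      rw [ae_iff]
      simp
    filter_upwards [hae] with x hx
    have : Prod.mk x ⁻¹' {y : ℝ × ℝ | a * y.1 + 0 * y.2 = c} = ∅ := by
      ext y
      simp only [Set.mem_preimage, Set.mem_ofPred_eq, zero_mul, add_zero, Set.mem_empty_iff_false,
        iff_false]
      intro h1
      apply hx
      rw [eq_div_iff ha]
      linarith
    rw [this]
    simp
  · refine Eventually.of_forall fun x => ?_
    have : Prod.mk x ⁻¹' {y : ℝ × ℝ | a * y.1 + b * y.2 = c} ⊆ {(c - a * x) / b} := by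
      intro y hy
      simp only [Set.mem_preimage, Set.mem_ofPred_eq] at hy
      rw [Set.mem_singleton_iff, eq_div_iff hb]
      linarith
    exact measure_mono_null this (by simp)

theorem LN_mu {p : Fin N → ℝ × ℝ} {ε : ℝ} : LN (mu p ε) := by
  intro a b c h
  unfold mu
  rw [Measure.smul_apply, Measure.finsetSum_apply]
  have : ∀ j, ProbabilityTheory.cond volume (Metric.ball (p j) ε)
      {y : ℝ × ℝ | a * y.1 + b * y.2 = c} = 0 := fun j =>
    ProbabilityTheory.cond_absolutelyContinuous (volume_line a b c h)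
  simp [this]

theorem mu_ball {p : Fin N → ℝ × ℝ} {ε : ℝ} (hε : 0 < ε) (j : Fin N) :
    (N : ℝ≥0∞)⁻¹ ≤ mu p ε (Metric.ball (p j) ε) := by
  unfold mu
  rw [Measure.smul_apply, Measure.finsetSum_apply, smul_eq_mul]
  have h1 : ProbabilityTheory.cond volume (Metric.ball (p j) ε) (Metric.ball (p j) ε) = 1 := by
    rw [ProbabilityTheory.cond_apply Metric.isOpen_ball.measurableSet, Set.inter_self]
    exact ENNReal.inv_mul_cancel (ball_ne hε (p j)).1 (ball_ne hε (p j)).2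
  have h2 : (1 : ℝ≥0∞) ≤ ∑ i, ProbabilityTheory.cond volume (Metric.ball (p i) ε)
      (Metric.ball (p j) ε) := by
    rw [← h1]
    exact Finset.single_le_sum (f := fun i => ProbabilityTheory.cond volume (Metric.ball (p i) ε)
      (Metric.ball (p j) ε)) (fun _ _ => zero_le) (mem_univ j)
  calc (N : ℝ≥0∞)⁻¹ = (N : ℝ≥0∞)⁻¹ * 1 := (mul_one _).symm
    _ ≤ _ := mul_le_mul_right h2 _

/-- in the discs the sides of the lines are those of the centres -/
theorem sides_ball {p : Fin N → ℝ × ℝ} {ε : ℝ}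
    (hst : ∀ i j l, i ≠ j → i ≠ l → j ≠ l →
      ∀ x y z, x ∈ Metric.ball (p i) ε → y ∈ Metric.ball (p j) ε → z ∈ Metric.ball (p l) ε →
      ((0 < side x y z ↔ 0 < side (p i) (p j) (p l)) ∧
        (side x y z < 0 ↔ side (p i) (p j) (p l) < 0)))
    (σ : Fin n ↪ Fin N) {P : Fin n → ℝ × ℝ} (hP : ∀ i, P i ∈ Metric.ball (p (σ i)) ε) :
    ∀ i j, i ≠ j → pos P i j = pos (fun i => p (σ i)) i j ∧
      neg P i j = neg (fun i => p (σ i)) i j := by
  intro i j hij
  have hl : ∀ l, (0 < side (P i) (P j) (P l) ↔ 0 < side (p (σ i)) (p (σ j)) (p (σ l))) ∧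
      (side (P i) (P j) (P l) < 0 ↔ side (p (σ i)) (p (σ j)) (p (σ l)) < 0) := by
    intro l
    by_cases hil : i = l
    · subst hil
      rw [side_self_left, side_self_left]
      exact ⟨Iff.rfl, Iff.rfl⟩
    by_cases hjl : j = l
    · subst hjl
      rw [side_self_right, side_self_right]
      exact ⟨Iff.rfl, Iff.rfl⟩
    exact hst (σ i) (σ j) (σ l) (fun h => hij (σ.injective h)) (fun h => hil (σ.injective h))
      (fun h => hjl (σ.injective h)) _ _ _ (hP i) (hP j) (hP l)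
  constructor
  · ext l; exact (hl l).1
  · ext l; exact (hl l).2

/-- in the discs the halving pairs are those of the centres -/
theorem halving_ball {p : Fin N → ℝ × ℝ} {ε : ℝ}
    (hst : ∀ i j l, i ≠ j → i ≠ l → j ≠ l →
      ∀ x y z, x ∈ Metric.ball (p i) ε → y ∈ Metric.ball (p j) ε → z ∈ Metric.ball (p l) ε →
      ((0 < side x y z ↔ 0 < side (p i) (p j) (p l)) ∧
        (side x y z < 0 ↔ side (p i) (p j) (p l) < 0)))
    (σ : Fin n ↪ Fin N) {P : Fin n → ℝ × ℝ} (hP : ∀ i, P i ∈ Metric.ball (p (σ i)) ε) :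
    halving P = halving (fun i => p (σ i)) := by
  have key := sides_ball hst σ hP
  ext ⟨i, j⟩
  constructor
  · rintro ⟨h1, h2, h3⟩
    simp only at h1 h2 h3
    rw [(key i j h1.ne).1] at h2
    rw [(key i j h1.ne).2] at h3
    exact ⟨h1, h2, h3⟩
  · rintro ⟨h1, h2, h3⟩
    simp only at h1 h2 h3
    rw [← (key i j h1.ne).1] at h2
    rw [← (key i j h1.ne).2] at h3
    exact ⟨h1, h2, h3⟩

theorem kPairs_ball {p : Fin N → ℝ × ℝ} {ε : ℝ}
    (hst : ∀ i j l, i ≠ j → i ≠ l → j ≠ l →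
      ∀ x y z, x ∈ Metric.ball (p i) ε → y ∈ Metric.ball (p j) ε → z ∈ Metric.ball (p l) ε →
      ((0 < side x y z ↔ 0 < side (p i) (p j) (p l)) ∧
        (side x y z < 0 ↔ side (p i) (p j) (p l) < 0)))
    (σ : Fin n ↪ Fin N) {P : Fin n → ℝ × ℝ} (hP : ∀ i, P i ∈ Metric.ball (p (σ i)) ε) (k : ℕ) :
    kPairs P k = kPairs (fun i => p (σ i)) k := by
  have key := sides_ball hst σ hP
  ext ⟨i, j⟩
  constructor
  · rintro ⟨h1, h2⟩
    simp only at h1 h2
    rw [(key i j h1.ne).1, (key i j h1.ne).2] at h2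
    exact ⟨h1, h2⟩
  · rintro ⟨h1, h2⟩
    simp only at h1 h2
    rw [← (key i j h1.ne).1, ← (key i j h1.ne).2] at h2
    exact ⟨h1, h2⟩

/-- sum over injective maps -/
theorem sum_emb {p : Fin N → ℝ × ℝ} (hN : N ≠ 0) (hp : General p) (F : (Fin n → ℝ × ℝ) → ℕ)
    (hF : ∀ ε : ℝ, (∀ i j l, i ≠ j → i ≠ l → j ≠ l →
      ∀ x y z, x ∈ Metric.ball (p i) ε → y ∈ Metric.ball (p j) ε → z ∈ Metric.ball (p l) ε →
      ((0 < side x y z ↔ 0 < side (p i) (p j) (p l)) ∧
        (side x y z < 0 ↔ side (p i) (p j) (p l) < 0))) → ∀ (σ : Fin n ↪ Fin N)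
      (P : Fin n → ℝ × ℝ), (∀ i, P i ∈ Metric.ball (p (σ i)) ε) → F P = F (fun i => p (σ i)))
    {c : ℝ} (hc : 0 ≤ c) (hb : ∀ (μ : Measure (ℝ × ℝ)) [IsProbabilityMeasure μ], LN μ →
      ∫⁻ P, (F P : ℝ≥0∞) ∂Measure.pi (fun _ : Fin n => μ) ≤ ENNReal.ofReal c) :
    ((∑ σ : Fin n ↪ Fin N, F (fun i => p (σ i)) : ℕ) : ℝ) ≤ (N : ℝ) ^ n * c := by
  classical
  obtain ⟨ε, hε, hst, hdis⟩ := exists_radius hp
  have := isProb_mu (p := p) hN hε
  set π := Measure.pi (fun _ : Fin n => mu p ε) with hπ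
  set E : (Fin n ↪ Fin N) → Set (Fin n → ℝ × ℝ) := fun σ =>
    Set.pi Set.univ (fun i => Metric.ball (p (σ i)) ε) with hE
  have hEm : ∀ σ, MeasurableSet (E σ) := fun σ =>
    MeasurableSet.univ_pi fun i => Metric.isOpen_ball.measurableSet
  have hEd : Pairwise (Function.onFun Disjoint E) := by
    intro σ τ hστ
    rw [Function.onFun, Set.disjoint_left]
    intro P h1 h2
    apply hστ
    ext i
    by_contra hne
    have h3 := hdis (σ i) (τ i) (fun h => hne (by rw [h]))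
    exact Set.disjoint_left.1 h3 (h1 i trivial) (h2 i trivial)
  have hEp : ∀ σ, ((N : ℝ≥0∞)⁻¹) ^ n ≤ π (E σ) := by
    intro σ
    rw [hπ, hE]
    simp only
    rw [Measure.pi_pi]
    calc ((N : ℝ≥0∞)⁻¹) ^ n = ∏ _i : Fin n, (N : ℝ≥0∞)⁻¹ := by simp
      _ ≤ _ := Finset.prod_le_prod' fun i _ => mu_ball hε (σ i)
  have h1 : ∑ σ : Fin n ↪ Fin N, ((N : ℝ≥0∞)⁻¹) ^ n * ((F (fun i => p (σ i)) : ℕ) : ℝ≥0∞) ≤
      ENNReal.ofReal c := by
    calc ∑ σ : Fin n ↪ Fin N, ((N : ℝ≥0∞)⁻¹) ^ n * ((F (fun i => p (σ i)) : ℕ) : ℝ≥0∞)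
        ≤ ∑ σ : Fin n ↪ Fin N, ∫⁻ P in E σ, (F P : ℝ≥0∞) ∂π := by
          apply Finset.sum_le_sum
          intro σ _
          have e : ∫⁻ P in E σ, (F P : ℝ≥0∞) ∂π =
              ∫⁻ P in E σ, ((F (fun i => p (σ i)) : ℕ) : ℝ≥0∞) ∂π := by
            apply setLIntegral_congr_fun (hEm σ)
            intro P hP
            simp only
            rw [hF ε hst σ P (fun i => hP i trivial)]
          rw [e, setLIntegral_const, mul_comm]
          exact mul_le_mul_right (hEp σ) _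
      _ = ∫⁻ P in ⋃ σ, E σ, (F P : ℝ≥0∞) ∂π := by
          rw [lintegral_iUnion hEm hEd, tsum_fintype]
      _ ≤ ∫⁻ P, (F P : ℝ≥0∞) ∂π := setLIntegral_le_lintegral _ _
      _ ≤ _ := hb (mu p ε) LN_mu
  rw [← Finset.mul_sum] at h1
  have hNpos : (0 : ℝ) < (N : ℝ) ^ n := by
    have : (0 : ℝ) < N := by exact_mod_cast Nat.pos_of_ne_zero hN
    positivity
  have h2 : ENNReal.ofReal (((N : ℝ) ^ n)⁻¹ *
      ((∑ σ : Fin n ↪ Fin N, F (fun i => p (σ i)) : ℕ) : ℝ)) ≤ ENNReal.ofReal c := by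
    refine le_trans (le_of_eq ?_) h1
    rw [ENNReal.ofReal_mul (by positivity), ENNReal.ofReal_natCast, ENNReal.ofReal_inv_of_pos hNpos,
      ENNReal.ofReal_pow (by positivity), ENNReal.ofReal_natCast, ENNReal.inv_pow]
    push_cast
    rfl
  have h3 := (ENNReal.ofReal_le_ofReal_iff hc).1 h2
  rw [inv_mul_le_iff₀ hNpos] at h3
  exact h3

/-- if `n² ≤ N` at least half of the maps are injective -/
theorem pow_le_desc (h : n ^ 2 ≤ N) : N ^ n ≤ 2 * N.descFactorial n := by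
  have key : ∀ k : ℕ, k ≤ N → (2 * (N : ℤ) - k * (k - 1)) * (N : ℤ) ^ k ≤
      2 * N * (N.descFactorial k : ℤ) := by
    intro k
    induction k with
    | zero => intro _; simp
    | succ k ih =>
      intro hk
      have ih' := ih (by omega)
      rw [Nat.descFactorial_succ]
      push_cast [Nat.cast_sub (show k ≤ N by omega)]
      have hkN : (0 : ℤ) ≤ (N : ℤ) - k := by
        have : (k : ℤ) ≤ N := by exact_mod_cast (by omega : k ≤ N)
        linarith
      have h1 := mul_le_mul_of_nonneg_left ih' hkN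
      have hk0 : (0 : ℤ) ≤ k := by positivity
      have h2 : (2 * (N : ℤ) - (k + 1) * (k + 1 - 1)) * (N : ℤ) ^ (k + 1) ≤
          ((N : ℤ) - k) * ((2 * (N : ℤ) - k * (k - 1)) * (N : ℤ) ^ k) := by
        have h3 : (2 * (N : ℤ) - (k + 1) * (k + 1 - 1)) * N ≤
            ((N : ℤ) - k) * (2 * (N : ℤ) - k * (k - 1)) := by
          have h4 : (0 : ℤ) ≤ k * (k * (k - 1)) := by
            rcases Nat.eq_zero_or_pos k with h0 | h0
            · subst h0; simp
            · have : (1 : ℤ) ≤ k := by exact_mod_cast h0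
              have h5 : (0 : ℤ) ≤ k - 1 := by linarith
              positivity
          nlinarith
        have h4 : (0 : ℤ) ≤ (N : ℤ) ^ k := by positivity
        calc (2 * (N : ℤ) - (k + 1) * (k + 1 - 1)) * (N : ℤ) ^ (k + 1)
            = ((2 * (N : ℤ) - (k + 1) * (k + 1 - 1)) * N) * (N : ℤ) ^ k := by ring
          _ ≤ (((N : ℤ) - k) * (2 * (N : ℤ) - k * (k - 1))) * (N : ℤ) ^ k :=
            mul_le_mul_of_nonneg_right h3 h4
          _ = _ := by ring
      calc _ ≤ _ := h2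
        _ ≤ _ := h1
        _ = _ := by ring
  rcases Nat.eq_zero_or_pos n with rfl | hn
  · simp
  have hnN : n ≤ N := le_trans (by nlinarith) h
  have hN : 0 < N := lt_of_lt_of_le hn hnN
  have h1 := key n hnN
  have h2 : (N : ℤ) ≤ 2 * (N : ℤ) - n * (n - 1) := by
    have h3 : ((n : ℤ)) ^ 2 ≤ N := by exact_mod_cast h
    have h4 : (0 : ℤ) ≤ n := by positivity
    nlinarith
  have h3 : (N : ℤ) * (N : ℤ) ^ n ≤ N * (2 * (N.descFactorial n : ℤ)) := by
    calc (N : ℤ) * (N : ℤ) ^ n ≤ (2 * (N : ℤ) - n * (n - 1)) * (N : ℤ) ^ n :=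
          mul_le_mul_of_nonneg_right h2 (by positivity)
      _ ≤ _ := h1
      _ = _ := by ring
  have h4 := le_of_mul_le_mul_left h3 (by exact_mod_cast hN)
  exact_mod_cast h4

/-- the points are in general position: no three of them are collinear -/
def NoThree (S : Finset (ℝ × ℝ)) : Prop :=
  ∀ p ∈ S, ∀ q ∈ S, ∀ r ∈ S, p ≠ q → p ≠ r → q ≠ r → side p q r ≠ 0

/-- average over the `n`-element subsets -/
theorem sum_subsets {S : Finset (ℝ × ℝ)} (hS : NoThree S) (h : n ^ 2 ≤ S.card)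
    (F : (Fin n → ℝ × ℝ) → ℕ) (G : Finset (ℝ × ℝ) → ℕ)
    (hG : ∀ P : Fin n → ℝ × ℝ, Function.Injective P → G (univ.image P) ≤ F P)
    (hF : ∀ (p : Fin S.card → ℝ × ℝ) (ε : ℝ), (∀ i j l, i ≠ j → i ≠ l → j ≠ l →
      ∀ x y z, x ∈ Metric.ball (p i) ε → y ∈ Metric.ball (p j) ε → z ∈ Metric.ball (p l) ε →
      ((0 < side x y z ↔ 0 < side (p i) (p j) (p l)) ∧
        (side x y z < 0 ↔ side (p i) (p j) (p l) < 0))) → ∀ (σ : Fin n ↪ Fin S.card)
      (P : Fin n → ℝ × ℝ), (∀ i, P i ∈ Metric.ball (p (σ i)) ε) → F P = F (fun i => p (σ i)))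
    {c : ℝ} (hc : 0 ≤ c) (hb : ∀ (μ : Measure (ℝ × ℝ)) [IsProbabilityMeasure μ], LN μ →
      ∫⁻ P, (F P : ℝ≥0∞) ∂Measure.pi (fun _ : Fin n => μ) ≤ ENNReal.ofReal c) :
    ((∑ Q ∈ S.powersetCard n, G Q : ℕ) : ℝ) ≤ 2 * c * (S.card.choose n) := by
  classical
  set N := S.card with hNdef
  rcases Nat.eq_zero_or_pos n with hn0 | hnpos
  · -- `n = 0`
    subst hn0
    have e : Finset.powersetCard 0 S = {∅} := Finset.powersetCard_zero S
    have hprob := isProb_mu (N := 1) (p := fun _ : Fin 1 => ((0 : ℝ), (0 : ℝ))) one_ne_zero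
      (one_pos : (0 : ℝ) < 1)
    have h2 := hb (mu (fun _ : Fin 1 => ((0 : ℝ), (0 : ℝ))) 1) LN_mu
    have h3 : ∀ P : Fin 0 → ℝ × ℝ, (F P : ℝ≥0∞) = (F Fin.elim0 : ℝ≥0∞) := fun P => by
      rw [Subsingleton.elim P Fin.elim0]
    simp only [h3, lintegral_const, measure_univ, mul_one] at h2
    have h4 : (F Fin.elim0 : ℝ) ≤ c := by
      rw [← ENNReal.ofReal_natCast] at h2
      exact (ENNReal.ofReal_le_ofReal_iff hc).1 h2
    have h5 : G ∅ ≤ F Fin.elim0 := by
      have := hG Fin.elim0 (fun i => i.elim0)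
      simpa using this
    rw [e, sum_singleton, Nat.choose_zero_right]
    have h6 : (G ∅ : ℝ) ≤ F Fin.elim0 := by exact_mod_cast h5
    push_cast
    linarith
  have hnN : n ≤ N := le_trans (by nlinarith) h
  have hN : N ≠ 0 := by omega
  set p : Fin N → ℝ × ℝ := fun i => ((S.equivFin.symm i : S) : ℝ × ℝ) with hp
  have hpe : ∀ y : S, p (S.equivFin y) = (y : ℝ × ℝ) := fun y => by
    show ((S.equivFin.symm (S.equivFin y) : S) : ℝ × ℝ) = y
    rw [Equiv.symm_apply_apply]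
  have hpinj : Function.Injective p := fun i j hij => by
    have : S.equivFin.symm i = S.equivFin.symm j := Subtype.ext hij
    exact S.equivFin.symm.injective this
  have hpg : General p := by
    refine ⟨hpinj, fun i j l hij hil hjl => ?_⟩
    exact hS _ (S.equivFin.symm i).2 _ (S.equivFin.symm j).2 _ (S.equivFin.symm l).2
      (fun h => hij (hpinj h)) (fun h => hil (hpinj h)) (fun h => hjl (hpinj h))
  have hex : ∀ Q : Finset (ℝ × ℝ), Q ∈ S.powersetCard n →
      ∃ σ : Fin n ↪ Fin N, univ.image (fun i => p (σ i)) = Q := by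
    intro Q hQ
    rw [mem_powersetCard] at hQ
    let e := (Q.equivFinOfCardEq hQ.2).symm
    refine ⟨⟨fun i => S.equivFin ⟨(e i : ℝ × ℝ), hQ.1 (e i).2⟩, ?_⟩, ?_⟩
    · intro i j hij
      have h1 := S.equivFin.injective hij
      have h2 : (e i : ℝ × ℝ) = e j := Subtype.mk_eq_mk.1 h1
      exact e.injective (Subtype.ext h2)
    · have hv : ∀ i, p (S.equivFin ⟨(e i : ℝ × ℝ), hQ.1 (e i).2⟩) = (e i : ℝ × ℝ) :=
        fun i => hpe _
      ext x
      rw [mem_image]
      constructor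
      · rintro ⟨i, -, rfl⟩
        show p (S.equivFin ⟨(e i : ℝ × ℝ), _⟩) ∈ Q
        rw [hv]
        exact (e i).2
      · intro hx
        refine ⟨e.symm ⟨x, hx⟩, mem_univ _, ?_⟩
        show p (S.equivFin ⟨(e (e.symm ⟨x, hx⟩) : ℝ × ℝ), _⟩) = x
        rw [hv, Equiv.apply_symm_apply]
  have hne : Nonempty (Fin n ↪ Fin N) := ⟨Fin.castLEEmb hnN⟩
  choose! τ hτ using hex
  set f : Finset (ℝ × ℝ) × Equiv.Perm (Fin n) → (Fin n ↪ Fin N) := fun x =>
    x.2.toEmbedding.trans (τ x.1) with hf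
  have him : ∀ x ∈ (S.powersetCard n) ×ˢ (univ : Finset (Equiv.Perm (Fin n))),
      univ.image (fun i => p (f x i)) = x.1 := by
    rintro ⟨Q, π⟩ hx
    rw [mem_product] at hx
    have e1 : univ.image (fun i => p (f (Q, π) i)) = univ.image (fun i => p (τ Q i)) := by
      ext y
      simp only [mem_image, mem_univ, true_and]
      constructor
      · rintro ⟨i, rfl⟩
        exact ⟨π i, rfl⟩
      · rintro ⟨i, rfl⟩
        refine ⟨π.symm i, ?_⟩
        show p (τ Q (π (π.symm i))) = _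
        rw [Equiv.apply_symm_apply]
    exact e1.trans (hτ Q hx.1)
  have hinj : Set.InjOn f ((S.powersetCard n) ×ˢ (univ : Finset (Equiv.Perm (Fin n))) :
      Finset (Finset (ℝ × ℝ) × Equiv.Perm (Fin n))) := by
    rintro ⟨Q, π⟩ hx ⟨Q', π'⟩ hx' heq
    have h1 := him _ hx
    have h2 := him _ hx'
    rw [heq] at h1
    have hQ : Q = Q' := h1.symm.trans h2
    subst hQ
    have hπ : π = π' := by
      ext i
      have h3 := DFunLike.congr_fun heq i
      exact congrArg Fin.val ((τ Q).injective h3)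
    rw [hπ]
  have hsum : n.factorial * ∑ Q ∈ S.powersetCard n, G Q ≤
      ∑ σ : Fin n ↪ Fin N, F (fun i => p (σ i)) := by
    calc n.factorial * ∑ Q ∈ S.powersetCard n, G Q
        = ∑ x ∈ (S.powersetCard n) ×ˢ (univ : Finset (Equiv.Perm (Fin n))), G x.1 := by
          rw [sum_product]
          simp only [sum_const, card_univ, Fintype.card_perm, Fintype.card_fin, smul_eq_mul]
          rw [mul_sum]
      _ = ∑ x ∈ (S.powersetCard n) ×ˢ (univ : Finset (Equiv.Perm (Fin n))),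
          G (univ.image (fun i => p (f x i))) := by
          apply sum_congr rfl
          intro x hx
          rw [him x hx]
      _ = ∑ y ∈ ((S.powersetCard n) ×ˢ (univ : Finset (Equiv.Perm (Fin n)))).image f,
          G (univ.image (fun i => p (y i))) :=
          (sum_image (f := fun y : Fin n ↪ Fin N => G (univ.image (fun i => p (y i)))) hinj).symm
      _ ≤ ∑ y : Fin n ↪ Fin N, G (univ.image (fun i => p (y i))) :=
          sum_le_sum_of_subset (subset_univ _)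
      _ ≤ _ := sum_le_sum fun y _ => hG _ (fun i j hij => y.injective (hpinj hij))
  have h1 := sum_emb hN hpg F (hF p) hc hb
  have h2 : ((n.factorial * ∑ Q ∈ S.powersetCard n, G Q : ℕ) : ℝ) ≤ (N : ℝ) ^ n * c :=
    le_trans (by exact_mod_cast hsum) h1
  have h3 : ((N : ℝ)) ^ n ≤ 2 * (n.factorial * N.choose n) := by
    have h4 := pow_le_desc h
    rw [Nat.descFactorial_eq_factorial_mul_choose] at h4
    exact_mod_cast h4
  have h4 : (0 : ℝ) < n.factorial := by exact_mod_cast n.factorial_pos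
  have h5 : (n.factorial : ℝ) * ((∑ Q ∈ S.powersetCard n, G Q : ℕ) : ℝ) ≤
      n.factorial * (2 * c * (N.choose n)) := by
    calc (n.factorial : ℝ) * ((∑ Q ∈ S.powersetCard n, G Q : ℕ) : ℝ)
        = ((n.factorial * ∑ Q ∈ S.powersetCard n, G Q : ℕ) : ℝ) := by push_cast; ring
      _ ≤ (N : ℝ) ^ n * c := h2
      _ ≤ (2 * (n.factorial * N.choose n)) * c := mul_le_mul_of_nonneg_right h3 hc
      _ = _ := by ring
  exact le_of_mul_le_mul_left h5 h4

end Pool.Agent.L0h67.HL
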